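import Pool.Agent.TH433.MC8

/-!
# The rate: measure of the exceptional rotations
-/

set_option autoImplicit false

open Set MeasureTheory Filter Topology

namespace Pool.Agent.TH433.MC

open Pool.Agent.H462R2.AP Pool.Agent.H762R2.Rt Pool.Agent.Helper114.Herman

/-- A sequence of sets with measures `O(n ^ (-1 - δ))`. -/
def Rate (S : ℕ → Set ℝ) : Prop := ∃ C δ : ℝ, 0 < C ∧ 0 < δ ∧ ∃ n₀ : ℕ, ∀ n, n₀ ≤ n →
  volume (S n) ≤ ENNReal.ofReal (C * (n : ℝ) ^ (-(1 + δ)))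

theorem Rate.mono {S T : ℕ → Set ℝ} (h : Rate T) {n₁ : ℕ} (hST : ∀ n, n₁ ≤ n → S n ⊆ T n) :
    Rate S := by
  obtain ⟨C, δ, hC, hδ, n₀, h⟩ := h
  exact ⟨C, δ, hC, hδ, max n₀ n₁, fun n hn => (measure_mono (hST n ((le_max_right _ _).trans hn))).trans
    (h n ((le_max_left _ _).trans hn))⟩

theorem Rate.union {S T : ℕ → Set ℝ} (hS : Rate S) (hT : Rate T) : Rate fun n => S n ∪ T n := by
  obtain ⟨C, δ, hC, hδ, n₀, h⟩ := hS
  obtain ⟨C', δ', hC', hδ', n₀', h'⟩ := hT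
  refine ⟨C + C', min δ δ', by positivity, lt_min hδ hδ', max (max n₀ n₀') 1, fun n hn => ?_⟩
  have hn1 : 1 ≤ n := (le_max_right _ _).trans hn
  have hn1' : (1 : ℝ) ≤ n := by exact_mod_cast hn1
  have h1 := h n ((le_max_left _ _).trans ((le_max_left _ _).trans hn))
  have h2 := h' n ((le_max_right _ _).trans ((le_max_left _ _).trans hn))
  have e1 : (n : ℝ) ^ (-(1 + δ)) ≤ (n : ℝ) ^ (-(1 + min δ δ')) :=
    Real.rpow_le_rpow_of_exponent_le hn1' (by linarith [min_le_left δ δ'])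
  have e2 : (n : ℝ) ^ (-(1 + δ')) ≤ (n : ℝ) ^ (-(1 + min δ δ')) :=
    Real.rpow_le_rpow_of_exponent_le hn1' (by linarith [min_le_right δ δ'])
  calc volume (S n ∪ T n) ≤ volume (S n) + volume (T n) := measure_union_le _ _
    _ ≤ ENNReal.ofReal (C * (n : ℝ) ^ (-(1 + δ))) + ENNReal.ofReal (C' * (n : ℝ) ^ (-(1 + δ'))) :=
        add_le_add h1 h2
    _ = ENNReal.ofReal (C * (n : ℝ) ^ (-(1 + δ)) + C' * (n : ℝ) ^ (-(1 + δ'))) := by
        rw [ENNReal.ofReal_add (by positivity) (by positivity)]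
    _ ≤ ENNReal.ofReal ((C + C') * (n : ℝ) ^ (-(1 + min δ δ'))) := by
        apply ENNReal.ofReal_le_ofReal
        have a1 := mul_le_mul_of_nonneg_left e1 hC.le
        have a2 := mul_le_mul_of_nonneg_left e2 hC'.le
        linarith

theorem Rate.empty : Rate fun _ => ∅ :=
  ⟨1, 1, one_pos, one_pos, 0, fun n _ => by simp⟩

theorem Rate.biUnion {ι : Type*} {Z : Set ι} (hZ : Z.Finite) {S : ι → ℕ → Set ℝ}
    (h : ∀ z ∈ Z, Rate (S z)) : Rate fun n => ⋃ z ∈ Z, S z n := by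
  induction Z, hZ using Set.Finite.induction_on with
  | empty => simpa using Rate.empty
  | @insert a Z _ _ ih =>
    have h1 := (h a (Or.inl rfl)).union (ih fun z hz => h z (Or.inr hz))
    refine h1.mono (n₁ := 0) fun n _ => ?_
    rw [Set.biUnion_insert]

theorem rate_one_zero {P Q : Polynomial ℂ} (hc : IsCoprime P Q) {D : ℕ} (hP : P.natDegree ≤ D)
    (hQ : Q.natDegree ≤ D) (h0 : ‖P.coeff 0‖ ≠ ‖Q.coeff 0‖) (hDD : ‖P.coeff D‖ ≠ ‖Q.coeff D‖)
    (hs : ∀ σ, gc P Q σ = 0 → deriv (gc P Q) σ ≠ 0) {A K : ℝ} (hK : 0 < K)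
    {z β M : ℝ} (hz : gc P Q z = 0) (hz4 : |z| ≤ 4) (hβ : |β| ≤ 4) (hM : 0 ≤ M) :
    Rate fun n => {t : ℝ | |t| ≤ M ∧ ∃ k : ℤ,
      |n * (n * (t + β) - z - 2 * Real.pi * k)| ≤ A * Real.log n ∧
      Bad P Q (K * (Real.log n / n)) n (Complex.exp (β * Complex.I)) t} := by
  obtain ⟨α, hα, h, C, τ₀, hC, hτ₀, hh⟩ := local_exp hc hz (hs z hz)
  obtain ⟨C', δ, hC', hδ, n₀, hmeas⟩ := local_measure hP hQ h0 hDD hα hC hτ₀
    (fun τ hτ => (hh τ hτ).2.2) (A := A) hK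
  set e : ℂ := Complex.exp (z * Complex.I) with he
  set v : ℂ := Complex.exp (β * Complex.I) with hv
  set ρ : ℂ := P.eval e / Q.eval e with hρ
  have hen : ‖e‖ = 1 := Complex.norm_exp_ofReal_mul_I z
  have hvn : ‖v‖ = 1 := Complex.norm_exp_ofReal_mul_I β
  have hv0 : v ≠ 0 := Complex.exp_ne_zero _
  have heq : ‖P.eval e‖ = ‖Q.eval e‖ := by
    have h1 : ‖P.eval e‖ ^ 2 - ‖Q.eval e‖ ^ 2 = 0 := hz
    exact (pow_left_inj₀ (norm_nonneg _) (norm_nonneg _) two_ne_zero).1 (by linarith)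
  have hQe : Q.eval e ≠ 0 := by
    intro h
    rw [h, norm_zero, norm_eq_zero] at heq
    exact (coprime_eval hc e).elim (fun h' => h' heq) (fun h' => h' h)
  have hρn : ‖ρ‖ = 1 := by
    rw [hρ, norm_div, heq, div_self (norm_ne_zero_iff.2 hQe)]
  set ω : ℕ → ℂ := fun n => e * (v⁻¹) ^ n * ρ ^ n with hω
  have hωn : ∀ n, ‖ω n‖ = 1 := by
    intro n
    rw [hω]
    simp only
    rw [norm_mul, norm_mul, norm_pow, norm_pow, norm_inv, hen, hvn, hρn]
    simp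
  set Y : ℕ → Set ℝ := fun n => {x : ℝ | |x| ≤ A * Real.log n ∧ ¬ Good (K * (Real.log n / n))
        (P.eval (ω n * Complex.exp (((x / n : ℝ) : ℂ) * Complex.I + n * h (x / n))))
        (Q.eval (ω n * Complex.exp (((x / n : ℝ) : ℂ) * Complex.I + n * h (x / n))))} with hY
  set S : ℕ → Set ℝ := fun n => {t : ℝ | |t| ≤ M ∧
    ∃ k : ℤ, n * (n * (t + β) - z - 2 * Real.pi * k) ∈ Y n} with hS
  obtain ⟨n₁, hn₁⟩ := eventually_atTop.1 (((log_div_lt A one_pos).and (eventually_ge_atTop 1)).and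
    (log_div_lt A hτ₀))
  have hrate : ∀ n, max n₀ n₁ ≤ n → volume (S n) ≤
      ENNReal.ofReal (((2 * M + 30) * C') * (n : ℝ) ^ (-(1 + δ))) := by
    intro n hn
    obtain ⟨⟨c1, hn1⟩, -⟩ := hn₁ n ((le_max_right _ _).trans hn)
    have hn0 : (0 : ℝ) < n := by exact_mod_cast hn1
    have h1 := count_returns (Y := Y n) hn1 hβ hz4 hM (by
      rintro x ⟨hx, _⟩
      rw [← mul_div_assoc, div_lt_iff₀ hn0] at c1
      linarith)
    refine h1.trans ((mul_le_mul_right (hmeas n ((le_max_left _ _).trans hn) (ω n) (hωn n)) _).trans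
      (le_of_eq ?_))
    rw [← ENNReal.ofReal_mul (by positivity)]
    congr 1
    rw [neg_add, Real.rpow_add hn0, Real.rpow_neg_one]
    ring
  refine ⟨(2 * M + 30) * C', δ, by positivity, hδ, max n₀ n₁, fun n hn =>
    (measure_mono ?_).trans (hrate n hn)⟩
  obtain ⟨⟨-, hn1⟩, c2⟩ := hn₁ n ((le_max_right _ _).trans hn)
  rintro t ⟨htM, k, hk, hbad⟩
  have hn0 : (0 : ℝ) < n := by exact_mod_cast hn1
  refine ⟨htM, k, hk, ?_⟩
  set τ : ℝ := n * (t + β) - z - 2 * Real.pi * k with hτ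
  have hxn : n * τ / n = τ := by field_simp
  rw [hxn]
  have hτ1 : |τ| ≤ τ₀ := by
    rw [abs_mul, abs_of_pos hn0] at hk
    have h1 : |τ| ≤ A * (Real.log n / n) := by
      rw [← mul_div_assoc, le_div_iff₀ hn0]
      linarith
    linarith
  obtain ⟨hb1, hb2⟩ := hbad
  have hth : th n v t = Complex.exp ((z + τ : ℝ) * Complex.I) := by
    rw [hv, th_eq]
    rw [show (n * (t + β) : ℝ) = (z + τ) + 2 * Real.pi * k by rw [hτ]; ring]
    push_cast
    rw [add_mul ((z : ℂ) + τ), Complex.exp_add]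
    rw [show 2 * (Real.pi : ℂ) * k * Complex.I = k * (2 * Real.pi * Complex.I) by ring,
      Complex.exp_int_mul_two_pi_mul_I, mul_one]
  obtain ⟨h1, h2, -⟩ := hh τ hτ1
  have hpow : (Complex.exp (t * Complex.I) * (P.eval (th n v t) / Q.eval (th n v t))) ^ n =
      ω n * Complex.exp ((τ : ℂ) * Complex.I + n * h τ) := by
    rw [hth, h2, mul_pow, mul_pow, ← Complex.exp_nat_mul (h τ) n]
    have h3 : Complex.exp (t * Complex.I) ^ n = (v⁻¹) ^ n * (e * Complex.exp (τ * Complex.I)) := by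
      have h4 : Complex.exp (t * Complex.I) ^ n * v ^ n = e * Complex.exp (τ * Complex.I) := by
        rw [← mul_pow]
        change th n v t = _
        rw [hth, he, ← Complex.exp_add]
        congr 1
        push_cast
        ring
      rw [← h4, inv_pow]
      field_simp
    rw [h3, hω, Complex.exp_add]
    simp only
    ring
  rw [hpow] at hb2
  exact hb2

/-- The rotations for which the first and the second image are close to the circle. -/
theorem rate_bad {P Q : Polynomial ℂ} (hc : IsCoprime P Q) {D : ℕ} (hP : P.natDegree ≤ D)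
    (hQ : Q.natDegree ≤ D) (h0 : ‖P.coeff 0‖ ≠ ‖Q.coeff 0‖) (hDD : ‖P.coeff D‖ ≠ ‖Q.coeff D‖)
    (hs : ∀ σ, gc P Q σ = 0 → deriv (gc P Q) σ ≠ 0) {K : ℝ} (hK : 0 < K) {v : ℂ} (hv : ‖v‖ = 1)
    {M : ℝ} (hM : 0 ≤ M) :
    Rate fun n => {t : ℝ | |t| ≤ M ∧ Bad P Q (K * (Real.log n / n)) n v t} := by
  obtain ⟨B₁, L₁, hB₁, -, hPB, -⟩ := poly_bound P 1
  obtain ⟨B₂, L₂, hB₂, -, hQB, -⟩ := poly_bound Q 1
  set B : ℝ := B₁ + B₂ with hB
  have hB0 : 0 ≤ B := by positivity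
  obtain ⟨c, hc0, hz⟩ := zeros_near (continuous_gc P Q) (gc_per_int P Q) hs
  set A : ℝ := 2 * B ^ 2 * K / c with hA
  set β : ℝ := Complex.arg v with hβ
  have hvβ : v = Complex.exp (β * Complex.I) := by
    have := Complex.norm_mul_exp_arg_mul_I v
    rw [hv, Complex.ofReal_one, one_mul] at this
    exact this.symm
  have harg4 : ∀ w : ℂ, |Complex.arg w| ≤ 4 := by
    intro w
    have := Complex.abs_arg_le_pi w
    have := Real.pi_le_four
    linarith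
  -- the crossing points
  have hne : ∃ u : ℂ, ‖u‖ = 1 ∧ ‖P.eval u‖ ≠ ‖Q.eval u‖ := by
    by_contra hcon
    push Not at hcon
    have h1 : gc P Q = fun _ => (0 : ℝ) := by
      funext σ
      unfold gc G
      rw [hcon _ (Complex.norm_exp_ofReal_mul_I σ), sub_self]
    have h2 := hs 0 (by rw [h1])
    rw [h1, deriv_const] at h2
    exact h2 rfl
  have hfin : (eqSet P Q).Finite := eqSet_finite hne
  set Z : Set ℝ := Complex.arg '' eqSet P Q with hZ
  have hZfin : Z.Finite := hfin.image _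
  have hZ0 : ∀ z ∈ Z, gc P Q z = 0 := by
    rintro _ ⟨w, ⟨hw1, hw2⟩, rfl⟩
    have h1 := Complex.norm_mul_exp_arg_mul_I w
    rw [hw1, Complex.ofReal_one, one_mul] at h1
    unfold gc G
    rw [h1, hw2, sub_self]
  have h1 : ∀ z ∈ Z, Rate fun n => {t : ℝ | |t| ≤ M ∧ ∃ k : ℤ,
      |n * (n * (t + β) - z - 2 * Real.pi * k)| ≤ A * Real.log n ∧
      Bad P Q (K * (Real.log n / n)) n (Complex.exp (β * Complex.I)) t} := by
    intro z hzZ
    refine rate_one_zero hc hP hQ h0 hDD hs hK (hZ0 z hzZ) ?_ (harg4 v) hM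
    obtain ⟨w, -, rfl⟩ := hzZ
    exact harg4 w
  have h2 := Rate.biUnion hZfin h1
  obtain ⟨n₁, hn₁⟩ := eventually_atTop.1 ((log_div_lt (2 * B ^ 2 * K) hc0).and
    (eventually_ge_atTop 1))
  refine h2.mono (n₁ := n₁) fun n hnn => ?_
  obtain ⟨c1, hn1⟩ := hn₁ n hnn
  rintro t ⟨htM, hbad⟩
  have hn0 : (0 : ℝ) < n := by exact_mod_cast hn1
  have hn1' : (1 : ℝ) ≤ n := by exact_mod_cast hn1
  have hlog0 : 0 ≤ Real.log n := Real.log_nonneg hn1'
  set σ : ℝ := n * (t + β) with hσ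
  have hth : th n v t = Complex.exp (σ * Complex.I) := by
    rw [hvβ, th_eq]
  have hnorm : ‖th n v t‖ ≤ 1 := by
    rw [hth, Complex.norm_exp_ofReal_mul_I]
  have hg := G_of_not_good (B := B) (by positivity : 0 ≤ K * (Real.log n / n))
    ((hPB _ hnorm).trans (by linarith)) ((hQB _ hnorm).trans (by linarith)) hbad.1
  have hgσ : |gc P Q σ| ≤ 2 * B ^ 2 * K * (Real.log n / n) := by
    unfold gc
    rw [← hth]
    linarith
  obtain ⟨σ₁, hσ₁, hdist⟩ := hz σ (hgσ.trans_lt c1)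
  set e₁ : ℂ := Complex.exp (σ₁ * Complex.I) with he₁
  have he₁n : ‖e₁‖ = 1 := Complex.norm_exp_ofReal_mul_I σ₁
  have he₁E : e₁ ∈ eqSet P Q := by
    refine ⟨he₁n, ?_⟩
    have h1 : ‖P.eval e₁‖ ^ 2 - ‖Q.eval e₁‖ ^ 2 = 0 := hσ₁
    exact (pow_left_inj₀ (norm_nonneg _) (norm_nonneg _) two_ne_zero).1 (by linarith)
  have hexp : Complex.exp ((Complex.arg e₁ : ℝ) * Complex.I) = e₁ := by
    have := Complex.norm_mul_exp_arg_mul_I e₁
    rwa [he₁n, Complex.ofReal_one, one_mul] at this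
  rw [he₁, Complex.exp_eq_exp_iff_exists_int] at hexp
  obtain ⟨k, hk⟩ := hexp
  have hk' : σ₁ = Complex.arg e₁ + 2 * Real.pi * (-k : ℤ) := by
    have hI : Complex.I ≠ 0 := Complex.I_ne_zero
    have h5 : ((Complex.arg e₁ : ℝ) : ℂ) = σ₁ + k * (2 * Real.pi) := by
      apply mul_right_cancel₀ hI
      rw [hk]
      ring
    have h6 : Complex.arg e₁ = σ₁ + k * (2 * Real.pi) := by exact_mod_cast h5
    rw [h6]
    push_cast
    ring
  rw [Set.mem_iUnion₂]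
  refine ⟨Complex.arg e₁, ⟨e₁, he₁E, rfl⟩, htM, -k, ?_, hvβ ▸ hbad⟩
  have h7 : n * (t + β) - Complex.arg e₁ - 2 * Real.pi * ((-k : ℤ) : ℝ) = σ - σ₁ := by
    rw [hk', hσ]; ring
  rw [h7, abs_mul, abs_of_pos hn0]
  have h8 : |σ - σ₁| ≤ A * Real.log n / n := by
    refine hdist.trans ?_
    rw [div_le_iff₀ hc0]
    refine hgσ.trans (le_of_eq ?_)
    rw [hA]
    field_simp
  rw [le_div_iff₀ hn0] at h8
  linarith

/-- The rate for the maps. -/
theorem rate_hyp {P Q : Polynomial ℂ} (hc : IsCoprime P Q) {D : ℕ}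
    (hD : D = max P.natDegree Q.natDegree) (hD1 : 1 ≤ D)
    (h0 : ‖P.coeff 0‖ ≠ ‖Q.coeff 0‖) (hDD : ‖P.coeff D‖ ≠ ‖Q.coeff D‖)
    (hs : ∀ σ, gc P Q σ = 0 → deriv (gc P Q) σ ≠ 0) {M : ℝ} (hM : 0 ≤ M) :
    Rate fun n => {t : ℝ | |t| ≤ M ∧
      ¬ Hyp (Polynomial.C (Complex.exp (t * Complex.I)) * Polynomial.expand ℂ n P)
        (Polynomial.expand ℂ n Q)} := by
  have hP : P.natDegree ≤ D := hD ▸ le_max_left _ _
  have hQ : Q.natDegree ≤ D := hD ▸ le_max_right _ _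
  have hw := wro_ne_zero hc (hD ▸ hD1)
  set W : Set ℂ := {y | (wro P Q).eval y = 0 ∧ ‖P.eval y‖ = ‖Q.eval y‖} with hW
  have hWfin : W.Finite := by
    refine (Multiset.toFinset (wro P Q).roots).finite_toSet.subset ?_
    intro y hy
    rw [Finset.mem_coe, Multiset.mem_toFinset, Polynomial.mem_roots hw]
    exact hy.1
  have hcrit : ∀ y ∈ W, Rate fun n => {t : ℝ | |t| ≤ M ∧
      Bad P Q (20 * (Real.log n / n)) n (P.eval y / Q.eval y) t} := by
    rintro y ⟨_, heq⟩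
    have hQy : Q.eval y ≠ 0 := by
      intro h
      rw [h, norm_zero, norm_eq_zero] at heq
      exact (coprime_eval hc y).elim (fun h' => h' heq) (fun h' => h' h)
    have hv : ‖P.eval y / Q.eval y‖ = 1 := by
      rw [norm_div, heq, div_self (norm_ne_zero_iff.2 hQy)]
    exact rate_bad hc hP hQ h0 hDD hs (by norm_num) hv hM
  obtain ⟨n₁, hn₁⟩ := hyp_of_not_bad hc hD hD1 h0 hDD
  refine (Rate.biUnion hWfin hcrit).mono (n₁ := n₁) fun n hn => ?_
  rintro t ⟨htM, hbad⟩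
  by_contra hcon
  rw [Set.mem_iUnion₂] at hcon
  push Not at hcon
  apply hbad
  apply hn₁ n hn
  intro y hy heq hb
  exact hcon y ⟨hy, heq⟩ ⟨htM, hb⟩

end Pool.Agent.TH433.MC
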