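import Pool.Agent.TH433.Weights

set_option autoImplicit false
set_option linter.unusedSectionVars false

namespace Pool.Agent.TH433

open Finset

section

variable {n : ℕ} {C L : Finset (Finset (Fin n))} {a b c : Fin n} {lab lac lbc : Finset (Fin n)}

/-- union of the sides -/
def sides (lab lac lbc : Finset (Fin n)) : Finset (Fin n) := lab ∪ lac ∪ lbc

/-- the union of the three open sides of the triangle -/
def openSides (a b c : Fin n) (lab lac lbc : Finset (Fin n)) : Finset (Fin n) :=
  sides lab lac lbc \ {a, b, c}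

/-- weight 3 at the vertices, 1 on the open sides -/
def w3 (a b c : Fin n) (x : Fin n) : ℤ := if x ∈ ({a, b, c} : Finset (Fin n)) then 3 else 1

theorem sum_w3 (X : Finset (Fin n)) :
    ∑ x ∈ X, w3 a b c x = X.card + 2 * (X ∩ {a, b, c}).card := by
  have h1 : ∀ x ∈ X, w3 a b c x = 1 + (if x ∈ ({a, b, c} : Finset (Fin n)) then 2 else 0) := by
    intro x _
    unfold w3
    split_ifs <;> ring
  rw [Finset.sum_congr rfl h1, Finset.sum_add_distrib, Finset.sum_const, ← Finset.sum_filter,
    Finset.sum_const, Finset.filter_mem_eq_inter]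
  simp
  ring

theorem card_tri (t : Tri L a b c lab lac lbc) : ({a, b, c} : Finset (Fin n)).card = 3 :=
  Finset.card_eq_three.2 ⟨a, b, c, t.nab, t.nac, t.nbc, rfl⟩

theorem tri_sub (t : Tri L a b c lab lac lbc) :
    ({a, b, c} : Finset (Fin n)) ⊆ sides lab lac lbc := by
  intro x hx
  simp only [Finset.mem_insert, Finset.mem_singleton] at hx
  unfold sides
  simp only [Finset.mem_union]
  rcases hx with rfl | rfl | rfl
  · exact Or.inl (Or.inl t.a_ab)
  · exact Or.inl (Or.inl t.b_ab)
  · exact Or.inl (Or.inr t.c_ac)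

theorem sides_ne (t : Tri L a b c lab lac lbc) : lab ≠ lac ∧ lab ≠ lbc ∧ lac ≠ lbc :=
  ⟨fun e => t.c_ab (e ▸ t.c_ac), fun e => t.c_ab (e ▸ t.c_bc), fun e => t.b_ac (e ▸ t.b_bc)⟩

theorem card_sides (hP : IsPlane L 3) (t : Tri L a b c lab lac lbc) :
    (sides lab lac lbc).card = 9 := by
  obtain ⟨h1, h2, h3⟩ := sides_ne t
  have e1 : (lab ∩ lac).card = 1 := hP.inter_card t.hab t.hac h1
  have e2 : (lab ∪ lac).card + (lab ∩ lac).card = lab.card + lac.card :=
    Finset.card_union_add_card_inter lab lac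
  have e3 : ((lab ∪ lac) ∪ lbc).card + ((lab ∪ lac) ∩ lbc).card = (lab ∪ lac).card + lbc.card :=
    Finset.card_union_add_card_inter _ _
  have e4 : (lab ∪ lac) ∩ lbc = {b, c} := by
    ext x
    simp only [Finset.mem_inter, Finset.mem_union, Finset.mem_insert, Finset.mem_singleton]
    constructor
    · rintro ⟨hx | hx, hx'⟩
      · left
        by_contra hne
        exact h2 (hP.uniq lab t.hab lbc t.hbc x b hne hx t.b_ab hx' t.b_bc)
      · right
        by_contra hne
        exact h3 (hP.uniq lac t.hac lbc t.hbc x c hne hx t.c_ac hx' t.c_bc)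
    · rintro (rfl | rfl)
      · exact ⟨Or.inl t.b_ab, t.b_bc⟩
      · exact ⟨Or.inr t.c_ac, t.c_bc⟩
  have e5 : ({b, c} : Finset (Fin n)).card = 2 := Finset.card_pair t.nbc
  rw [e4, e5, hP.card _ t.hbc] at e3
  rw [e1, hP.card _ t.hab, hP.card _ t.hac] at e2
  unfold sides
  omega

theorem card_openSides (hP : IsPlane L 3) (t : Tri L a b c lab lac lbc) :
    (openSides a b c lab lac lbc).card = 6 := by
  unfold openSides
  rw [Finset.card_sdiff_of_subset (tri_sub t), card_sides hP t, card_tri t]

/-- a line inside the union of the sides is a side -/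
theorem line_sub_sides (hP : IsPlane L 3) (t : Tri L a b c lab lac lbc) {l : Finset (Fin n)}
    (hl : l ∈ L) (hs : l ⊆ sides lab lac lbc) : l = lab ∨ l = lac ∨ l = lbc := by
  by_contra hcon
  push Not at hcon
  obtain ⟨h1, h2, h3⟩ := hcon
  have e1 := hP.inter_card hl t.hab h1
  have e2 := hP.inter_card hl t.hac h2
  have e3 := hP.inter_card hl t.hbc h3
  have h4 : l ⊆ (l ∩ lab) ∪ ((l ∩ lac) ∪ (l ∩ lbc)) := by
    intro x hx
    have := hs hx
    unfold sides at this
    simp only [Finset.mem_union, Finset.mem_inter] at this ⊢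
    tauto
  have h5 := Finset.card_le_card h4
  have h6 := Finset.card_union_le (l ∩ lab) ((l ∩ lac) ∪ (l ∩ lbc))
  have h7 := Finset.card_union_le (l ∩ lac) (l ∩ lbc)
  have h8 := hP.card l hl
  omega

theorem w3_line (hP : IsPlane L 3) (t : Tri L a b c lab lac lbc) {l : Finset (Fin n)}
    (hl : l ∈ L) (hs : l ⊆ sides lab lac lbc) : 8 ≤ ∑ x ∈ l, w3 a b c x := by
  rw [sum_w3]
  have h1 : (l.card : ℤ) = 4 := by rw [hP.card l hl]; norm_num
  have h2 : 1 < (l ∩ {a, b, c}).card := by
    rw [Finset.one_lt_card]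
    rcases line_sub_sides hP t hl hs with rfl | rfl | rfl
    · exact ⟨a, by simp [t.a_ab], b, by simp [t.b_ab], t.nab⟩
    · exact ⟨a, by simp [t.a_ac], c, by simp [t.c_ac], t.nac⟩
    · exact ⟨b, by simp [t.b_bc], c, by simp [t.c_bc], t.nbc⟩
  have h3 : (2 : ℤ) ≤ ((l ∩ {a, b, c}).card : ℤ) := by exact_mod_cast h2
  linarith

/-- blocking sets inside the union of the sides have `w3`-weight at least `8`, except for the
union of the open sides -/
theorem w3_blocks (hP : IsPlane L 3) (t : Tri L a b c lab lac lbc) {X : Finset (Fin n)}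
    (hX : Blocks L X) (hs : X ⊆ sides lab lac lbc) (hne : X ≠ openSides a b c lab lac lbc) :
    8 ≤ ∑ x ∈ X, w3 a b c x := by
  by_cases hline : ∃ l ∈ L, l ⊆ X
  · obtain ⟨l, hl, hlX⟩ := hline
    refine le_trans (w3_line hP t hl (hlX.trans hs)) ?_
    exact Finset.sum_le_sum_of_subset_of_nonneg hlX (fun x _ _ => by unfold w3; split_ifs <;> norm_num)
  · push Not at hline
    have hc := hP.blocks_card_ge hX hline (by norm_num)
    rw [sum_w3]
    have h1 : 0 < (X ∩ {a, b, c}).card := by
      by_contra h0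
      have h2 : X ∩ {a, b, c} = ∅ := by
        rw [← Finset.card_eq_zero]; omega
      apply hne
      apply Finset.eq_of_subset_of_card_le
      · intro x hx
        unfold openSides
        rw [Finset.mem_sdiff]
        refine ⟨hs hx, fun hx' => ?_⟩
        have : x ∈ X ∩ {a, b, c} := Finset.mem_inter.2 ⟨hx, hx'⟩
        rw [h2] at this
        exact absurd this (Finset.notMem_empty x)
      · rw [card_openSides hP t]; omega
    have h3 : (1 : ℤ) ≤ ((X ∩ {a, b, c}).card : ℤ) := by exact_mod_cast h1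
    have h4 : (6 : ℤ) ≤ (X.card : ℤ) := by exact_mod_cast hc
    linarith

/-- sets meeting the three sides have at least two points on the sides -/
theorem two_le_sides (hP : IsPlane L 3) (t : Tri L a b c lab lac lbc) {X : Finset (Fin n)}
    (h1 : (X ∩ lab).Nonempty) (h2 : (X ∩ lac).Nonempty) (h3 : (X ∩ lbc).Nonempty) :
    2 ≤ (X ∩ sides lab lac lbc).card := by
  obtain ⟨x, hx⟩ := h1
  obtain ⟨y, hy⟩ := h2
  obtain ⟨z, hz⟩ := h3
  rw [Finset.mem_inter] at hx hy hz
  have hxs : x ∈ X ∩ sides lab lac lbc := by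
    unfold sides; simp only [Finset.mem_inter, Finset.mem_union]; tauto
  have hys : y ∈ X ∩ sides lab lac lbc := by
    unfold sides; simp only [Finset.mem_inter, Finset.mem_union]; tauto
  have hzs : z ∈ X ∩ sides lab lac lbc := by
    unfold sides; simp only [Finset.mem_inter, Finset.mem_union]; tauto
  by_contra hcon
  have h4 : (X ∩ sides lab lac lbc).card ≤ 1 := by omega
  rw [Finset.card_le_one] at h4
  have hxy := h4 x hxs y hys
  have hxz := h4 x hxs z hzs
  subst hxy
  subst hxz
  -- `x` lies on the three sides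
  obtain ⟨e1, e2, e3⟩ := sides_ne t
  by_cases hxa : x = a
  · subst hxa; exact t.a_bc hz.2
  · exact e1 (hP.uniq lab t.hab lac t.hac x a hxa hx.2 t.a_ab hy.2 t.a_ac)

/-- characteristic weight of the union of the sides -/
def v3 (lab lac lbc : Finset (Fin n)) (x : Fin n) : ℤ := if x ∈ sides lab lac lbc then 1 else 0

theorem sum_v3 (X : Finset (Fin n)) :
    ∑ x ∈ X, v3 lab lac lbc x = (X ∩ sides lab lac lbc).card := by
  unfold v3
  rw [Finset.sum_boole, Finset.filter_mem_eq_inter]

theorem dot3 (hP : IsPlane L 3) (t : Tri L a b c lab lac lbc) :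
    ∑ x ∈ sides lab lac lbc, w3 a b c x = 15 := by
  rw [sum_w3, card_sides hP t, Finset.inter_eq_right.2 (tri_sub t), card_tri t]
  norm_num

theorem exists_not_sides (hP : IsPlane L 3) (t : Tri L a b c lab lac lbc) :
    (Finset.univ \ sides lab lac lbc).Nonempty := by
  rw [← Finset.card_pos, Finset.card_sdiff_of_subset (Finset.subset_univ _), card_sides hP t,
    Finset.card_univ, hP.card_points]
  norm_num

/-- The union of the open sides is a member of `C`. -/
theorem open_mem (hP : IsPlane L 3) (hLC : L ⊆ C) (hmin : ∀ S ∈ C, 3 + 1 ≤ S.card)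
    (hC : MinorsIdeal C) (t : Tri L a b c lab lac lbc) : openSides a b c lab lac lbc ∈ C := by
  by_contra hF
  have hblk : ∀ S ∈ C, Blocks L S := fun S hS l hl =>
    line_meets hP (by norm_num) hLC hmin hC hS hl
  have hsub : ∀ S : Finset (Fin n), Disjoint S (Finset.univ \ sides lab lac lbc) →
      S ⊆ sides lab lac lbc := by
    intro S hS x hx
    by_contra hx'
    exact Finset.disjoint_left.1 hS hx (Finset.mem_sdiff.2 ⟨Finset.mem_univ x, hx'⟩)
  have hdis : ∀ S : Finset (Fin n), S ⊆ sides lab lac lbc →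
      Disjoint S (Finset.univ \ sides lab lac lbc) := by
    intro S hS
    rw [Finset.disjoint_left]
    intro x hx hx'
    exact (Finset.mem_sdiff.1 hx').2 (hS hx)
  have key := minor_bound hC (Finset.univ \ sides lab lac lbc) ∅ (by simp)
    (by simpa using exists_not_sides hP t)
    (fun x => if x ∈ sides lab lac lbc then w3 a b c x else 0) (fun _ => 1) 8 2 (by norm_num)
    (fun x => by unfold w3; split_ifs <;> norm_num)
    (fun x hx => by
      have h1 : x ∉ sides lab lac lbc := by simpa using hx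
      rw [if_neg h1])
    (fun S hS hSD => by
      have hSs := hsub S hSD
      have h2 : ∑ x ∈ S, (if x ∈ sides lab lac lbc then w3 a b c x else 0) =
          ∑ x ∈ S, w3 a b c x := Finset.sum_congr rfl (fun x hx => by rw [if_pos (hSs hx)])
      rw [h2]
      exact w3_blocks hP t (hblk S hS) hSs (fun e => hF (e ▸ hS)))
    (fun _ => by norm_num)
    (fun X hXD hX => by
      have hXs : X ⊆ sides lab lac lbc := hsub X (by simpa using hXD)
      have s1 : lab ⊆ sides lab lac lbc := by
        unfold sides; intro x hx; simp [hx]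
      have s2 : lac ⊆ sides lab lac lbc := by
        unfold sides; intro x hx; simp [hx]
      have s3 : lbc ⊆ sides lab lac lbc := by
        unfold sides; intro x hx; simp [hx]
      have h2 := two_le_sides hP t (hX lab (hLC t.hab) (hdis _ s1)) (hX lac (hLC t.hac) (hdis _ s2))
        (hX lbc (hLC t.hbc) (hdis _ s3))
      rw [Finset.inter_eq_left.2 hXs] at h2
      rw [Finset.sum_const, nsmul_eq_mul, mul_one]
      exact_mod_cast h2)
  have h3 : ∑ x, (if x ∈ sides lab lac lbc then w3 a b c x else 0) * 1 = 15 := by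
    rw [← dot3 hP t]
    simp only [mul_one]
    rw [← Finset.sum_filter]
    apply Finset.sum_congr _ (fun _ _ => rfl)
    ext x; simp
  rw [h3] at key
  norm_num at key

/-- The union of the open sides meets all members of `C`. -/
theorem open_meets (hP : IsPlane L 3) (hLC : L ⊆ C) (hmin : ∀ S ∈ C, 3 + 1 ≤ S.card)
    (hC : MinorsIdeal C) (t : Tri L a b c lab lac lbc) {S0 : Finset (Fin n)} (hS0 : S0 ∈ C) :
    (openSides a b c lab lac lbc ∩ S0).Nonempty := by
  by_contra hcon
  have hblk : ∀ S ∈ C, Blocks L S := fun S hS l hl =>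
    line_meets hP (by norm_num) hLC hmin hC hS hl
  have key := minor_bound hC ∅ (Finset.univ \ sides lab lac lbc) (by simp)
    (by simpa using exists_not_sides hP t)
    (v3 lab lac lbc) (w3 a b c) 2 8 (by norm_num)
    (fun x => by unfold v3; split_ifs <;> norm_num)
    (fun x hx => by
      have h1 : x ∉ sides lab lac lbc := by simpa using hx
      unfold v3
      rw [if_neg h1])
    (fun S hS _ => by
      rw [sum_v3]
      have h1 := hblk S hS
      exact_mod_cast two_le_sides hP t (h1 _ t.hab) (h1 _ t.hac) (h1 _ t.hbc))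
    (fun x => by unfold w3; split_ifs <;> norm_num)
    (fun X hXD hX => by
      have hXs : X ⊆ sides lab lac lbc := by
        intro x hx
        by_contra hx'
        refine Finset.disjoint_left.1 hXD hx ?_
        simp [hx']
      refine w3_blocks hP t (fun l hl => hX l (hLC hl) (by simp)) hXs ?_
      rintro rfl
      exact hcon (hX S0 hS0 (by simp)))
  have h3 : ∑ x, v3 lab lac lbc x * w3 a b c x = 15 := by
    rw [← dot3 hP t]
    unfold v3
    simp only [ite_mul, one_mul, zero_mul]
    rw [← Finset.sum_filter]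
    apply Finset.sum_congr _ (fun _ _ => rfl)
    ext x; simp
  rw [h3] at key
  norm_num at key

end

/-- The case of order three. -/
theorem no_three {n : ℕ} {C L : Finset (Finset (Fin n))} (hP : IsPlane L 3)
    (hLC : L ⊆ C) (hmin : ∀ S ∈ C, 3 + 1 ≤ S.card) (hC : MinorsIdeal C) : False := by
  obtain ⟨a, b, c, lab, lac, lbc, t⟩ := hP.exists_tri
  -- the two other points of the side `bc`
  have h1 : ({b, c} : Finset (Fin n)) ⊆ lbc := by
    intro x hx
    simp only [Finset.mem_insert, Finset.mem_singleton] at hx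
    rcases hx with rfl | rfl
    · exact t.b_bc
    · exact t.c_bc
  have h2 : (lbc \ {b, c}).card = 2 := by
    rw [Finset.card_sdiff_of_subset h1, hP.card _ t.hbc, Finset.card_pair t.nbc]
  obtain ⟨g, k, hgk, hgk'⟩ := Finset.card_eq_two.1 h2
  have hg : g ∈ lbc \ {b, c} := by rw [hgk']; simp
  have hk : k ∈ lbc \ {b, c} := by rw [hgk']; simp
  rw [Finset.mem_sdiff] at hg hk
  simp only [Finset.mem_insert, Finset.mem_singleton, not_or] at hg hk
  have hag : a ≠ g := fun e => t.a_bc (e ▸ hg.1)
  have hak : a ≠ k := fun e => t.a_bc (e ▸ hk.1)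
  obtain ⟨lag, hlag, ha1, hg1⟩ := hP.line a g hag
  obtain ⟨lak, hlak, ha2, hk2⟩ := hP.line a k hak
  have t' : Tri L a g k lag lak lbc := by
    refine ⟨hlag, hlak, t.hbc, ha1, hg1, ha2, hk2, hg.1, hk.1, hag, hak, hgk, ?_⟩
    intro l hl hal hgl hkl
    have := hP.uniq l hl lbc t.hbc g k hgk hgl hkl hg.1 hk.1
    exact t.a_bc (this ▸ hal)
  have hmem := open_mem hP hLC hmin hC t'
  obtain ⟨x, hx⟩ := open_meets hP hLC hmin hC t hmem
  rw [Finset.mem_inter] at hx
  unfold openSides sides at hx
  simp only [Finset.mem_sdiff, Finset.mem_union, Finset.mem_insert, Finset.mem_singleton,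
    not_or] at hx
  obtain ⟨⟨hx1, hxa, hxb, hxc⟩, hx2, -, hxg, hxk⟩ := hx
  have hxbc : x ∉ lbc := by
    intro hx'
    have : x ∈ lbc \ {b, c} := by
      rw [Finset.mem_sdiff]; simp [hx', hxb, hxc]
    rw [hgk'] at this
    simp only [Finset.mem_insert, Finset.mem_singleton] at this
    tauto
  -- `g` and `k` are not on `ab`, `ac`
  have off : ∀ y ∈ lbc, y ≠ b → y ≠ c → y ∉ lab ∧ y ∉ lac := by
    intro y hy hyb hyc
    constructor
    · intro hy'
      have := hP.uniq lab t.hab lbc t.hbc y b hyb hy' t.b_ab hy t.b_bc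
      exact t.c_ab (this ▸ t.c_bc)
    · intro hy'
      have := hP.uniq lac t.hac lbc t.hbc y c hyc hy' t.c_ac hy t.c_bc
      exact t.b_ac (this ▸ t.b_bc)
  have hgo := off g hg.1 hg.2.1 hg.2.2
  have hko := off k hk.1 hk.2.1 hk.2.2
  have e1 : lag ≠ lab := fun e => hgo.1 (e ▸ hg1)
  have e2 : lag ≠ lac := fun e => hgo.2 (e ▸ hg1)
  have e3 : lak ≠ lab := fun e => hko.1 (e ▸ hk2)
  have e4 : lak ≠ lac := fun e => hko.2 (e ▸ hk2)
  rcases hx1 with (hx1 | hx1) | hx1
  · rcases hx2 with (hx2 | hx2) | hx2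
    · exact e1 (hP.uniq lag hlag lab t.hab x a hxa hx2 ha1 hx1 t.a_ab)
    · exact e3 (hP.uniq lak hlak lab t.hab x a hxa hx2 ha2 hx1 t.a_ab)
    · exact hxbc hx2
  · rcases hx2 with (hx2 | hx2) | hx2
    · exact e2 (hP.uniq lag hlag lac t.hac x a hxa hx2 ha1 hx1 t.a_ac)
    · exact e4 (hP.uniq lak hlak lac t.hac x a hxa hx2 ha2 hx1 t.a_ac)
    · exact hxbc hx2
  · exact hxbc hx1

end Pool.Agent.TH433
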