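import Pool.Agent.H462R2.AP4

/-!
# Powers: the exceptional exponents in windows
-/

set_option autoImplicit false

open Set Filter Topology

namespace Pool.Agent.TH433.APW

open Pool.Agent.H462R2.AP Pool.Agent.H762R2.Rt

theorem eqSet_card {P Q : Polynomial ℂ} (h : ∃ u : ℂ, ‖u‖ = 1 ∧ ‖P.eval u‖ ≠ ‖Q.eval u‖) :
    (eqSet P Q).ncard ≤ 2 * max P.natDegree Q.natDegree := by
  set D := max P.natDegree Q.natDegree with hD
  set G : Polynomial ℂ :=
    P * (∑ k ∈ Finset.range (D + 1), Polynomial.C ((starRingEnd ℂ) (P.coeff k)) *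
      Polynomial.X ^ (D - k)) -
    Q * (∑ k ∈ Finset.range (D + 1), Polynomial.C ((starRingEnd ℂ) (Q.coeff k)) *
      Polynomial.X ^ (D - k)) with hG
  have hev : ∀ u : ℂ, ‖u‖ = 1 → G.eval u = u ^ D * ((‖P.eval u‖ ^ 2 - ‖Q.eval u‖ ^ 2 : ℝ) : ℂ) := by
    intro u hu
    have h1 : ∀ z : ℂ, z * (starRingEnd ℂ) z = ((‖z‖ ^ 2 : ℝ) : ℂ) := by
      intro z; rw [Complex.mul_conj, Complex.normSq_eq_norm_sq]
    rw [hG, Polynomial.eval_sub, Polynomial.eval_mul, Polynomial.eval_mul,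
      conj_eval (le_max_left _ _) hu, conj_eval (le_max_right _ _) hu]
    push_cast
    have h2 := h1 (P.eval u)
    have h3 := h1 (Q.eval u)
    push_cast at h2 h3
    rw [← h2, ← h3]
    ring
  have hG0 : G ≠ 0 := by
    intro h0
    obtain ⟨u, hu, hne⟩ := h
    have h1 := hev u hu
    rw [h0, Polynomial.eval_zero] at h1
    have hu0 : u ^ D ≠ 0 := by
      apply pow_ne_zero
      intro h; rw [h, norm_zero] at hu; norm_num at hu
    have h2 : ((‖P.eval u‖ ^ 2 - ‖Q.eval u‖ ^ 2 : ℝ) : ℂ) = 0 :=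
      (mul_eq_zero.1 h1.symm).resolve_left hu0
    have h3 : ‖P.eval u‖ ^ 2 = ‖Q.eval u‖ ^ 2 := by
      have : ‖P.eval u‖ ^ 2 - ‖Q.eval u‖ ^ 2 = 0 := by exact_mod_cast h2
      linarith
    exact hne ((pow_left_inj₀ (norm_nonneg _) (norm_nonneg _) two_ne_zero).1 h3)
  have hsub : eqSet P Q ⊆ ↑(Multiset.toFinset G.roots) := by
    rintro u ⟨hu, heq⟩
    rw [Finset.mem_coe, Multiset.mem_toFinset, Polynomial.mem_roots hG0, Polynomial.IsRoot.def,
      hev u hu, heq, sub_self, Complex.ofReal_zero, mul_zero]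
  have hrev : ∀ A : Polynomial ℂ, (∑ k ∈ Finset.range (D + 1),
      Polynomial.C ((starRingEnd ℂ) (A.coeff k)) * Polynomial.X ^ (D - k)).natDegree ≤ D := by
    intro A
    apply Polynomial.natDegree_sum_le_of_forall_le
    intro k _
    exact (Polynomial.natDegree_C_mul_X_pow_le _ _).trans (Nat.sub_le _ _)
  have hdeg : G.natDegree ≤ 2 * D := by
    refine (Polynomial.natDegree_sub_le _ _).trans (max_le ?_ ?_)
    · refine Polynomial.natDegree_mul_le.trans ?_
      have h1 := hrev P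
      have h2 : P.natDegree ≤ D := le_max_left _ _
      omega
    · refine Polynomial.natDegree_mul_le.trans ?_
      have h1 := hrev Q
      have h2 : Q.natDegree ≤ D := le_max_right _ _
      omega
  calc (eqSet P Q).ncard ≤ (↑(Multiset.toFinset G.roots) : Set ℂ).ncard :=
        Set.ncard_le_ncard hsub (Finset.finite_toSet _)
    _ = (Multiset.toFinset G.roots).card := Set.ncard_coe_finset _
    _ ≤ Multiset.card G.roots := Multiset.toFinset_card_le _
    _ ≤ G.natDegree := G.card_roots'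
    _ ≤ 2 * D := hdeg

theorem marks'_card {P Q : Polynomial ℂ} (hc : IsCoprime P Q) {D : ℕ}
    (hD : D = max P.natDegree Q.natDegree) (hD1 : 1 ≤ D) :
    (marks' P Q D).ncard ≤ 2 * D + 1 := by
  have h1 : marks' P Q D ⊆ ↑(marks P Q) := by
    rintro x (hx | ⟨y, hy, rfl⟩)
    · rcases hx with rfl | rfl
      · rw [Finset.mem_coe, marks, Finset.mem_insert]
        left
        rw [Polynomial.coeff_zero_eq_eval_zero, Polynomial.coeff_zero_eq_eval_zero]
      · rw [Finset.mem_coe, marks, Finset.mem_insert, Finset.mem_insert]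
        right; left
        rw [hD]
    · rw [Finset.mem_coe, marks, Finset.mem_insert, Finset.mem_insert, Finset.mem_image]
      right; right
      refine ⟨y, ?_, rfl⟩
      rw [Multiset.mem_toFinset, Polynomial.mem_roots (wro_ne_zero hc (hD ▸ hD1))]
      exact hy
  calc (marks' P Q D).ncard ≤ (↑(marks P Q) : Set (ℂ × ℂ)).ncard :=
        Set.ncard_le_ncard h1 (Finset.finite_toSet _)
    _ = (marks P Q).card := Set.ncard_coe_finset _
    _ ≤ 2 * D + 1 := by rw [hD]; exact card_marks hc (hD ▸ hD1)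

/-- If no marked value is a root of unity and `|P / Q|` is not identically `1` on the unit circle
then in all windows of length `L` far away at most `2 D (2 D + 1)` exponents are exceptional. -/
theorem window_hyp {P Q : Polynomial ℂ} (hc : IsCoprime P Q) {D : ℕ}
    (hD : D = max P.natDegree Q.natDegree) (hD1 : 1 ≤ D)
    (hne : ∃ u : ℂ, ‖u‖ = 1 ∧ ‖P.eval u‖ ≠ ‖Q.eval u‖)
    (hroot : ∀ x ∈ marks' P Q D, ∀ k : ℕ, 0 < k → x.1 ^ k ≠ x.2 ^ k) (L : ℕ) :
    ∃ n₀ : ℕ, ∀ m : ℕ, n₀ ≤ m → ({n : ℕ | m ≤ n ∧ n ≤ m + L ∧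
      ¬ Hyp (Polynomial.expand ℂ n P) (Polynomial.expand ℂ n Q)}).ncard ≤
        (2 * D + 1) * (2 * D) := by
  classical
  have hMfin : (marks' P Q D).Finite := marks'_finite hc (hD ▸ hD1)
  have hFfin : (eqSet P Q).Finite := eqSet_finite hne
  set J : Finset ((ℂ × ℂ) × ℂ) := hMfin.toFinset ×ˢ hFfin.toFinset with hJ
  -- marked values on the circle
  have hcirc : ∀ x ∈ marks' P Q D, ‖x.1‖ = ‖x.2‖ → ‖x.1 / x.2‖ = 1 ∧
      ∀ k : ℕ, 0 < k → (x.1 / x.2) ^ k ≠ 1 := by
    intro x hx heq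
    have hx2 : x.2 ≠ 0 := by
      intro h0
      have h1 : x.1 = 0 := by rw [h0, norm_zero] at heq; exact norm_eq_zero.1 heq
      have := hroot x hx 1 one_pos
      rw [h0, h1] at this
      exact this rfl
    refine ⟨?_, ?_⟩
    · rw [norm_div, heq, div_self (norm_ne_zero_iff.2 hx2)]
    · intro k hk h1
      rw [div_pow, div_eq_one_iff_eq (pow_ne_zero _ hx2)] at h1
      exact hroot x hx k hk h1
  -- a common gap constant
  have hδ : ∃ δ : ℝ, 0 < δ ∧ ∀ x ∈ marks' P Q D, ‖x.1‖ = ‖x.2‖ → ∀ w : ℂ,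
      ∀ n ∈ {n : ℕ | ‖(x.1 / x.2) ^ n - w‖ < δ}, ∀ m ∈ {n : ℕ | ‖(x.1 / x.2) ^ n - w‖ < δ},
      n < m → n + L < m := by
    have hgen : ∀ M : Set (ℂ × ℂ), M.Finite → M ⊆ marks' P Q D →
        ∃ δ : ℝ, 0 < δ ∧ ∀ x ∈ M, ‖x.1‖ = ‖x.2‖ → ∀ w : ℂ,
        ∀ n ∈ {n : ℕ | ‖(x.1 / x.2) ^ n - w‖ < δ}, ∀ m ∈ {n : ℕ | ‖(x.1 / x.2) ^ n - w‖ < δ},
        n < m → n + L < m := by
      intro M hM
      induction M, hM using Set.Finite.induction_on with
      | empty => exact fun _ => ⟨1, one_pos, by simp⟩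
      | @insert a M _ _ ih =>
        intro hsub
        obtain ⟨δ, hδ, h1⟩ := ih fun x hx => hsub (Or.inr hx)
        by_cases hanorm : ‖a.1‖ = ‖a.2‖
        · obtain ⟨h2, h3⟩ := hcirc a (hsub (Or.inl rfl)) hanorm
          obtain ⟨δ', hδ', h4⟩ := gap_of_not_root h2 h3 L
          refine ⟨min δ δ', lt_min hδ hδ', ?_⟩
          rintro x (rfl | hx) hxe w n hn m hm hnm
          · rw [Set.mem_ofPred_eq] at hn hm
            exact h4 w n (hn.trans_le (min_le_right _ _)) m (hm.trans_le (min_le_right _ _)) hnm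
          · rw [Set.mem_ofPred_eq] at hn hm
            exact h1 x hx hxe w n (hn.trans_le (min_le_left _ _)) m
              (hm.trans_le (min_le_left _ _)) hnm
        · refine ⟨δ, hδ, ?_⟩
          rintro x (rfl | hx) hxe
          · exact absurd hxe hanorm
          · exact h1 x hx hxe
    exact hgen _ hMfin Subset.rfl
  obtain ⟨δ, hδ0, hδ⟩ := hδ
  -- the constants
  obtain ⟨η₁, hη₁, hg₁⟩ := good_of_finite (M := {x ∈ marks' P Q D | ‖x.1‖ ≠ ‖x.2‖})
    (hMfin.subset fun x hx => hx.1) (fun x hx => hx.2)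
  have hK : IsCompact {u : ℂ | ‖u‖ = 1 ∧ ∀ w ∈ eqSet P Q, δ ≤ ‖u - w‖} := by
    apply (isCompact_sphere (0 : ℂ) 1).of_isClosed_subset
    · have h1 : {u : ℂ | ‖u‖ = 1 ∧ ∀ w ∈ eqSet P Q, δ ≤ ‖u - w‖} =
          {u : ℂ | ‖u‖ = 1} ∩ ⋂ w ∈ eqSet P Q, {u : ℂ | δ ≤ ‖u - w‖} := by
        ext u; simp
      rw [h1]
      apply (isClosed_eq continuous_norm continuous_const).inter
      apply isClosed_biInter
      intro w _
      exact isClosed_le continuous_const (by fun_prop)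
    · intro u hu
      simpa using hu.1
  obtain ⟨η₂, hη₂, hg₂⟩ := good_of_compact P Q hK (by
    rintro u ⟨hu1, hu2⟩ heq
    have := hu2 u ⟨hu1, heq⟩
    rw [sub_self, norm_zero] at this
    linarith)
  obtain ⟨n₀, hn₀⟩ := hyp_of_cond hc hD hD1 (lt_min hη₁ hη₂)
  refine ⟨n₀, fun m hm => ?_⟩
  set S : (ℂ × ℂ) × ℂ → Set ℕ := fun j =>
    {n | ‖j.1.1‖ = ‖j.1.2‖ ∧ ‖(j.1.1 / j.1.2) ^ n - j.2‖ < δ} with hS
  -- the inclusion
  have hincl : ∀ n, n₀ ≤ n → ¬ Hyp (Polynomial.expand ℂ n P) (Polynomial.expand ℂ n Q) →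
      ∃ j ∈ J, n ∈ S j := by
    intro n hn hbad
    by_contra hcon
    push Not at hcon
    have hcond : ∀ x ∈ marks' P Q D, Cond P Q (min η₁ η₂) n x.1 x.2 := by
      intro x hx
      by_cases heq : ‖x.1‖ = ‖x.2‖
      · right
        refine ⟨heq, ?_⟩
        obtain ⟨h1, -⟩ := hcirc x hx heq
        refine (hg₂ ((x.1 / x.2) ^ n) ⟨by rw [norm_pow, h1, one_pow], ?_⟩).mono (min_le_right _ _)
        intro w hw
        have h2 := hcon (x, w) (Finset.mem_product.2
          ⟨hMfin.mem_toFinset.2 hx, hFfin.mem_toFinset.2 hw⟩)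
        rw [hS, Set.mem_ofPred_eq] at h2
        push Not at h2
        exact h2 heq
      · left
        exact (hg₁ x ⟨hx, heq⟩).mono (min_le_left _ _)
    apply hbad
    apply hn₀ n hn
    · intro i
      cases i
      · rw [cp_false, cp_false]
        exact hcond (P.eval 0, Q.eval 0) (Or.inl (Or.inl rfl))
      · rw [eval_cp_true_zero, eval_cp_true_zero]
        exact hcond (P.coeff D, Q.coeff D) (Or.inl (Or.inr rfl))
    · intro y hy
      exact hcond (P.eval y, Q.eval y) (Or.inr ⟨y, hy, rfl⟩)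
  have h1 : {n : ℕ | m ≤ n ∧ n ≤ m + L ∧
      ¬ Hyp (Polynomial.expand ℂ n P) (Polynomial.expand ℂ n Q)} ⊆
      ↑(J.biUnion fun j => (Finset.Icc m (m + L)).filter (· ∈ S j)) := by
    rintro n ⟨hn1, hn2, hn3⟩
    obtain ⟨j, hj, hnj⟩ := hincl n (hm.trans hn1) hn3
    rw [Finset.mem_coe, Finset.mem_biUnion]
    exact ⟨j, hj, Finset.mem_filter.2 ⟨Finset.mem_Icc.2 ⟨hn1, hn2⟩, hnj⟩⟩
  have h2 := Set.ncard_le_ncard h1 (Finset.finite_toSet _)
  rw [Set.ncard_coe_finset] at h2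
  have h3 : (J.biUnion fun j => (Finset.Icc m (m + L)).filter (· ∈ S j)).card ≤ J.card * 1 := by
    apply Finset.card_biUnion_le_card_mul
    intro j hj
    rw [Finset.card_le_one]
    have hgap := hδ j.1 (hMfin.mem_toFinset.1 (Finset.mem_product.1 hj).1)
    intro a ha b hb
    rw [Finset.mem_filter, Finset.mem_Icc] at ha hb
    rcases lt_trichotomy a b with h | h | h
    · have := hgap ha.2.1 j.2 a ha.2.2 b hb.2.2 h
      omega
    · exact h
    · have := hgap ha.2.1 j.2 b hb.2.2 a ha.2.2 h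
      omega
  have h4 : J.card ≤ (2 * D + 1) * (2 * D) := by
    rw [hJ, Finset.card_product]
    apply Nat.mul_le_mul
    · rw [← Set.ncard_eq_toFinset_card _ hMfin]
      exact marks'_card hc hD hD1
    · rw [← Set.ncard_eq_toFinset_card _ hFfin, hD]
      exact eqSet_card hne
  omega

end Pool.Agent.TH433.APW
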