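import Pool.Agent.TH433.APW

/-!
# Powers: the exceptional exponents in windows, for all multiples outside a countable set
-/

set_option autoImplicit false

open Set Filter Topology

namespace Pool.Agent.TH433.APW

open Pool.Agent.H462R2.AP Pool.Agent.H762R2.Rt

/-- The multiples for which a marked value is a root of unity. -/
def badMult (M : Set (ℂ × ℂ)) : Set ℂ :=
  ⋃ x ∈ M, ⋃ k : ℕ, {s : ℂ | 0 < k ∧ (s * x.1) ^ k = x.2 ^ k}

theorem badMult_countable {M : Set (ℂ × ℂ)} (hM : M.Countable)
    (h0 : ∀ x ∈ M, x.1 ≠ 0 ∨ x.2 ≠ 0) : (badMult M).Countable := by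
  unfold badMult
  refine hM.biUnion fun x hx => Set.countable_iUnion fun k => ?_
  by_cases hk : 0 < k
  · by_cases hx1 : x.1 = 0
    · have hx2 : x.2 ≠ 0 := (h0 x hx).resolve_left (fun h => h hx1)
      have : {s : ℂ | 0 < k ∧ (s * x.1) ^ k = x.2 ^ k} = ∅ := by
        ext s
        simp only [Set.mem_ofPred_eq, Set.mem_empty_iff_false, iff_false, not_and]
        intro _ h
        rw [hx1, mul_zero, zero_pow hk.ne'] at h
        exact hx2 (pow_eq_zero_iff hk.ne' |>.1 h.symm)
      rw [this]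
      exact Set.countable_empty
    · have hsub : {s : ℂ | 0 < k ∧ (s * x.1) ^ k = x.2 ^ k} ⊆
          ↑(Multiset.toFinset (Polynomial.X ^ k - Polynomial.C ((x.2 / x.1) ^ k)).roots) := by
        rintro s ⟨_, h⟩
        have hne : (Polynomial.X ^ k - Polynomial.C ((x.2 / x.1) ^ k) : Polynomial ℂ) ≠ 0 :=
          Polynomial.X_pow_sub_C_ne_zero hk _
        rw [Finset.mem_coe, Multiset.mem_toFinset, Polynomial.mem_roots hne,
          Polynomial.IsRoot.def, Polynomial.eval_sub, Polynomial.eval_pow, Polynomial.eval_X,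
          Polynomial.eval_C, sub_eq_zero, div_pow, eq_div_iff (pow_ne_zero _ hx1), ← mul_pow]
        exact h
      exact (Finset.finite_toSet _).countable.mono hsub
  · have : {s : ℂ | 0 < k ∧ (s * x.1) ^ k = x.2 ^ k} = ∅ := by
      ext s
      simp [hk]
    rw [this]
    exact Set.countable_empty

theorem marks'_ne {P Q : Polynomial ℂ} (hc : IsCoprime P Q) {D : ℕ}
    (hD : D = max P.natDegree Q.natDegree) (hD1 : 1 ≤ D) :
    ∀ x ∈ marks' P Q D, x.1 ≠ 0 ∨ x.2 ≠ 0 := by
  rintro x (hx | ⟨y, hy, rfl⟩)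
  · rcases hx with rfl | rfl
    · exact coprime_eval hc 0
    · have hmax : max P.natDegree Q.natDegree = P.natDegree ∨
          max P.natDegree Q.natDegree = Q.natDegree := max_choice _ _
      rcases hmax with h | h
      · left
        have hDP : D = P.natDegree := hD.trans h
        change P.coeff D ≠ 0
        rw [hDP]
        apply Polynomial.leadingCoeff_ne_zero.2
        rintro rfl
        simp at hDP
        omega
      · right
        have hDQ : D = Q.natDegree := hD.trans h
        change Q.coeff D ≠ 0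
        rw [hDQ]
        apply Polynomial.leadingCoeff_ne_zero.2
        rintro rfl
        simp at hDQ
        omega
  · exact coprime_eval hc y

theorem wro_smul (P Q : Polynomial ℂ) (s : ℂ) :
    wro (Polynomial.C s * P) Q = Polynomial.C s * wro P Q := by
  unfold wro
  rw [Polynomial.derivative_C_mul]
  ring

theorem window_smul {P Q : Polynomial ℂ} (hc : IsCoprime P Q) {D : ℕ}
    (hD : D = max P.natDegree Q.natDegree) (hD1 : 1 ≤ D) {s : ℂ} (hs0 : s ≠ 0)
    (hs : s ∉ badMult (marks' P Q D))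
    (hne : ∃ u : ℂ, ‖u‖ = 1 ∧ ‖s * P.eval u‖ ≠ ‖Q.eval u‖) (L : ℕ) :
    ∃ n₀ : ℕ, ∀ m : ℕ, n₀ ≤ m → ({n : ℕ | m ≤ n ∧ n ≤ m + L ∧
      ¬ Hyp (Polynomial.C s * Polynomial.expand ℂ n P) (Polynomial.expand ℂ n Q)}).ncard ≤
        (2 * D + 1) * (2 * D) := by
  have hcs : IsCoprime (Polynomial.C s * P) Q := by
    have h1 := coprime_family hc hs0 1
    rwa [Polynomial.expand_one, Polynomial.expand_one] at h1
  have hDs : D = max (Polynomial.C s * P).natDegree Q.natDegree := by
    rw [Polynomial.natDegree_C_mul hs0, hD]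
  obtain ⟨n₀, h⟩ := window_hyp hcs hDs hD1 (by
    obtain ⟨u, hu, h⟩ := hne
    exact ⟨u, hu, by rwa [Polynomial.eval_mul, Polynomial.eval_C]⟩) (by
    have hgen : ∀ x ∈ marks' P Q D, ∀ k : ℕ, 0 < k → (s * x.1) ^ k ≠ x.2 ^ k := by
      intro x hx k hk h
      apply hs
      unfold badMult
      rw [Set.mem_iUnion₂]
      exact ⟨x, hx, Set.mem_iUnion.2 ⟨k, hk, h⟩⟩
    rintro x (hx | ⟨y, hy, rfl⟩) k hk
    · rcases hx with rfl | rfl
      · have := hgen (P.eval 0, Q.eval 0) (Or.inl (Or.inl rfl)) k hk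
        simpa only [Polynomial.eval_mul, Polynomial.eval_C] using this
      · have := hgen (P.coeff D, Q.coeff D) (Or.inl (Or.inr rfl)) k hk
        simpa only [Polynomial.coeff_C_mul] using this
    · rw [Set.mem_ofPred_eq, wro_smul, Polynomial.eval_mul, Polynomial.eval_C, mul_eq_zero] at hy
      have := hgen (P.eval y, Q.eval y) (Or.inr ⟨y, hy.resolve_left hs0, rfl⟩) k hk
      simpa only [Polynomial.eval_mul, Polynomial.eval_C] using this) L
  refine ⟨n₀, fun m hm => ?_⟩
  have h1 := h m hm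
  have h2 : ∀ n : ℕ, Polynomial.expand ℂ n (Polynomial.C s * P) =
      Polynomial.C s * Polynomial.expand ℂ n P := by
    intro n
    rw [map_mul, Polynomial.expand_C]
  simp only [h2] at h1
  exact h1

end Pool.Agent.TH433.APW
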