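import Mathlib

set_option autoImplicit false

namespace Pool.Agent.TH433

open Finset

/-- If all extreme points of the polyhedron `{x ≥ 0, x = 0 on Z, x(S) ≥ 1 (S ∈ D)}` are integral
then, for `v` feasible up to the factor `a` and positive weights `w` giving weight at least `d` to
each cover of `D` avoiding `Z`, one has `a * d ≤ v ⬝ w`. -/
theorem lp_bound {n : ℕ} (D : Finset (Finset (Fin n))) (Z : Finset (Fin n))
    (hid : ∀ x ∈ Set.extremePoints ℝ
      {x : Fin n → ℝ | (∀ i, 0 ≤ x i) ∧ (∀ i ∈ Z, x i = 0) ∧ ∀ S ∈ D, (1 : ℝ) ≤ ∑ i ∈ S, x i},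
      ∀ i : Fin n, ∃ z : ℤ, x i = (z : ℝ))
    (v w : Fin n → ℝ) (a d : ℝ) (ha : 0 < a) (hv : ∀ i, 0 ≤ v i) (hvZ : ∀ i ∈ Z, v i = 0)
    (hvS : ∀ S ∈ D, a ≤ ∑ i ∈ S, v i) (hw : ∀ i, 0 < w i)
    (hwb : ∀ b : Finset (Fin n), Disjoint b Z → (∀ S ∈ D, (b ∩ S).Nonempty) → d ≤ ∑ i ∈ b, w i) :
    a * d ≤ ∑ i, v i * w i := by
  classical
  set P : Set (Fin n → ℝ) :=
    {x : Fin n → ℝ | (∀ i, 0 ≤ x i) ∧ (∀ i ∈ Z, x i = 0) ∧ ∀ S ∈ D, (1 : ℝ) ≤ ∑ i ∈ S, x i} with hP
  let f : (Fin n → ℝ) → ℝ := fun x => ∑ i, x i * w i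
  have hfc : Continuous f := by
    apply continuous_finsetSum
    intro i _
    exact (continuous_apply i).mul continuous_const
  -- the normalized feasible point
  let v' : Fin n → ℝ := fun i => v i / a
  have hv'P : v' ∈ P := by
    refine ⟨fun i => div_nonneg (hv i) ha.le, fun i hi => ?_, fun S hS => ?_⟩
    · change v i / a = 0
      rw [hvZ i hi, zero_div]
    · have h1 := hvS S hS
      change (1 : ℝ) ≤ ∑ i ∈ S, v i / a
      rw [← Finset.sum_div, le_div_iff₀ ha]
      linarith
  have hfv' : f v' = (∑ i, v i * w i) / a := by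
    change ∑ i, v i / a * w i = _
    rw [Finset.sum_div]
    apply Finset.sum_congr rfl
    intro i _
    ring
  have hclosed : IsClosed P := by
    have h1 : P = (⋂ i, {x : Fin n → ℝ | 0 ≤ x i}) ∩ ((⋂ i ∈ Z, {x : Fin n → ℝ | x i = 0}) ∩
        ⋂ S ∈ D, {x : Fin n → ℝ | (1 : ℝ) ≤ ∑ i ∈ S, x i}) := by
      ext x
      simp [hP]
    rw [h1]
    refine (isClosed_iInter fun i => isClosed_le continuous_const (continuous_apply i)).inter
      ((isClosed_biInter fun i _ => isClosed_eq (continuous_apply i) continuous_const).inter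
        (isClosed_biInter fun S _ => isClosed_le continuous_const ?_))
    exact continuous_finsetSum _ fun i _ => continuous_apply i
  -- sublevel set is compact
  let K : Set (Fin n → ℝ) := P ∩ {x | f x ≤ f v'}
  have hKc : IsCompact K := by
    refine Metric.isCompact_of_isClosed_isBounded
      (hclosed.inter (isClosed_le hfc continuous_const)) ?_
    refine (isCompact_Icc (a := (fun _ => 0 : Fin n → ℝ)) (b := fun i => f v' / w i)).isBounded.subset ?_
    rintro x ⟨hxP, hxf⟩
    refine ⟨fun i => hxP.1 i, fun i => ?_⟩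
    change x i ≤ f v' / w i
    rw [le_div_iff₀ (hw i)]
    refine le_trans ?_ hxf
    exact Finset.single_le_sum (f := fun i => x i * w i)
      (fun j _ => mul_nonneg (hxP.1 j) (hw j).le) (Finset.mem_univ i)
  have hKne : K.Nonempty := ⟨v', hv'P, show f v' ≤ f v' from le_rfl⟩
  obtain ⟨x0, hx0K, hx0⟩ := hKc.exists_isMinOn hKne hfc.continuousOn
  have hmin : ∀ x ∈ P, f x0 ≤ f x := by
    intro x hx
    by_cases hxv : f x ≤ f v'
    · exact hx0 ⟨hx, hxv⟩
    · have : f x0 ≤ f v' := hx0K.2
      linarith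
  -- minimizers
  let M : Set (Fin n → ℝ) := P ∩ {x | f x = f x0}
  have hMK : M ⊆ K := by
    rintro x ⟨hxP, hxf⟩
    refine ⟨hxP, ?_⟩
    have h1 : f x = f x0 := hxf
    have h2 : f x0 ≤ f v' := hx0K.2
    change f x ≤ f v'
    linarith
  have hMc : IsCompact M := by
    refine hKc.of_isClosed_subset (hclosed.inter (isClosed_eq hfc continuous_const)) hMK
  have hMne : M.Nonempty := ⟨x0, hx0K.1, rfl⟩
  obtain ⟨e, he⟩ := hMc.extremePoints_nonempty hMne
  have heM : e ∈ M := he.1
  have flin : ∀ (s t : ℝ) (x y : Fin n → ℝ), f (s • x + t • y) = s * f x + t * f y := by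
    intro s t x y
    simp only [f, Pi.add_apply, Pi.smul_apply, smul_eq_mul, Finset.mul_sum]
    rw [← Finset.sum_add_distrib]
    apply Finset.sum_congr rfl
    intro i _
    ring
  have heP : e ∈ Set.extremePoints ℝ P := by
    refine ⟨heM.1, ?_⟩
    intro x hx y hy hxy
    have hxM : x ∈ M ∧ y ∈ M := by
      obtain ⟨s, t, hs, ht, hst, hexy⟩ := hxy
      have h1 : f e = s * f x + t * f y := by rw [← hexy, flin]
      have h2 : f e = f x0 := heM.2
      have h3 := hmin x hx
      have h4 := hmin y hy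
      have h5 : s * (f x - f x0) + t * (f y - f x0) = 0 := by
        have : s * f x0 + t * f x0 = f x0 := by rw [← add_mul, hst, one_mul]
        linarith
      have h6 : 0 ≤ s * (f x - f x0) := mul_nonneg hs.le (by linarith)
      have h7 : 0 ≤ t * (f y - f x0) := mul_nonneg ht.le (by linarith)
      have h8 : s * (f x - f x0) = 0 := by linarith
      have h9 : t * (f y - f x0) = 0 := by linarith
      have h10 : f x - f x0 = 0 := by
        rcases mul_eq_zero.1 h8 with h | h
        · exact absurd h hs.ne'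
        · exact h
      have h11 : f y - f x0 = 0 := by
        rcases mul_eq_zero.1 h9 with h | h
        · exact absurd h ht.ne'
        · exact h
      exact ⟨⟨hx, by change f x = f x0; linarith⟩, ⟨hy, by change f y = f x0; linarith⟩⟩
    exact he.2 hxM.1 hxM.2 hxy
  have hint := hid e heP
  -- the support
  let b : Finset (Fin n) := Finset.univ.filter (fun i => e i ≠ 0)
  have hone : ∀ i ∈ b, 1 ≤ e i := by
    intro i hi
    have h1 : e i ≠ 0 := (Finset.mem_filter.1 hi).2
    obtain ⟨z, hz⟩ := hint i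
    have h2 : 0 ≤ e i := heM.1.1 i
    have h3 : 0 < e i := lt_of_le_of_ne h2 (Ne.symm h1)
    rw [hz] at h3 ⊢
    have h4 : (0 : ℤ) < z := by exact_mod_cast h3
    exact_mod_cast h4
  have hbZ : Disjoint b Z := by
    rw [Finset.disjoint_left]
    intro i hi hiZ
    exact (Finset.mem_filter.1 hi).2 (heM.1.2.1 i hiZ)
  have hbS : ∀ S ∈ D, (b ∩ S).Nonempty := by
    intro S hS
    by_contra hcon
    rw [Finset.not_nonempty_iff_eq_empty] at hcon
    have h1 := heM.1.2.2 S hS
    have h2 : ∑ i ∈ S, e i = 0 := by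
      apply Finset.sum_eq_zero
      intro i hi
      by_contra hne
      have : i ∈ b ∩ S := Finset.mem_inter.2 ⟨Finset.mem_filter.2 ⟨Finset.mem_univ _, hne⟩, hi⟩
      rw [hcon] at this
      exact absurd this (Finset.notMem_empty i)
    linarith
  have h1 := hwb b hbZ hbS
  have h2 : ∑ i ∈ b, w i ≤ f e := by
    calc ∑ i ∈ b, w i ≤ ∑ i ∈ b, e i * w i := by
          apply Finset.sum_le_sum
          intro i hi
          have := hone i hi
          have := hw i
          nlinarith
      _ ≤ ∑ i, e i * w i := by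
          apply Finset.sum_le_sum_of_subset_of_nonneg (Finset.subset_univ _)
          intro i _ _
          exact mul_nonneg (heM.1.1 i) (hw i).le
  have h3 : f e ≤ f v' := by
    have h4 : f e = f x0 := heM.2
    have h5 : f x0 ≤ f v' := hx0K.2
    linarith
  have h4 : d ≤ (∑ i, v i * w i) / a := by
    rw [← hfv']; linarith
  rw [le_div_iff₀ ha] at h4
  linarith

end Pool.Agent.TH433
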