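import Pool.Agent.TH433.Plane
import Pool.Agent.TH433.LPIdeal

set_option autoImplicit false
set_option linter.unusedSectionVars false

namespace Pool.Agent.TH433

open Finset

/-- The minor hypothesis: every proper minor of `C` is ideal. -/
def MinorsIdeal {n : ℕ} (C : Finset (Finset (Fin n))) : Prop :=
  ∀ I J : Finset (Fin n), Disjoint I J → (I ∪ J).Nonempty →
    ∀ x ∈ Set.extremePoints ℝ
        {x : Fin n → ℝ | (∀ i, 0 ≤ x i) ∧ (∀ i ∈ I ∪ J, x i = 0) ∧
          ∀ S ∈ C, Disjoint S I → (1 : ℝ) ≤ ∑ i ∈ S, x i},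
      ∀ i : Fin n, ∃ z : ℤ, x i = (z : ℝ)

/-- LP bound for minors with integer data. -/
theorem minor_bound {n : ℕ} {C : Finset (Finset (Fin n))} (hC : MinorsIdeal C)
    (I J : Finset (Fin n)) (hIJ : Disjoint I J) (hne : (I ∪ J).Nonempty)
    (v w : Fin n → ℤ) (a d : ℤ) (ha : 0 < a) (hv : ∀ i, 0 ≤ v i) (hvZ : ∀ i ∈ I ∪ J, v i = 0)
    (hvS : ∀ S ∈ C, Disjoint S I → a ≤ ∑ i ∈ S, v i) (hw : ∀ i, 0 < w i)
    (hwb : ∀ b : Finset (Fin n), Disjoint b (I ∪ J) →
      (∀ S ∈ C, Disjoint S I → (b ∩ S).Nonempty) → d ≤ ∑ i ∈ b, w i) :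
    a * d ≤ ∑ i, v i * w i := by
  classical
  have h := lp_bound (C.filter (fun S => Disjoint S I)) (I ∪ J) (by
      have h1 := hC I J hIJ hne
      have h2 : {x : Fin n → ℝ | (∀ i, 0 ≤ x i) ∧ (∀ i ∈ I ∪ J, x i = 0) ∧
          ∀ S ∈ C.filter (fun S => Disjoint S I), (1 : ℝ) ≤ ∑ i ∈ S, x i} =
          {x : Fin n → ℝ | (∀ i, 0 ≤ x i) ∧ (∀ i ∈ I ∪ J, x i = 0) ∧
          ∀ S ∈ C, Disjoint S I → (1 : ℝ) ≤ ∑ i ∈ S, x i} := by
        ext x
        simp only [Set.mem_ofPred_eq, Finset.mem_filter, and_imp]
      rw [h2]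
      exact h1)
    (fun i => (v i : ℝ)) (fun i => (w i : ℝ)) (a : ℝ) (d : ℝ) (by exact_mod_cast ha)
    (fun i => by exact_mod_cast hv i) (fun i hi => by exact_mod_cast hvZ i hi)
    (fun S hS => by
      rw [Finset.mem_filter] at hS
      exact_mod_cast hvS S hS.1 hS.2)
    (fun i => by exact_mod_cast hw i)
    (fun b hb hbS => by
      exact_mod_cast hwb b hb (fun S hS hSI => hbS S (Finset.mem_filter.2 ⟨hS, hSI⟩)))
  exact_mod_cast h

section

variable {n : ℕ} {C L : Finset (Finset (Fin n))} {q : ℕ}

/-- Every line meets every member of `C`. -/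
theorem line_meets (hP : IsPlane L q) (hq : 2 ≤ q) (hLC : L ⊆ C)
    (hmin : ∀ S ∈ C, q + 1 ≤ S.card) (hC : MinorsIdeal C) {c l : Finset (Fin n)} (hc : c ∈ C)
    (hl : l ∈ L) : (c ∩ l).Nonempty := by
  by_contra hcon
  rw [Finset.not_nonempty_iff_eq_empty] at hcon
  have hlc : 0 < l.card := by rw [hP.card l hl]; omega
  obtain ⟨p, hpl⟩ := Finset.card_pos.1 hlc
  have hpc : p ∉ c := fun h => by
    have : p ∈ c ∩ l := Finset.mem_inter.2 ⟨h, hpl⟩
    rw [hcon] at this
    exact absurd this (Finset.notMem_empty p)
  have hcard := hP.card_points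
  rw [Fintype.card_fin] at hcard
  have key := minor_bound hC {p} ∅ (by simp) (by simp)
    (fun i => if i = p then 0 else 1) (fun i => if i ∈ l then (q : ℤ) - 1 else q)
    ((q : ℤ) + 1) ((q : ℤ) * q) (by positivity)
    (fun i => by split_ifs <;> norm_num)
    (fun i hi => by
      have : i = p := by simpa using hi
      simp [this])
    (fun S hS hSp => by
      have h1 : p ∉ S := by simpa using hSp
      have h2 : ∑ i ∈ S, (if i = p then (0 : ℤ) else 1) = S.card := by
        have h3 : ∀ i ∈ S, (if i = p then (0 : ℤ) else 1) = 1 := by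
          intro i hi
          have h4 : i ≠ p := by rintro rfl; exact h1 hi
          rw [if_neg h4]
        rw [Finset.sum_congr rfl h3]
        simp
      rw [h2]
      exact_mod_cast hmin S hS)
    (fun i => by split_ifs <;> omega)
    (fun b hb hbS => by
      have hpb : p ∉ b := by simpa using hb
      have hsum : ∑ i ∈ b, (if i ∈ l then (q : ℤ) - 1 else q) = q * b.card - (b ∩ l).card := by
        have h1 : ∀ i ∈ b, (if i ∈ l then (q : ℤ) - 1 else q) = q - (if i ∈ l then 1 else 0) := by
          intro i _; split_ifs <;> ring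
        rw [Finset.sum_congr rfl h1, Finset.sum_sub_distrib, Finset.sum_const, nsmul_eq_mul,
          Finset.sum_boole, Finset.filter_mem_eq_inter]
        ring
      rw [hsum]
      have hbl : (b ∩ l).card ≤ q := by
        have h1 : b ∩ l ⊆ l.erase p := by
          intro x hx
          rw [Finset.mem_inter] at hx
          exact Finset.mem_erase.2 ⟨fun h => hpb (h ▸ hx.1), hx.2⟩
        have h2 := Finset.card_le_card h1
        rw [Finset.card_erase_of_mem hpl, hP.card l hl] at h2
        omega
      by_cases hbig : q + 1 ≤ b.card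
      · have h1 : (q : ℤ) * (q + 1) ≤ q * b.card := by
          have : ((q + 1 : ℕ) : ℤ) ≤ b.card := by exact_mod_cast hbig
          push_cast at this
          nlinarith
        have h2 : ((b ∩ l).card : ℤ) ≤ q := by exact_mod_cast hbl
        nlinarith
      · push Not at hbig
        -- `b ∪ {p}` is a blocking set with at most `q+1` points
        have hblk : Blocks L (insert p b) := by
          intro m hm
          by_cases hpm : p ∈ m
          · exact ⟨p, Finset.mem_inter.2 ⟨Finset.mem_insert_self _ _, hpm⟩⟩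
          · obtain ⟨x, hx⟩ := hbS m (hLC hm) (by simpa using hpm)
            rw [Finset.mem_inter] at hx
            exact ⟨x, Finset.mem_inter.2 ⟨Finset.mem_insert_of_mem hx.1, hx.2⟩⟩
        have hcardX : (insert p b).card = b.card + 1 := Finset.card_insert_of_notMem hpb
        have hex : ∃ m ∈ L, m ⊆ insert p b := by
          by_contra hno
          push Not at hno
          have := hP.blocks_card_ge hblk hno hq
          omega
        obtain ⟨m, hm, hmX⟩ := hex
        have h3 : m = insert p b := by
          apply Finset.eq_of_subset_of_card_le hmX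
          rw [hcardX, hP.card m hm]; omega
        have h4 : b.card = q := by
          have h5 := hP.card m hm
          rw [h3, hcardX] at h5
          omega
        have hml : m ≠ l := by
          rintro rfl
          obtain ⟨x, hx⟩ := hbS c hc (by simpa using hpc)
          rw [Finset.mem_inter] at hx
          have : x ∈ c ∩ m := Finset.mem_inter.2 ⟨hx.2, by rw [h3]; exact Finset.mem_insert_of_mem hx.1⟩
          rw [hcon] at this
          exact absurd this (Finset.notMem_empty x)
        have h6 : (b ∩ l).card = 0 := by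
          rw [Finset.card_eq_zero, Finset.eq_empty_iff_forall_notMem]
          intro x hx
          rw [Finset.mem_inter] at hx
          have hxm : x ∈ m := by rw [h3]; exact Finset.mem_insert_of_mem hx.1
          have hpm : p ∈ m := by rw [h3]; exact Finset.mem_insert_self _ _
          exact hml (hP.uniq m hm l hl p x (fun h => hpb (h ▸ hx.1)) hpm hxm hpl hx.2)
        rw [h6, h4]
        push_cast
        linarith)
  have hs : ∑ i : Fin n, (if i = p then (0 : ℤ) else 1) * (if i ∈ l then (q : ℤ) - 1 else q)
      = q * (n - 1) - q := by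
    have h1 : ∀ i : Fin n, (if i = p then (0 : ℤ) else 1) * (if i ∈ l then (q : ℤ) - 1 else q)
        = q - (if i ∈ l then 1 else 0) - (if i = p then (q : ℤ) - 1 else 0) := by
      intro i
      by_cases hip : i = p
      · subst hip; simp [hpl]
      · by_cases hil : i ∈ l <;> simp [hip, hil]
    rw [Finset.sum_congr rfl (fun i _ => h1 i), Finset.sum_sub_distrib, Finset.sum_sub_distrib,
      Finset.sum_const, Finset.sum_boole, Finset.sum_ite_eq']
    have h2 : (Finset.univ.filter (fun i => i ∈ l)).card = q + 1 := by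
      rw [← hP.card l hl]; congr 1; ext x; simp
    rw [h2]
    simp
    ring
  rw [hs, hcard] at key
  push_cast at key
  nlinarith

end

end Pool.Agent.TH433
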