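import Mathlib

/-!
# Sublevel sets of functions with a large derivative of some order
-/

set_option autoImplicit false

open Set MeasureTheory

namespace Pool.Agent.TH433.MC

/-- A chain of derivatives. -/
def Chain (F : ℕ → ℝ → ℝ) : Prop := ∀ j x, HasDerivAt (F j) (F (j + 1) x) x

theorem Chain.neg {F : ℕ → ℝ → ℝ} (h : Chain F) : Chain (fun j x => - F j x) :=
  fun j x => (h j x).neg

theorem vol_diam {T : Set ℝ} {d : ℝ} (h : ∀ x ∈ T, ∀ y ∈ T, |x - y| ≤ d) :
    volume T ≤ ENNReal.ofReal (2 * d) := by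
  rcases T.eq_empty_or_nonempty with rfl | ⟨x₀, hx₀⟩
  · simp
  · have hsub : T ⊆ Icc (x₀ - d) (x₀ + d) := by
      intro y hy
      have := abs_le.1 (h x₀ hx₀ y hy)
      exact ⟨by linarith, by linarith⟩
    refine (measure_mono hsub).trans (le_of_eq ?_)
    rw [Real.volume_Icc]
    congr 1
    ring

theorem slope_large {f f' : ℝ → ℝ} {S : Set ℝ} (hS : S.OrdConnected) {c ε : ℝ} (hc : 0 < c)
    (hf : ∀ x, HasDerivAt f (f' x) x) (h : ∀ x ∈ S, c ≤ |f' x|) :
    volume {x | x ∈ S ∧ |f x| ≤ ε} ≤ ENNReal.ofReal (4 * (ε / c)) := by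
  have key : ∀ x ∈ {x | x ∈ S ∧ |f x| ≤ ε}, ∀ y ∈ {x | x ∈ S ∧ |f x| ≤ ε}, x < y →
      y - x ≤ 2 * ε / c := by
    rintro x ⟨hx, hfx⟩ y ⟨hy, hfy⟩ hxy
    obtain ⟨z, hz, hzz⟩ := exists_hasDerivAt_eq_slope f f' hxy
      (fun w _ => (hf w).continuousAt.continuousWithinAt) (fun w _ => hf w)
    have hzS : z ∈ S := hS.out hx hy ⟨hz.1.le, hz.2.le⟩
    have h1 := h z hzS
    rw [hzz, abs_div, abs_of_pos (sub_pos.2 hxy), le_div_iff₀ (sub_pos.2 hxy)] at h1
    rw [le_div_iff₀ hc]
    have h2 : |f y - f x| ≤ 2 * ε := by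
      have := abs_sub (f y) (f x)
      have h3 := abs_le.1 hfx
      have h4 := abs_le.1 hfy
      rw [abs_le]
      constructor <;> linarith
    linarith
  refine (vol_diam (d := 2 * ε / c) ?_).trans (le_of_eq ?_)
  · intro x hx y hy
    rcases lt_trichotomy x y with hxy | hxy | hxy
    · rw [abs_sub_comm, abs_of_pos (sub_pos.2 hxy)]
      exact key x hx y hy hxy
    · have hε : 0 ≤ ε := (abs_nonneg _).trans hx.2
      rw [hxy, sub_self, abs_zero]
      positivity
    · rw [abs_of_pos (sub_pos.2 hxy)]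
      exact key y hy x hx hxy
  · congr 1
    ring

theorem chain_mono {F : ℕ → ℝ → ℝ} (hF : Chain F) {k : ℕ} {S : Set ℝ} (hS : S.OrdConnected)
    {c : ℝ} (hc : 0 < c) (h : ∀ x ∈ S, c ≤ F (k + 1) x) :
    ∀ x ∈ S, ∀ y ∈ S, x ≤ y → F k x ≤ F k y := by
  intro x hx y hy hxy
  rcases hxy.eq_or_lt with rfl | hlt
  · exact le_rfl
  · obtain ⟨z, hz, hzz⟩ := exists_hasDerivAt_eq_slope (F k) (F (k + 1)) hlt
      (fun w _ => (hF k w).continuousAt.continuousWithinAt) (fun w _ => hF k w)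
    have h1 := h z (hS.out hx hy ⟨hz.1.le, hz.2.le⟩)
    rw [hzz, le_div_iff₀ (sub_pos.2 hlt)] at h1
    nlinarith [mul_pos hc (sub_pos.2 hlt)]

/-- The sublevel estimate of van der Corput type. -/
theorem vdc (k : ℕ) : ∃ C : ℝ, 0 < C ∧ ∀ F : ℕ → ℝ → ℝ, Chain F → ∀ S : Set ℝ, S.OrdConnected →
    ∀ c ε : ℝ, 0 < c → 0 < ε → ((∀ x ∈ S, c ≤ F (k + 1) x) ∨ (∀ x ∈ S, F (k + 1) x ≤ -c)) →
      volume {x | x ∈ S ∧ |F 0 x| ≤ ε} ≤
        ENNReal.ofReal (C * (ε / c) ^ ((1 : ℝ) / ((k : ℝ) + 1))) := by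
  induction k with
  | zero =>
    refine ⟨4, by norm_num, ?_⟩
    intro F hF S hS c ε hc hε h
    have h1 := slope_large (ε := ε) hS hc (hF 0) (by
      intro x hx
      rcases h with h | h
      · exact (h x hx).trans (le_abs_self _)
      · have := h x hx
        exact (by linarith : c ≤ -F (0 + 1) x).trans (neg_le_abs _))
    refine h1.trans (le_of_eq ?_)
    congr 1
    norm_num
  | succ k ih =>
    obtain ⟨C, hC, ih⟩ := ih
    have key : ∀ F : ℕ → ℝ → ℝ, Chain F → ∀ S : Set ℝ, S.OrdConnected →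
        ∀ c ε : ℝ, 0 < c → 0 < ε → (∀ x ∈ S, c ≤ F (k + 1 + 1) x) →
        volume {x | x ∈ S ∧ |F 0 x| ≤ ε} ≤
          ENNReal.ofReal ((4 + 2 * C) * (ε / c) ^ ((1 : ℝ) / (((k + 1 : ℕ) : ℝ) + 1))) := by
      intro F hF S hS c ε hc hε h
      set T : ℝ := (ε / c) ^ ((1 : ℝ) / (((k + 1 : ℕ) : ℝ) + 1)) with hT
      have hεc : 0 < ε / c := div_pos hε hc
      have hT0 : 0 < T := Real.rpow_pos_of_pos hεc _
      set l : ℝ := c * T with hl
      have hl0 : 0 < l := mul_pos hc hT0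
      have hmono := chain_mono hF (k := k + 1) hS hc h
      -- the middle part
      have h1 : volume {x | x ∈ S ∧ |F (k + 1) x| ≤ l} ≤ ENNReal.ofReal (4 * T) := by
        refine (slope_large (ε := l) hS hc (hF (k + 1)) (fun x hx =>
          (h x hx).trans (le_abs_self _))).trans (le_of_eq ?_)
        rw [hl, mul_div_cancel_left₀ _ hc.ne']
      have hpow : (ε / l) ^ ((1 : ℝ) / ((k : ℝ) + 1)) = T := by
        have e1 : ε / l = (ε / c) ^ (1 - (1 : ℝ) / (((k + 1 : ℕ) : ℝ) + 1)) := by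
          rw [Real.rpow_sub hεc, Real.rpow_one, ← hT, hl]
          field_simp
        rw [e1, ← Real.rpow_mul hεc.le, hT]
        congr 1
        push_cast
        have : (k : ℝ) + 1 ≠ 0 := by positivity
        have h2 : (k : ℝ) + 1 + 1 ≠ 0 := by positivity
        field_simp
        ring
      -- the upper part
      have h2 : volume {x | x ∈ {x | x ∈ S ∧ l ≤ F (k + 1) x} ∧ |F 0 x| ≤ ε} ≤
          ENNReal.ofReal (C * T) := by
        rw [← hpow]
        refine ih F hF _ ?_ l ε hl0 hε (Or.inl fun x hx => hx.2)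
        refine ⟨fun x hx y hy z hz => ⟨hS.out hx.1 hy.1 hz, ?_⟩⟩
        exact hx.2.trans (hmono x hx.1 z (hS.out hx.1 hy.1 hz) hz.1)
      -- the lower part
      have h3 : volume {x | x ∈ {x | x ∈ S ∧ F (k + 1) x ≤ -l} ∧ |F 0 x| ≤ ε} ≤
          ENNReal.ofReal (C * T) := by
        rw [← hpow]
        refine ih F hF _ ?_ l ε hl0 hε (Or.inr fun x hx => hx.2)
        refine ⟨fun x hx y hy z hz => ⟨hS.out hx.1 hy.1 hz, ?_⟩⟩
        exact (hmono z (hS.out hx.1 hy.1 hz) y hy.1 hz.2).trans hy.2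
      have hsub : {x | x ∈ S ∧ |F 0 x| ≤ ε} ⊆
          ({x | x ∈ S ∧ |F (k + 1) x| ≤ l} ∪
            {x | x ∈ {x | x ∈ S ∧ l ≤ F (k + 1) x} ∧ |F 0 x| ≤ ε}) ∪
            {x | x ∈ {x | x ∈ S ∧ F (k + 1) x ≤ -l} ∧ |F 0 x| ≤ ε} := by
        rintro x ⟨hx, hx0⟩
        by_cases ha : |F (k + 1) x| ≤ l
        · exact Or.inl (Or.inl ⟨hx, ha⟩)
        · rw [abs_le, not_and_or] at ha
          push Not at ha
          rcases ha with ha | ha
          · exact Or.inr ⟨⟨hx, ha.le⟩, hx0⟩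
          · exact Or.inl (Or.inr ⟨⟨hx, ha.le⟩, hx0⟩)
      calc volume {x | x ∈ S ∧ |F 0 x| ≤ ε}
          ≤ ENNReal.ofReal (4 * T) + ENNReal.ofReal (C * T) + ENNReal.ofReal (C * T) :=
            (measure_mono hsub).trans ((measure_union_le _ _).trans
              (add_le_add ((measure_union_le _ _).trans (add_le_add h1 h2)) h3))
        _ = ENNReal.ofReal ((4 + 2 * C) * T) := by
            rw [← ENNReal.ofReal_add (by positivity) (by positivity),
              ← ENNReal.ofReal_add (by positivity) (by positivity)]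
            congr 1
            ring
    refine ⟨4 + 2 * C, by positivity, ?_⟩
    intro F hF S hS c ε hc hε h
    rcases h with h | h
    · exact key F hF S hS c ε hc hε h
    · have h1 := key (fun j x => - F j x) hF.neg S hS c ε hc hε (fun x hx => by
        have := h x hx
        linarith)
      simpa only [abs_neg] using h1

/-- The sublevel estimate when at every point one of the first derivatives is large. -/
theorem sublevel (m : ℕ) {X M c : ℝ} (hX : 0 < X) (hM : 0 < M) (hc : 0 < c) :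
    ∃ C : ℝ, 0 < C ∧ ∀ F : ℕ → ℝ → ℝ, Chain F →
      (∀ j ≤ m + 1, ∀ x, |x| ≤ X → |F j x| ≤ M) → (∀ x, |x| ≤ X → ∃ j ≤ m, c ≤ |F j x|) →
      ∀ ε : ℝ, 0 < ε → ε < c / 2 →
        volume {x | |x| ≤ X ∧ |F 0 x| ≤ ε} ≤
          ENNReal.ofReal (C * ε ^ ((1 : ℝ) / ((m : ℝ) + 1))) := by
  choose Ck hCk hvdc using vdc
  set C' : ℝ := ∑ k ∈ Finset.range (m + 1), Ck k with hC'
  have hC'0 : 0 < C' := Finset.sum_pos (fun k _ => hCk k) (by simp)
  set l : ℝ := c / (2 * M) with hl
  have hl0 : 0 < l := by positivity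
  obtain ⟨N, hN⟩ := exists_nat_gt (2 * X / l)
  have hN0 : 0 < N := by
    have h1 : (0 : ℝ) < N := lt_of_le_of_lt (by positivity) hN
    exact_mod_cast h1
  set δ : ℝ := (1 : ℝ) / ((m : ℝ) + 1) with hδ
  have hδ0 : 0 < δ := by positivity
  refine ⟨N * (C' * (2 / c) ^ δ), by positivity, ?_⟩
  intro F hF hub hlb ε hε hεc
  have hfrac : 0 < ε / (c / 2) := by positivity
  have hfrac1 : ε / (c / 2) ≤ 1 := by
    rw [div_le_one (by positivity)]
    exact hεc.le
  -- one short interval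
  have hone : ∀ a : ℝ, volume {x | (a ≤ x ∧ x ≤ a + l ∧ |x| ≤ X) ∧ |F 0 x| ≤ ε} ≤
      ENNReal.ofReal (C' * (2 / c) ^ δ * ε ^ δ) := by
    intro a
    by_cases hne : ∃ x₀, a ≤ x₀ ∧ x₀ ≤ a + l ∧ |x₀| ≤ X
    · obtain ⟨x₀, h1, h2, h3⟩ := hne
      obtain ⟨j, hj, hcj⟩ := hlb x₀ h3
      set S : Set ℝ := {x | a ≤ x ∧ x ≤ a + l ∧ |x| ≤ X} with hS
      have hSo : S.OrdConnected := by
        refine ⟨fun x hx y hy z hz => ⟨hx.1.trans hz.1, hz.2.trans hy.2.1, ?_⟩⟩
        have h4 := abs_le.1 hx.2.2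
        have h5 := abs_le.1 hy.2.2
        rw [abs_le]
        exact ⟨h4.1.trans hz.1, hz.2.trans h5.2⟩
      have hclose : ∀ x ∈ S, |F j x - F j x₀| ≤ c / 2 := by
        intro x hx
        have hx₀S : x₀ ∈ S := ⟨h1, h2, h3⟩
        have hlip : ∀ u ∈ S, ∀ v ∈ S, u < v → |F j v - F j u| ≤ M * (v - u) := by
          intro u hu v hv huv
          obtain ⟨z, hz, hzz⟩ := exists_hasDerivAt_eq_slope (F j) (F (j + 1)) huv
            (fun w _ => (hF j w).continuousAt.continuousWithinAt) (fun w _ => hF j w)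
          have hzS : z ∈ S := hSo.out hu hv ⟨hz.1.le, hz.2.le⟩
          have h4 := hub (j + 1) (by omega) z hzS.2.2
          rw [hzz, abs_div, abs_of_pos (sub_pos.2 huv), div_le_iff₀ (sub_pos.2 huv)] at h4
          exact h4
        have hMl : M * l = c / 2 := by
          rw [hl]; field_simp
        rcases lt_trichotomy x x₀ with h | h | h
        · have h4 := hlip x hx x₀ hx₀S h
          rw [abs_sub_comm]
          refine h4.trans ?_
          rw [← hMl]
          apply mul_le_mul_of_nonneg_left _ hM.le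
          have := hx.1
          linarith
        · rw [h, sub_self, abs_zero]; positivity
        · have h4 := hlip x₀ hx₀S x hx h
          refine h4.trans ?_
          rw [← hMl]
          apply mul_le_mul_of_nonneg_left _ hM.le
          have := hx.2.1
          linarith
      have hsign : (∀ x ∈ S, c / 2 ≤ F j x) ∨ (∀ x ∈ S, F j x ≤ -(c / 2)) := by
        rcases le_or_gt 0 (F j x₀) with h | h
        · left
          intro x hx
          rw [abs_of_nonneg h] at hcj
          have := abs_le.1 (hclose x hx)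
          linarith
        · right
          intro x hx
          rw [abs_of_neg h] at hcj
          have := abs_le.1 (hclose x hx)
          linarith
      rcases Nat.eq_zero_or_pos j with hj0 | hj0
      · have hempty : {x | (a ≤ x ∧ x ≤ a + l ∧ |x| ≤ X) ∧ |F 0 x| ≤ ε} = ∅ := by
          ext x
          simp only [Set.mem_ofPred_eq, Set.mem_empty_iff_false, iff_false, not_and, not_le]
          intro hx
          rw [hj0] at hsign
          rcases hsign with h | h
          · exact hεc.trans_le ((h x hx).trans (le_abs_self _))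
          · have := h x hx
            exact hεc.trans_le ((by linarith : c / 2 ≤ -F 0 x).trans (neg_le_abs _))
        rw [hempty, measure_empty]
        exact bot_le
      · obtain ⟨k, rfl⟩ : ∃ k, j = k + 1 := ⟨j - 1, by omega⟩
        have h4 := hvdc k F hF S hSo (c / 2) ε (by positivity) hε hsign
        refine h4.trans (ENNReal.ofReal_le_ofReal ?_)
        have h5 : (ε / (c / 2)) ^ ((1 : ℝ) / ((k : ℝ) + 1)) ≤ (ε / (c / 2)) ^ δ := by
          apply Real.rpow_le_rpow_of_exponent_ge hfrac hfrac1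
          rw [hδ]
          apply one_div_le_one_div_of_le (by positivity)
          have : (k : ℝ) + 1 ≤ m := by exact_mod_cast hj
          linarith
        have h6 : Ck k ≤ C' := by
          rw [hC']
          exact Finset.single_le_sum (f := Ck) (fun i _ => (hCk i).le)
            (Finset.mem_range.2 (by omega))
        have h7 : (ε / (c / 2)) ^ δ = (2 / c) ^ δ * ε ^ δ := by
          rw [← Real.mul_rpow (by positivity) hε.le]
          congr 1
          field_simp
        calc Ck k * (ε / (c / 2)) ^ ((1 : ℝ) / ((k : ℝ) + 1))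
            ≤ C' * (ε / (c / 2)) ^ δ := mul_le_mul h6 h5 (Real.rpow_nonneg hfrac.le _) hC'0.le
          _ = C' * (2 / c) ^ δ * ε ^ δ := by rw [h7]; ring
    · have hempty : {x | (a ≤ x ∧ x ≤ a + l ∧ |x| ≤ X) ∧ |F 0 x| ≤ ε} = ∅ := by
        ext x
        simp only [Set.mem_ofPred_eq, Set.mem_empty_iff_false, iff_false, not_and]
        intro hx
        exact absurd ⟨x, hx⟩ hne
      rw [hempty, measure_empty]
      exact bot_le
  have hcover : {x | |x| ≤ X ∧ |F 0 x| ≤ ε} ⊆ ⋃ i ∈ Finset.range N,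
      {x | ((-X + i * l) ≤ x ∧ x ≤ (-X + i * l) + l ∧ |x| ≤ X) ∧ |F 0 x| ≤ ε} := by
    rintro x ⟨hx, hx0⟩
    have h1 := abs_le.1 hx
    rw [Set.mem_iUnion₂]
    have h2 : 0 ≤ (x + X) / l := div_nonneg (by linarith) hl0.le
    refine ⟨⌊(x + X) / l⌋₊, ?_, ⟨⟨?_, ?_, hx⟩, hx0⟩⟩
    · rw [Finset.mem_range]
      have h3 : (⌊(x + X) / l⌋₊ : ℝ) ≤ (x + X) / l := Nat.floor_le h2
      have h4 : (x + X) / l ≤ 2 * X / l := by
        apply div_le_div_of_nonneg_right _ hl0.le
        linarith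
      have : (⌊(x + X) / l⌋₊ : ℝ) < N := by linarith
      exact_mod_cast this
    · have h3 : (⌊(x + X) / l⌋₊ : ℝ) ≤ (x + X) / l := Nat.floor_le h2
      rw [le_div_iff₀ hl0] at h3
      linarith
    · have h3 : (x + X) / l < (⌊(x + X) / l⌋₊ : ℝ) + 1 := Nat.lt_floor_add_one _
      rw [div_lt_iff₀ hl0] at h3
      linarith
  calc volume {x | |x| ≤ X ∧ |F 0 x| ≤ ε}
      ≤ ∑ i ∈ Finset.range N, volume {x | ((-X + i * l) ≤ x ∧ x ≤ (-X + i * l) + l ∧ |x| ≤ X) ∧
          |F 0 x| ≤ ε} := (measure_mono hcover).trans (measure_biUnion_finset_le _ _)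
    _ ≤ ∑ _i ∈ Finset.range N, ENNReal.ofReal (C' * (2 / c) ^ δ * ε ^ δ) :=
        Finset.sum_le_sum fun i _ => hone _
    _ = ENNReal.ofReal (N * (C' * (2 / c) ^ δ) * ε ^ δ) := by
        rw [Finset.sum_const, Finset.card_range, nsmul_eq_mul, mul_assoc (N : ℝ),
          ENNReal.ofReal_mul (Nat.cast_nonneg N), ENNReal.ofReal_natCast]

end Pool.Agent.TH433.MC
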