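import Pool.Agent.TH433.MC1

/-!
# Sublevel sets of `|P|² - |Q|²` along logarithmic spirals
-/

set_option autoImplicit false

open Set MeasureTheory

namespace Pool.Agent.TH433.MC

/-- The derivatives of an exponential sum. -/
noncomputable def ES {ι : Type*} (s : Finset ι) (c μ : ι → ℂ) (j : ℕ) (x : ℝ) : ℂ :=
  ∑ i ∈ s, c i * μ i ^ j * Complex.exp (μ i * x)

theorem hasDerivAt_ES {ι : Type*} (s : Finset ι) (c μ : ι → ℂ) (j : ℕ) (x : ℝ) :
    HasDerivAt (fun x : ℝ => ES s c μ j x) (ES s c μ (j + 1) x) x := by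
  unfold ES
  apply HasDerivAt.fun_sum
  intro i _
  have h1 : HasDerivAt (fun y : ℝ => μ i * (y : ℂ)) (μ i) x := by
    have := (Complex.ofRealCLM.hasDerivAt (x := x)).const_mul (μ i)
    simpa using this
  have h2 := (h1.cexp).const_mul (c i * μ i ^ j)
  refine h2.congr_deriv ?_
  ring

theorem chain_re {ι : Type*} (s : Finset ι) (c μ : ι → ℂ) :
    Chain (fun j x => (ES s c μ j x).re) := by
  intro j x
  exact (Complex.reCLM.hasFDerivAt.comp_hasDerivAt x (hasDerivAt_ES s c μ j x))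

theorem hasDerivAt_im {ι : Type*} (s : Finset ι) (c μ : ι → ℂ) (j : ℕ) (x : ℝ) :
    HasDerivAt (fun x => (ES s c μ j x).im) ((ES s c μ (j + 1) x).im) x := by
  exact (Complex.imCLM.hasFDerivAt.comp_hasDerivAt x (hasDerivAt_ES s c μ j x))

theorem im_zero {ι : Type*} (s : Finset ι) (c μ : ι → ℂ) (h : ∀ x, (ES s c μ 0 x).im = 0)
    (j : ℕ) : ∀ x, (ES s c μ j x).im = 0 := by
  induction j with
  | zero => exact h
  | succ j ih =>
    intro x
    have h1 := hasDerivAt_im s c μ j x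
    have h2 : (fun x => (ES s c μ j x).im) = fun _ => (0 : ℝ) := funext ih
    rw [h2] at h1
    exact h1.unique (hasDerivAt_const x 0)

theorem ES_lower {ι : Type*} [DecidableEq ι] (s : Finset ι) (μ : ι → ℂ) {i₀ : ι} (hi₀ : i₀ ∈ s)
    (h0 : μ i₀ = 0) (hne : ∀ i ∈ s, i ≠ i₀ → μ i ≠ 0) :
    ∃ m : ℕ, ∃ A : ℝ, 0 < A ∧ ∀ c : ι → ℂ, ∀ x : ℝ, ∃ j ≤ m, A * ‖c i₀‖ ≤ ‖ES s c μ j x‖ := by
  set q : Polynomial ℂ := ∏ i ∈ s.erase i₀, (Polynomial.X - Polynomial.C (μ i)) with hq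
  have hq0 : q.eval 0 ≠ 0 := by
    rw [hq, Polynomial.eval_prod, Finset.prod_ne_zero_iff]
    intro i hi
    rw [Finset.mem_erase] at hi
    rw [Polynomial.eval_sub, Polynomial.eval_X, Polynomial.eval_C, zero_sub]
    exact neg_ne_zero.2 (hne i hi.2 hi.1)
  have hqi : ∀ i ∈ s, i ≠ i₀ → q.eval (μ i) = 0 := by
    intro i hi hii
    rw [hq, Polynomial.eval_prod]
    apply Finset.prod_eq_zero (Finset.mem_erase.2 ⟨hii, hi⟩)
    simp
  set B : ℝ := ∑ j ∈ Finset.range (q.natDegree + 1), ‖q.coeff j‖ with hB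
  have hB0 : 0 < B + 1 := by
    have : 0 ≤ B := Finset.sum_nonneg fun j _ => norm_nonneg _
    linarith
  refine ⟨q.natDegree, ‖q.eval 0‖ / (B + 1), div_pos (norm_pos_iff.2 hq0) hB0, ?_⟩
  intro c x
  by_contra hcon
  push Not at hcon
  have hid : ∑ j ∈ Finset.range (q.natDegree + 1), q.coeff j * ES s c μ j x = c i₀ * q.eval 0 := by
    unfold ES
    calc ∑ j ∈ Finset.range (q.natDegree + 1),
          q.coeff j * ∑ i ∈ s, c i * μ i ^ j * Complex.exp (μ i * x)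
        = ∑ i ∈ s, c i * Complex.exp (μ i * x) * q.eval (μ i) := by
          simp only [Finset.mul_sum]
          rw [Finset.sum_comm]
          refine Finset.sum_congr rfl fun i _ => ?_
          rw [Polynomial.eval_eq_sum_range, Finset.mul_sum]
          refine Finset.sum_congr rfl fun j _ => ?_
          ring
      _ = c i₀ * q.eval 0 := by
          rw [Finset.sum_eq_single i₀]
          · rw [h0, zero_mul, Complex.exp_zero, mul_one]
          · intro i hi hii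
            rw [hqi i hi hii, mul_zero]
          · intro h; exact absurd hi₀ h
  have h1 : ‖c i₀ * q.eval 0‖ ≤ ∑ j ∈ Finset.range (q.natDegree + 1),
      ‖q.coeff j‖ * (‖q.eval 0‖ / (B + 1) * ‖c i₀‖) := by
    rw [← hid]
    refine (norm_sum_le _ _).trans (Finset.sum_le_sum fun j hj => ?_)
    rw [norm_mul]
    exact mul_le_mul_of_nonneg_left
      (hcon j (Nat.lt_succ_iff.1 (Finset.mem_range.1 hj))).le (norm_nonneg _)
  rw [← Finset.sum_mul, ← hB, norm_mul] at h1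
  have h2 := hcon 0 (Nat.zero_le _)
  have hc0 : 0 < ‖c i₀‖ := by
    rcases (norm_nonneg (c i₀)).eq_or_lt with h | h
    · rw [← h, mul_zero] at h2
      exact absurd h2 (not_lt.2 (norm_nonneg _))
    · exact h
  have hq1 : 0 < ‖q.eval 0‖ := norm_pos_iff.2 hq0
  have h3 : B * (‖q.eval 0‖ / (B + 1) * ‖c i₀‖) < ‖c i₀‖ * ‖q.eval 0‖ := by
    have h4 : B * (‖q.eval 0‖ / (B + 1) * ‖c i₀‖) = B / (B + 1) * (‖c i₀‖ * ‖q.eval 0‖) := by
      field_simp
    rw [h4]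
    have h5 : B / (B + 1) < 1 := by rw [div_lt_one hB0]; linarith
    nlinarith [mul_pos hc0 hq1]
  linarith

/-- `|P|² - |Q|²`. -/
noncomputable def G (P Q : Polynomial ℂ) (u : ℂ) : ℝ := ‖P.eval u‖ ^ 2 - ‖Q.eval u‖ ^ 2

/-- The coefficients of `|P|² - |Q|²` along the spiral. -/
noncomputable def cf (P Q : Polynomial ℂ) (ω : ℂ) (i : ℕ × ℕ) : ℂ :=
  (P.coeff i.1 * (starRingEnd ℂ) (P.coeff i.2) - Q.coeff i.1 * (starRingEnd ℂ) (Q.coeff i.2)) *
    (ω ^ i.1 * (starRingEnd ℂ) ω ^ i.2)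

/-- The exponents of `|P|² - |Q|²` along the spiral. -/
noncomputable def ex (α : ℂ) (i : ℕ × ℕ) : ℂ := i.1 * α + i.2 * (starRingEnd ℂ) α

theorem norm_sq_poly {P : Polynomial ℂ} {D : ℕ} (hP : P.natDegree ≤ D) (u : ℂ) :
    ((‖P.eval u‖ ^ 2 : ℝ) : ℂ) = ∑ i ∈ Finset.range (D + 1) ×ˢ Finset.range (D + 1),
      (P.coeff i.1 * (starRingEnd ℂ) (P.coeff i.2)) * (u ^ i.1 * (starRingEnd ℂ) u ^ i.2) := by
  have h1 : ((‖P.eval u‖ ^ 2 : ℝ) : ℂ) = P.eval u * (starRingEnd ℂ) (P.eval u) := by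
    rw [Complex.mul_conj, Complex.normSq_eq_norm_sq]
  rw [h1, Polynomial.eval_eq_sum_range' (Nat.lt_succ_of_le hP), map_sum, Finset.sum_mul_sum,
    Finset.sum_product]
  refine Finset.sum_congr rfl fun k _ => Finset.sum_congr rfl fun l _ => ?_
  rw [map_mul, map_pow]
  ring

theorem G_spiral {P Q : Polynomial ℂ} {D : ℕ} (hP : P.natDegree ≤ D) (hQ : Q.natDegree ≤ D)
    (ω α : ℂ) (x : ℝ) :
    ((G P Q (ω * Complex.exp (α * x)) : ℝ) : ℂ) =
      ES (Finset.range (D + 1) ×ˢ Finset.range (D + 1)) (cf P Q ω) (ex α) 0 x := by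
  unfold G ES
  rw [Complex.ofReal_sub, norm_sq_poly hP, norm_sq_poly hQ, ← Finset.sum_sub_distrib]
  refine Finset.sum_congr rfl fun i _ => ?_
  have h1 : (ω * Complex.exp (α * x)) ^ i.1 * (starRingEnd ℂ) (ω * Complex.exp (α * x)) ^ i.2 =
      (ω ^ i.1 * (starRingEnd ℂ) ω ^ i.2) * Complex.exp (ex α i * x) := by
    rw [map_mul, ← Complex.exp_conj, map_mul, Complex.conj_ofReal, mul_pow, mul_pow,
      ← Complex.exp_nat_mul, ← Complex.exp_nat_mul, ex]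
    rw [show ((i.1 : ℂ) * α + i.2 * (starRingEnd ℂ) α) * x =
      (i.1 : ℂ) * (α * x) + (i.2 : ℂ) * ((starRingEnd ℂ) α * x) by ring, Complex.exp_add]
    ring
  rw [h1, cf, pow_zero, mul_one]
  ring

theorem cf_zero (P Q : Polynomial ℂ) (ω : ℂ) :
    cf P Q ω (0, 0) = ((‖P.coeff 0‖ ^ 2 - ‖Q.coeff 0‖ ^ 2 : ℝ) : ℂ) := by
  unfold cf
  simp only [pow_zero, mul_one]
  rw [Complex.mul_conj, Complex.mul_conj, Complex.normSq_eq_norm_sq, Complex.normSq_eq_norm_sq]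
  push_cast
  ring

theorem norm_cf (P Q : Polynomial ℂ) {ω : ℂ} (hω : ‖ω‖ = 1) (i : ℕ × ℕ) :
    ‖cf P Q ω i‖ = ‖cf P Q 1 i‖ := by
  unfold cf
  rw [norm_mul, norm_mul, norm_mul, norm_pow, norm_mul, norm_pow, RCLike.norm_conj, hω]
  simp

/-- The uniform sublevel estimate along spirals. -/
theorem sub_G {P Q : Polynomial ℂ} (h0 : ‖P.coeff 0‖ ≠ ‖Q.coeff 0‖) {α : ℂ} (hα : α.re ≠ 0)
    {X : ℝ} (hX : 0 < X) :
    ∃ C : ℝ, 0 < C ∧ ∃ δ : ℝ, 0 < δ ∧ ∃ ε₀ : ℝ, 0 < ε₀ ∧ ∀ ω : ℂ, ‖ω‖ = 1 → ∀ ε : ℝ, 0 < ε →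
      ε < ε₀ → volume {x : ℝ | |x| ≤ X ∧ |G P Q (ω * Complex.exp (α * x))| ≤ ε} ≤
        ENNReal.ofReal (C * ε ^ δ) := by
  classical
  set D := max P.natDegree Q.natDegree with hD
  have hP : P.natDegree ≤ D := le_max_left _ _
  have hQ : Q.natDegree ≤ D := le_max_right _ _
  set s : Finset (ℕ × ℕ) := Finset.range (D + 1) ×ˢ Finset.range (D + 1) with hs
  have hmem : ((0, 0) : ℕ × ℕ) ∈ s := by simp [hs]
  have hre : ∀ i : ℕ × ℕ, (ex α i).re = ((i.1 : ℝ) + i.2) * α.re := by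
    intro i
    simp [ex]
    ring
  have hex0 : ex α (0, 0) = 0 := by simp [ex]
  have hexne : ∀ i ∈ s, i ≠ (0, 0) → ex α i ≠ 0 := by
    intro i _ hi h
    have h1 := hre i
    rw [h, Complex.zero_re] at h1
    have h2 : (i.1 : ℝ) + i.2 = 0 := by
      rcases mul_eq_zero.1 h1.symm with h3 | h3
      · exact h3
      · exact absurd h3 hα
    have h3 : i.1 + i.2 = 0 := by exact_mod_cast h2
    apply hi
    ext <;> simp <;> omega
  obtain ⟨m, A, hA, hlow⟩ := ES_lower s (ex α) hmem hex0 hexne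
  set c : ℝ := A * |‖P.coeff 0‖ ^ 2 - ‖Q.coeff 0‖ ^ 2| with hc
  have hdiff : ‖P.coeff 0‖ ^ 2 - ‖Q.coeff 0‖ ^ 2 ≠ 0 := by
    intro h
    apply h0
    exact (pow_left_inj₀ (norm_nonneg _) (norm_nonneg _) two_ne_zero).1 (by linarith)
  have hc0 : 0 < c := mul_pos hA (abs_pos.2 hdiff)
  set M : ℝ := (∑ j ∈ Finset.range (m + 2), ∑ i ∈ s, ‖cf P Q 1 i‖ * ‖ex α i‖ ^ j *
    Real.exp (‖ex α i‖ * X)) + 1 with hM
  have hM0 : 0 < M := by
    have : 0 ≤ ∑ j ∈ Finset.range (m + 2), ∑ i ∈ s, ‖cf P Q 1 i‖ * ‖ex α i‖ ^ j *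
      Real.exp (‖ex α i‖ * X) :=
      Finset.sum_nonneg fun j _ => Finset.sum_nonneg fun i _ => by positivity
    linarith
  obtain ⟨C, hC, hsub⟩ := sublevel m hX hM0 hc0
  refine ⟨C, hC, (1 : ℝ) / ((m : ℝ) + 1), by positivity, c / 2, by positivity, ?_⟩
  intro ω hω ε hε hε0
  have him0 : ∀ x, (ES s (cf P Q ω) (ex α) 0 x).im = 0 := by
    intro x
    rw [← G_spiral hP hQ ω α x, Complex.ofReal_im]
  have him := im_zero s (cf P Q ω) (ex α) him0
  have habs : ∀ j x, |(ES s (cf P Q ω) (ex α) j x).re| = ‖ES s (cf P Q ω) (ex α) j x‖ := by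
    intro j x
    exact (Complex.abs_re_eq_norm.2 (him j x))
  have h1 := hsub (fun j x => (ES s (cf P Q ω) (ex α) j x).re) (chain_re s _ _) (by
    intro j hj x hx
    rw [habs]
    have hbound : ‖ES s (cf P Q ω) (ex α) j x‖ ≤ ∑ i ∈ s, ‖cf P Q 1 i‖ * ‖ex α i‖ ^ j *
        Real.exp (‖ex α i‖ * X) := by
      unfold ES
      refine (norm_sum_le _ _).trans (Finset.sum_le_sum fun i _ => ?_)
      rw [norm_mul, norm_mul, norm_pow, norm_cf P Q hω]
      apply mul_le_mul_of_nonneg_left _ (by positivity)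
      rw [Complex.norm_exp]
      apply Real.exp_le_exp.2
      refine (Complex.re_le_norm _).trans ?_
      rw [norm_mul, Complex.norm_real, Real.norm_eq_abs]
      exact mul_le_mul_of_nonneg_left hx (norm_nonneg _)
    have h2 : ∑ i ∈ s, ‖cf P Q 1 i‖ * ‖ex α i‖ ^ j * Real.exp (‖ex α i‖ * X) ≤
        ∑ j ∈ Finset.range (m + 2), ∑ i ∈ s, ‖cf P Q 1 i‖ * ‖ex α i‖ ^ j *
          Real.exp (‖ex α i‖ * X) :=
      Finset.single_le_sum (f := fun j => ∑ i ∈ s, ‖cf P Q 1 i‖ * ‖ex α i‖ ^ j *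
          Real.exp (‖ex α i‖ * X))
        (fun j _ => Finset.sum_nonneg fun i _ => by positivity) (Finset.mem_range.2 (by omega))
    linarith) (by
    intro x _
    obtain ⟨j, hj, h2⟩ := hlow (cf P Q ω) x
    refine ⟨j, hj, ?_⟩
    rw [habs]
    rw [cf_zero, Complex.norm_real, Real.norm_eq_abs] at h2
    exact h2) ε hε hε0
  have hset : {x : ℝ | |x| ≤ X ∧ |G P Q (ω * Complex.exp (α * x))| ≤ ε} =
      {x | |x| ≤ X ∧ |(fun j x => (ES s (cf P Q ω) (ex α) j x).re) 0 x| ≤ ε} := by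
    ext x
    simp only [Set.mem_ofPred_eq]
    rw [← G_spiral hP hQ ω α x, Complex.ofReal_re]
  rw [hset]
  exact h1

end Pool.Agent.TH433.MC
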