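import Pool.Agent.TH433.MC2
import Pool.Agent.H462R2.AP4

/-!
# The values of a rational map on the unit circle near the points where its modulus is one
-/

set_option autoImplicit false

open Set MeasureTheory Filter Topology

namespace Pool.Agent.TH433.MC

open Pool.Agent.H462R2.AP Pool.Agent.H762R2.Rt

/-- `|P|² - |Q|²` on the unit circle. -/
noncomputable def gc (P Q : Polynomial ℂ) (σ : ℝ) : ℝ := G P Q (Complex.exp (σ * Complex.I))

theorem gc_per (P Q : Polynomial ℂ) (σ : ℝ) : gc P Q (σ + 2 * Real.pi) = gc P Q σ := by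
  unfold gc
  congr 1
  push_cast
  rw [add_mul, Complex.exp_add, Complex.exp_two_pi_mul_I, mul_one]

theorem gc_per_int (P Q : Polynomial ℂ) (σ : ℝ) (k : ℤ) :
    gc P Q (σ + 2 * Real.pi * k) = gc P Q σ := by
  unfold gc
  congr 1
  push_cast
  rw [add_mul, Complex.exp_add]
  rw [show 2 * (Real.pi : ℂ) * k * Complex.I = k * (2 * Real.pi * Complex.I) by ring,
    Complex.exp_int_mul_two_pi_mul_I, mul_one]

theorem continuous_G (P Q : Polynomial ℂ) : Continuous (G P Q) := by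
  unfold G
  fun_prop

theorem continuous_gc (P Q : Polynomial ℂ) : Continuous (gc P Q) := by
  unfold gc
  exact (continuous_G P Q).comp (by fun_prop)

/-- Near the points where a function with simple zeros is small there is a zero. -/
theorem zeros_near {g : ℝ → ℝ} (hg : Continuous g) (hper : ∀ σ, ∀ k : ℤ, g (σ + 2 * Real.pi * k) = g σ)
    (hs : ∀ σ, g σ = 0 → deriv g σ ≠ 0) :
    ∃ c : ℝ, 0 < c ∧ ∀ σ, |g σ| < c → ∃ σ₀, g σ₀ = 0 ∧ |σ - σ₀| ≤ |g σ| / c := by
  have hloc : ∃ c : ℝ, 0 < c ∧ ∀ σ ∈ Icc (0 : ℝ) (2 * Real.pi), |g σ| < c →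
      ∃ σ₀, g σ₀ = 0 ∧ |σ - σ₀| ≤ |g σ| / c := by
    refine (isCompact_Icc (a := (0 : ℝ)) (b := 2 * Real.pi)).induction_on
      (p := fun s => ∃ c : ℝ, 0 < c ∧ ∀ σ ∈ s, |g σ| < c →
        ∃ σ₀, g σ₀ = 0 ∧ |σ - σ₀| ≤ |g σ| / c) ?_ ?_ ?_ ?_
    · exact ⟨1, one_pos, by simp⟩
    · rintro s t hst ⟨c, hc, h⟩
      exact ⟨c, hc, fun σ hσ => h σ (hst hσ)⟩
    · rintro s t ⟨c, hc, h⟩ ⟨c', hc', h'⟩
      refine ⟨min c c', lt_min hc hc', ?_⟩
      rintro σ (hσ | hσ) hlt
      · obtain ⟨σ₀, h1, h2⟩ := h σ hσ (hlt.trans_le (min_le_left _ _))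
        exact ⟨σ₀, h1, h2.trans (div_le_div_of_nonneg_left (abs_nonneg _) (lt_min hc hc')
          (min_le_left _ _))⟩
      · obtain ⟨σ₀, h1, h2⟩ := h' σ hσ (hlt.trans_le (min_le_right _ _))
        exact ⟨σ₀, h1, h2.trans (div_le_div_of_nonneg_left (abs_nonneg _) (lt_min hc hc')
          (min_le_right _ _))⟩
    · intro σ _
      by_cases h0 : g σ = 0
      · have hd := hs σ h0
        set d := deriv g σ with hdd
        have hdiff : DifferentiableAt ℝ g σ := by
          by_contra hcon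
          exact hd (by rw [hdd, deriv_zero_of_not_differentiableAt hcon])
        have h1 : HasDerivAt g d σ := hdiff.hasDerivAt
        have hd2 : 0 < |d| / 2 := by positivity
        have h2 := (hasDerivAt_iff_isLittleO.1 h1).def hd2
        refine ⟨{x | ‖g x - g σ - (x - σ) • d‖ ≤ |d| / 2 * ‖x - σ‖},
          mem_nhdsWithin_of_mem_nhds h2, |d| / 2, hd2, ?_⟩
        intro x hx _
        refine ⟨σ, h0, ?_⟩
        rw [Set.mem_ofPred_eq, h0, sub_zero, smul_eq_mul, Real.norm_eq_abs, Real.norm_eq_abs] at hx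
        rw [le_div_iff₀ hd2]
        have h3 : |(x - σ) * d| ≤ |g x| + |g x - (x - σ) * d| := by
          have := abs_sub_abs_le_abs_sub ((x - σ) * d) (g x)
          rw [abs_sub_comm ((x - σ) * d) (g x)] at this
          linarith
        rw [abs_mul] at h3
        nlinarith
      · have h1 : 0 < |g σ| := abs_pos.2 h0
        refine ⟨{x | |g σ| / 2 < |g x|}, mem_nhdsWithin_of_mem_nhds
          ((isOpen_lt continuous_const hg.abs).mem_nhds (by
            change |g σ| / 2 < |g σ|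
            linarith)), |g σ| / 2, by positivity, ?_⟩
        intro x hx hlt
        rw [Set.mem_ofPred_eq] at hx
        linarith
  obtain ⟨c, hc, h⟩ := hloc
  refine ⟨c, hc, fun σ hσ => ?_⟩
  have hpi : 0 < 2 * Real.pi := by positivity
  set k : ℤ := ⌊σ / (2 * Real.pi)⌋ with hk
  have h1 : (k : ℝ) ≤ σ / (2 * Real.pi) := Int.floor_le _
  have h2 : σ / (2 * Real.pi) < k + 1 := Int.lt_floor_add_one _
  rw [le_div_iff₀ hpi] at h1
  rw [div_lt_iff₀ hpi] at h2
  have h3 : g (σ - 2 * Real.pi * k) = g σ := by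
    have := hper (σ - 2 * Real.pi * k) k
    rw [sub_add_cancel] at this
    exact this.symm
  obtain ⟨σ₀, h4, h5⟩ := h (σ - 2 * Real.pi * k) ⟨by linarith, by linarith⟩ (by rw [h3]; exact hσ)
  refine ⟨σ₀ + 2 * Real.pi * k, by rw [hper]; exact h4, ?_⟩
  rw [h3] at h5
  rw [show σ - (σ₀ + 2 * Real.pi * k) = σ - 2 * Real.pi * k - σ₀ by ring]
  exact h5

theorem G_of_not_good {P Q : Polynomial ℂ} {B η : ℝ} (hη : 0 ≤ η) {u : ℂ}
    (hP : ‖P.eval u‖ ≤ B) (hQ : ‖Q.eval u‖ ≤ B) (h : ¬ Good η (P.eval u) (Q.eval u)) :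
    |G P Q u| ≤ 2 * B ^ 2 * η := by
  unfold Good at h
  push Not at h
  obtain ⟨h1, h2⟩ := h
  have hp := norm_nonneg (P.eval u)
  have hq := norm_nonneg (Q.eval u)
  have he : 1 - η ≤ Real.exp (-η) := by
    have := Real.add_one_le_exp (-η)
    linarith
  have hB : 0 ≤ B := hp.trans hP
  unfold G
  set p := ‖P.eval u‖ with hpp
  set q := ‖Q.eval u‖ with hqq
  have h3 : q - p ≤ B * η := by nlinarith
  have h4 : p - q ≤ B * η := by nlinarith
  have h5 : |p - q| ≤ B * η := abs_le.2 ⟨by linarith, h4⟩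
  have h6 : |p ^ 2 - q ^ 2| = |p - q| * (p + q) := by
    rw [show p ^ 2 - q ^ 2 = (p - q) * (p + q) by ring, abs_mul, abs_of_nonneg (by linarith : 0 ≤ p + q)]
  rw [h6]
  calc |p - q| * (p + q) ≤ (B * η) * (B + B) :=
        mul_le_mul h5 (by linarith) (by linarith) (by positivity)
    _ = 2 * B ^ 2 * η := by ring

/-- The logarithm of the quotient near a crossing of the unit circle. -/
theorem local_exp {P Q : Polynomial ℂ} (hc : IsCoprime P Q) {σ₀ : ℝ} (h0 : gc P Q σ₀ = 0)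
    (hd : deriv (gc P Q) σ₀ ≠ 0) :
    ∃ α : ℂ, α.re ≠ 0 ∧ ∃ h : ℝ → ℂ, ∃ C τ₀ : ℝ, 0 < C ∧ 0 < τ₀ ∧ ∀ τ : ℝ, |τ| ≤ τ₀ →
      Q.eval (Complex.exp ((σ₀ + τ : ℝ) * Complex.I)) ≠ 0 ∧
      P.eval (Complex.exp ((σ₀ + τ : ℝ) * Complex.I)) /
        Q.eval (Complex.exp ((σ₀ + τ : ℝ) * Complex.I)) =
        (P.eval (Complex.exp (σ₀ * Complex.I)) / Q.eval (Complex.exp (σ₀ * Complex.I))) *
          Complex.exp (h τ) ∧ ‖h τ - α * τ‖ ≤ C * τ ^ 2 := by
  set e : ℂ := Complex.exp (σ₀ * Complex.I) with he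
  have heq : ‖P.eval e‖ = ‖Q.eval e‖ := by
    have h1 : ‖P.eval e‖ ^ 2 - ‖Q.eval e‖ ^ 2 = 0 := h0
    exact (pow_left_inj₀ (norm_nonneg _) (norm_nonneg _) two_ne_zero).1 (by linarith)
  have hQe : Q.eval e ≠ 0 := by
    intro h
    rw [h, norm_zero, norm_eq_zero] at heq
    exact (coprime_eval hc e).elim (fun h' => h' heq) (fun h' => h' h)
  have hPe : P.eval e ≠ 0 := by
    intro h
    rw [h, norm_zero] at heq
    exact hQe (norm_eq_zero.1 heq.symm)
  -- the quotient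
  set Z : ℂ → ℂ := fun z => e * Complex.exp (z * Complex.I) with hZ
  have hZan : AnalyticAt ℂ Z 0 := by
    apply AnalyticAt.fun_mul analyticAt_const
    apply AnalyticAt.cexp'
    exact analyticAt_id.fun_mul analyticAt_const
  have hZ0 : Z 0 = e := by simp [hZ]
  have hpoly : ∀ A : Polynomial ℂ, AnalyticAt ℂ (fun z => A.eval (Z z)) 0 := by
    intro A
    have h1 : AnalyticAt ℂ (fun w => A.eval w) (Z 0) :=
      (Polynomial.differentiable A).analyticAt _
    exact h1.comp hZan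
  set F : ℂ → ℂ := fun z => (P.eval (Z z) / Q.eval (Z z)) * (Q.eval e / P.eval e) with hF
  have hFan : AnalyticAt ℂ F 0 := by
    apply AnalyticAt.fun_mul _ analyticAt_const
    apply (hpoly P).fun_div (hpoly Q)
    rw [hZ0]
    exact hQe
  have hF0 : F 0 = 1 := by
    rw [hF]
    simp only
    rw [hZ0]
    field_simp
  set L : ℂ → ℂ := fun z => Complex.log (F z) with hL
  have hLan : AnalyticAt ℂ L 0 := by
    apply hFan.clog
    rw [hF0]
    exact Complex.one_mem_slitPlane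
  have hL0 : L 0 = 0 := by
    rw [hL]
    simp only
    rw [hF0, Complex.log_one]
  obtain ⟨p, hp⟩ := hLan
  have hbig := hp.isBigO_sub_partialSum_pow 2
  set α : ℂ := p.coeff 1 with hα
  have hpart : ∀ z : ℂ, p.partialSum 2 z = α * z := by
    intro z
    rw [FormalMultilinearSeries.partialSum, Finset.sum_range_succ, Finset.sum_range_one,
      FormalMultilinearSeries.apply_eq_pow_smul_coeff,
      FormalMultilinearSeries.apply_eq_pow_smul_coeff]
    have h1 : p.coeff 0 = 0 := by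
      have := hp.coeff_zero (fun _ => (1 : ℂ))
      rw [FormalMultilinearSeries.coeff]
      rw [← hL0, ← this]
      congr 1
    rw [h1, smul_zero, zero_add, pow_one, smul_eq_mul, mul_comm]
  obtain ⟨C, hC⟩ := hbig.bound
  have hev1 : ∀ᶠ z : ℂ in 𝓝 0, ‖L z - α * z‖ ≤ (|C| + 1) * ‖z‖ ^ 2 := by
    filter_upwards [hC] with z hz
    rw [zero_add, hpart, norm_pow, norm_norm] at hz
    refine hz.trans ?_
    apply mul_le_mul_of_nonneg_right _ (by positivity)
    have := le_abs_self C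
    linarith
  have hcontQ : ContinuousAt (fun z => Q.eval (Z z)) 0 := (hpoly Q).continuousAt
  have hev2 : ∀ᶠ z : ℂ in 𝓝 0, Q.eval (Z z) ≠ 0 := by
    apply hcontQ.eventually_ne
    rw [hZ0]; exact hQe
  have hev3 : ∀ᶠ z : ℂ in 𝓝 0, F z ≠ 0 := by
    apply hFan.continuousAt.eventually_ne
    rw [hF0]; exact one_ne_zero
  -- the bound for Q
  set B : ℝ := ‖Q.eval e‖ + 1 with hB
  have hev4 : ∀ᶠ z : ℂ in 𝓝 0, ‖Q.eval (Z z)‖ < B := by
    have h1 : ContinuousAt (fun z => ‖Q.eval (Z z)‖) 0 := hcontQ.norm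
    apply h1.eventually_lt_const
    change ‖Q.eval (Z 0)‖ < B
    rw [hZ0, hB]; linarith
  obtain ⟨ρ, hρ, hball⟩ := Metric.eventually_nhds_iff.1 (hev1.and (hev2.and (hev3.and hev4)))
  have hτ : ∀ τ : ℝ, |τ| ≤ ρ / 2 → dist (τ : ℂ) 0 < ρ := by
    intro τ h
    rw [dist_zero_right, Complex.norm_real, Real.norm_eq_abs]
    linarith
  have hZτ : ∀ τ : ℝ, Z τ = Complex.exp ((σ₀ + τ : ℝ) * Complex.I) := by
    intro τ
    rw [hZ, he]
    simp only
    rw [← Complex.exp_add]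
    congr 1
    push_cast
    ring
  have hmain : ∀ τ : ℝ, |τ| ≤ ρ / 2 →
      Q.eval (Complex.exp ((σ₀ + τ : ℝ) * Complex.I)) ≠ 0 ∧
      P.eval (Complex.exp ((σ₀ + τ : ℝ) * Complex.I)) /
        Q.eval (Complex.exp ((σ₀ + τ : ℝ) * Complex.I)) =
        (P.eval e / Q.eval e) * Complex.exp (L τ) ∧ ‖L τ - α * τ‖ ≤ (|C| + 1) * τ ^ 2 := by
    intro τ h
    obtain ⟨h1, h2, h3, -⟩ := hball (hτ τ h)
    rw [← hZτ]
    refine ⟨h2, ?_, ?_⟩
    · rw [hL]
      simp only
      rw [Complex.exp_log h3, hF]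
      simp only
      field_simp
    · rw [Complex.norm_real, Real.norm_eq_abs, sq_abs] at h1
      exact h1
  refine ⟨α, ?_, fun τ => L τ, |C| + 1, ρ / 2, by positivity, by positivity, hmain⟩
  -- the real part of `α`
  intro hre
  apply hd
  have hB0 : 0 < B := by positivity
  set K : ℝ := |C| + 1 with hK
  have hK0 : 0 < K := by positivity
  have hquad : ∀ τ : ℝ, |τ| ≤ min (ρ / 2) (1 / (K + 1)) →
      |gc P Q (σ₀ + τ)| ≤ B ^ 2 * (4 * K) * τ ^ 2 := by
    intro τ h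
    have hρτ : |τ| ≤ ρ / 2 := h.trans (min_le_left _ _)
    have hKτ : |τ| ≤ 1 / (K + 1) := h.trans (min_le_right _ _)
    obtain ⟨h1, h2, h3⟩ := hmain τ hρτ
    have h4 := (hball (hτ τ hρτ)).2.2.2
    rw [hZτ] at h4
    set u := Complex.exp ((σ₀ + τ : ℝ) * Complex.I) with hu
    have h5 : P.eval u = (P.eval e / Q.eval e) * Complex.exp (L τ) * Q.eval u := by
      rw [← h2, div_mul_cancel₀ _ h1]
    have h6 : ‖P.eval u‖ = Real.exp (L τ).re * ‖Q.eval u‖ := by
      rw [h5, norm_mul, norm_mul, norm_div, heq, div_self (norm_ne_zero_iff.2 hQe), one_mul,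
        Complex.norm_exp]
    have h7 : |(L τ).re| ≤ K * τ ^ 2 := by
      have h8 : (L τ).re = (L τ - α * τ).re := by
        rw [Complex.sub_re, Complex.mul_re, hre, Complex.ofReal_im, Complex.ofReal_re]
        ring
      rw [h8]
      exact (Complex.abs_re_le_norm _).trans h3
    have hτ1 : K * τ ^ 2 ≤ 1 / 2 := by
      have h9 : |τ| * (K + 1) ≤ 1 := by
        rwa [le_div_iff₀ (by positivity)] at hKτ
      have h10 : 0 ≤ |τ| := abs_nonneg τ
      have h11 : τ ^ 2 = |τ| * |τ| := by rw [← sq, sq_abs]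
      rw [h11]
      have hK1 : 1 ≤ K := by
        rw [hK]
        have := abs_nonneg C
        linarith
      have h12 : |τ| ≤ 1 / 2 := by
        nlinarith
      nlinarith
    have h8 : |gc P Q (σ₀ + τ)| = ‖Q.eval u‖ ^ 2 * |Real.exp (2 * (L τ).re) - 1| := by
      unfold gc G
      rw [← hu, h6, mul_pow, ← Real.exp_nat_mul]
      rw [show Real.exp ((2 : ℕ) * (L τ).re) * ‖Q.eval u‖ ^ 2 - ‖Q.eval u‖ ^ 2 =
        ‖Q.eval u‖ ^ 2 * (Real.exp (2 * (L τ).re) - 1) by push_cast; ring, abs_mul,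
        abs_of_nonneg (by positivity : (0 : ℝ) ≤ ‖Q.eval u‖ ^ 2)]
    rw [h8]
    have h9 : |Real.exp (2 * (L τ).re) - 1| ≤ 2 * |2 * (L τ).re| := by
      apply Real.abs_exp_sub_one_le
      rw [abs_mul, abs_two]
      linarith
    have h10 : |Real.exp (2 * (L τ).re) - 1| ≤ (4 * K) * τ ^ 2 := by
      rw [abs_mul, abs_two] at h9
      nlinarith
    calc ‖Q.eval u‖ ^ 2 * |Real.exp (2 * (L τ).re) - 1| ≤ B ^ 2 * ((4 * K) * τ ^ 2) := by
          apply mul_le_mul _ h10 (abs_nonneg _) (by positivity)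
          exact pow_le_pow_left₀ (norm_nonneg _) h4.le 2
      _ = B ^ 2 * (4 * K) * τ ^ 2 := by ring
  have hder : HasDerivAt (gc P Q) 0 σ₀ := by
    rw [hasDerivAt_iff_isLittleO]
    rw [Asymptotics.isLittleO_iff]
    intro c hc
    set A : ℝ := B ^ 2 * (4 * K) with hA
    have hA0 : 0 < A := by positivity
    have hr : 0 < min (min (ρ / 2) (1 / (K + 1))) (c / A) := by positivity
    filter_upwards [Metric.ball_mem_nhds σ₀ hr] with x hx
    rw [Metric.mem_ball, Real.dist_eq] at hx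
    have h1 : |x - σ₀| ≤ min (ρ / 2) (1 / (K + 1)) := hx.le.trans (min_le_left _ _)
    have h2 : |x - σ₀| ≤ c / A := hx.le.trans (min_le_right _ _)
    have h3 := hquad (x - σ₀) h1
    rw [add_sub_cancel] at h3
    rw [h0, sub_zero, smul_zero, sub_zero, Real.norm_eq_abs, Real.norm_eq_abs]
    refine h3.trans ?_
    rw [le_div_iff₀ hA0] at h2
    rw [← sq_abs, sq, ← mul_assoc]
    apply mul_le_mul_of_nonneg_right _ (abs_nonneg _)
    linarith
  exact hder.deriv

end Pool.Agent.TH433.MC
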