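import Pool.Agent.TH433.MC3

/-!
# The second image of a critical value: local measure estimate
-/

set_option autoImplicit false

open Set MeasureTheory Filter Topology

namespace Pool.Agent.TH433.MC

open Pool.Agent.H462R2.AP Pool.Agent.H762R2.Rt Pool.Agent.Helper114.Herman

theorem G_ne_iff {P Q : Polynomial ℂ} {u : ℂ} : G P Q u ≠ 0 ↔ ‖P.eval u‖ ≠ ‖Q.eval u‖ := by
  unfold G
  rw [sub_ne_zero, Ne, pow_left_inj₀ (norm_nonneg _) (norm_nonneg _) two_ne_zero]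

theorem good_near {P Q : Polynomial ℂ} (h : ‖P.eval 0‖ ≠ ‖Q.eval 0‖) :
    ∃ ρ η : ℝ, 0 < ρ ∧ 0 < η ∧ ∀ u : ℂ, ‖u‖ ≤ ρ → Good η (P.eval u) (Q.eval u) := by
  have h1 : ∀ᶠ u in 𝓝 (0 : ℂ), G P Q u ≠ 0 :=
    (continuous_G P Q).continuousAt.eventually_ne (G_ne_iff.2 h)
  obtain ⟨ρ, hρ, hball⟩ := Metric.eventually_nhds_iff.1 h1
  obtain ⟨η, hη, hg⟩ := good_of_compact P Q (isCompact_closedBall (0 : ℂ) (ρ / 2)) (by
    intro u hu
    apply G_ne_iff.1
    apply hball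
    rw [dist_zero_right]
    rw [mem_closedBall_zero_iff] at hu
    linarith)
  refine ⟨ρ / 2, η, by positivity, hη, fun u hu => hg u ?_⟩
  rwa [mem_closedBall_zero_iff]

theorem good_scale {η : ℝ} {a p q : ℂ} (ha : a ≠ 0) (h : Good η (a * p) (a * q)) : Good η p q := by
  unfold Good at *
  rw [norm_mul, norm_mul] at h
  have ha' : 0 < ‖a‖ := norm_pos_iff.2 ha
  rcases h with h | h
  · left
    have : ‖a‖ * ‖p‖ ≤ ‖a‖ * (Real.exp (-η) * ‖q‖) := by linarith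
    exact le_of_mul_le_mul_left this ha'
  · right
    have : ‖a‖ * ‖q‖ ≤ ‖a‖ * (Real.exp (-η) * ‖p‖) := by linarith
    exact le_of_mul_le_mul_left this ha'

theorem cp_true_eval {P : Polynomial ℂ} {D : ℕ} (hP : P.natDegree ≤ D) {y : ℂ} (hy : y ≠ 0) :
    (cp D P true).eval y = y ^ D * P.eval y⁻¹ := by
  rw [eval_cp_true, hom_ne hP hy, one_div]

theorem good_far {P Q : Polynomial ℂ} {D : ℕ} (hP : P.natDegree ≤ D) (hQ : Q.natDegree ≤ D)
    (h : ‖P.coeff D‖ ≠ ‖Q.coeff D‖) :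
    ∃ ρ η : ℝ, 0 < ρ ∧ 0 < η ∧ ∀ u : ℂ, ρ⁻¹ ≤ ‖u‖ → Good η (P.eval u) (Q.eval u) := by
  obtain ⟨ρ, η, hρ, hη, hg⟩ := good_near (P := cp D P true) (Q := cp D Q true) (by
    rw [eval_cp_true_zero, eval_cp_true_zero]
    exact h)
  refine ⟨ρ, η, hρ, hη, fun u hu => ?_⟩
  have hu0 : u ≠ 0 := by
    rintro rfl
    rw [norm_zero] at hu
    have := inv_pos.2 hρ
    linarith
  have hy : u⁻¹ ≠ 0 := inv_ne_zero hu0
  have h1 := hg u⁻¹ (by
    rw [norm_inv]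
    exact inv_le_of_inv_le₀ hρ hu)
  rw [cp_true_eval hP hy, cp_true_eval hQ hy, inv_inv] at h1
  exact good_scale (pow_ne_zero _ hy) h1

theorem poly_bound (A : Polynomial ℂ) (R : ℝ) : ∃ B L : ℝ, 0 ≤ B ∧ 0 ≤ L ∧
    (∀ u : ℂ, ‖u‖ ≤ R → ‖A.eval u‖ ≤ B) ∧
    ∀ u v : ℂ, ‖u‖ ≤ R → ‖v‖ ≤ R → ‖A.eval u - A.eval v‖ ≤ L * ‖u - v‖ := by
  obtain ⟨B, hB⟩ := (isCompact_closedBall (0 : ℂ) R).exists_bound_of_continuousOn
    (f := fun y => A.eval y) (Polynomial.continuous _).continuousOn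
  obtain ⟨L, hL⟩ := (isCompact_closedBall (0 : ℂ) R).exists_bound_of_continuousOn
    (f := fun y => (Polynomial.derivative A).eval y) (Polynomial.continuous _).continuousOn
  refine ⟨|B|, |L|, abs_nonneg _, abs_nonneg _, ?_, ?_⟩
  · intro u hu
    exact (hB u (mem_closedBall_zero_iff.2 hu)).trans (le_abs_self _)
  · intro y z hy hz
    exact (convex_closedBall (0 : ℂ) R).norm_image_sub_le_of_norm_deriv_le
      (f := fun y => A.eval y) (C := |L|) (fun x _ => A.differentiableAt)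
      (fun x hx => by rw [Polynomial.deriv]; exact (hL x hx).trans (le_abs_self _))
      (mem_closedBall_zero_iff.2 hz) (mem_closedBall_zero_iff.2 hy)

theorem log_div_le {n : ℕ} (hn : 1 ≤ n) :
    Real.log n / n ≤ 2 * (n : ℝ) ^ (-(1 / 2) : ℝ) ∧ (1 : ℝ) / n ≤ (n : ℝ) ^ (-(1 / 2) : ℝ) := by
  have hn0 : (0 : ℝ) < n := by exact_mod_cast hn
  have hn1 : (1 : ℝ) ≤ n := by exact_mod_cast hn
  have e1 : (n : ℝ) ^ (-(1 / 2) : ℝ) = (n : ℝ) ^ (1 / 2 : ℝ) / n := by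
    have h1 := Real.rpow_sub_one hn0.ne' (1 / 2 : ℝ)
    rw [← h1]
    norm_num
  constructor
  · have h1 := Real.log_le_rpow_div hn0.le (ε := 1 / 2) (by norm_num)
    rw [e1]
    rw [mul_div_assoc', div_le_div_iff_of_pos_right hn0]
    linarith
  · rw [e1, div_le_div_iff_of_pos_right hn0]
    exact Real.one_le_rpow hn1 (by norm_num)

/-- Local measure estimate for the second image. -/
theorem local_measure {P Q : Polynomial ℂ} {D : ℕ} (hP : P.natDegree ≤ D) (hQ : Q.natDegree ≤ D)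
    (h0 : ‖P.coeff 0‖ ≠ ‖Q.coeff 0‖) (hDD : ‖P.coeff D‖ ≠ ‖Q.coeff D‖) {α : ℂ} (hα : α.re ≠ 0)
    {h : ℝ → ℂ} {C τ₀ : ℝ} (hC : 0 < C) (hτ₀ : 0 < τ₀)
    (hh : ∀ τ : ℝ, |τ| ≤ τ₀ → ‖h τ - α * τ‖ ≤ C * τ ^ 2) {A K : ℝ} (hK : 0 < K) :
    ∃ C' δ : ℝ, 0 < C' ∧ 0 < δ ∧ ∃ n₀ : ℕ, ∀ n : ℕ, n₀ ≤ n → ∀ ω : ℂ, ‖ω‖ = 1 →
      volume {x : ℝ | |x| ≤ A * Real.log n ∧ ¬ Good (K * (Real.log n / n))
        (P.eval (ω * Complex.exp (((x / n : ℝ) : ℂ) * Complex.I + n * h (x / n))))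
        (Q.eval (ω * Complex.exp (((x / n : ℝ) : ℂ) * Complex.I + n * h (x / n))))} ≤
      ENNReal.ofReal (C' * (n : ℝ) ^ (-δ)) := by
  obtain ⟨ρ₁, η₁, hρ₁, hη₁, hg₁⟩ := good_near (P := P) (Q := Q) (by
    rwa [← Polynomial.coeff_zero_eq_eval_zero, ← Polynomial.coeff_zero_eq_eval_zero])
  obtain ⟨ρ₂, η₂, hρ₂, hη₂, hg₂⟩ := good_far hP hQ hDD
  set a := α.re with ha
  have ha0 : 0 < |a| := abs_pos.2 hα
  set X₀ : ℝ := (1 + |Real.log ρ₁| + |Real.log ρ₂|) / |a| with hX₀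
  have hX0 : 0 < X₀ := by positivity
  have hX1 : Real.exp (1 - |a| * X₀) ≤ ρ₁ := by
    have : |a| * X₀ = 1 + |Real.log ρ₁| + |Real.log ρ₂| := by
      rw [hX₀]; field_simp
    rw [this, ← Real.exp_log hρ₁, Real.log_exp, Real.exp_le_exp]
    have h1 := neg_abs_le (Real.log ρ₁)
    have h2 := abs_nonneg (Real.log ρ₂)
    linarith
  have hX2 : ρ₂⁻¹ ≤ Real.exp (|a| * X₀ - 1) := by
    have : |a| * X₀ = 1 + |Real.log ρ₁| + |Real.log ρ₂| := by
      rw [hX₀]; field_simp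
    rw [this, ← Real.exp_log hρ₂, ← Real.exp_neg, Real.log_exp, Real.exp_le_exp]
    have h1 := neg_abs_le (Real.log ρ₂)
    have h2 := abs_nonneg (Real.log ρ₁)
    linarith
  set R : ℝ := Real.exp (|a| * X₀ + 1) with hR
  obtain ⟨B₁, L₁, hB₁, hL₁, hPB, hPL⟩ := poly_bound P R
  obtain ⟨B₂, L₂, hB₂, hL₂, hQB, hQL⟩ := poly_bound Q R
  obtain ⟨C₃, hC₃, δ, hδ, ε₀, hε₀, hsub⟩ := sub_G h0 hα hX0
  set B : ℝ := B₁ + B₂ with hB
  have hB0 : 0 ≤ B := by positivity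
  set E : ℝ := X₀ + C * X₀ ^ 2 with hE
  have hE0 : 0 < E := by positivity
  set C₂ : ℝ := 2 * B ^ 2 * K * 2 + 2 * B * (L₁ + L₂) * (R * (2 * E)) + 1 with hC₂
  have hC20 : 0 < C₂ := by positivity
  refine ⟨C₃ * C₂ ^ δ, δ / 2, by positivity, by positivity, ?_⟩
  -- the conditions on `n`
  have hlogn : Tendsto (fun n : ℕ => Real.log n / n) atTop (𝓝 0) := by
    have h1 := Real.tendsto_pow_log_div_mul_add_atTop 1 0 1 one_ne_zero
    simp only [pow_one, one_mul, add_zero] at h1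
    exact h1.comp tendsto_natCast_atTop_atTop
  have hlog2n : Tendsto (fun n : ℕ => Real.log n ^ 2 / n) atTop (𝓝 0) := by
    have h1 := Real.tendsto_pow_log_div_mul_add_atTop 1 0 2 one_ne_zero
    simp only [one_mul, add_zero] at h1
    exact h1.comp tendsto_natCast_atTop_atTop
  have hsmall : ∀ c d : ℝ, 0 < d → ∀ᶠ n : ℕ in atTop, c * (Real.log n / n) < d := by
    intro c d hd
    have h1 := hlogn.const_mul c
    rw [mul_zero] at h1
    exact h1.eventually_lt_const hd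
  have hsmall2 : ∀ c d : ℝ, 0 < d → ∀ᶠ n : ℕ in atTop, c * (Real.log n ^ 2 / n) < d := by
    intro c d hd
    have h1 := hlog2n.const_mul c
    rw [mul_zero] at h1
    exact h1.eventually_lt_const hd
  have hhalf : Tendsto (fun n : ℕ => (n : ℝ) ^ (-(1 / 2) : ℝ)) atTop (𝓝 0) :=
    (tendsto_rpow_neg_atTop (by norm_num : (0 : ℝ) < 1 / 2)).comp tendsto_natCast_atTop_atTop
  have hε : ∀ᶠ n : ℕ in atTop, C₂ * (n : ℝ) ^ (-(1 / 2) : ℝ) < ε₀ := by
    have h1 := hhalf.const_mul C₂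
    rw [mul_zero] at h1
    exact h1.eventually_lt_const hε₀
  have hall := (hsmall A τ₀ hτ₀).and ((hsmall A (1 / 2) (by norm_num)).and
    ((hsmall2 (C * A ^ 2) (1 / 2) (by norm_num)).and ((hsmall K η₁ hη₁).and
    ((hsmall K η₂ hη₂).and (hε.and (eventually_ge_atTop 1))))))
  obtain ⟨n₀, hn₀⟩ := eventually_atTop.1 hall
  refine ⟨n₀, fun n hn ω hω => ?_⟩
  obtain ⟨c1, c2, c3, c4, c5, c6, hn1⟩ := hn₀ n hn
  have hn0 : (0 : ℝ) < n := by exact_mod_cast hn1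
  have hn1' : (1 : ℝ) ≤ n := by exact_mod_cast hn1
  have hlog0 : 0 ≤ Real.log n := Real.log_nonneg hn1'
  set εn : ℝ := C₂ * (n : ℝ) ^ (-(1 / 2) : ℝ) with hεn
  have hpow0 : 0 < (n : ℝ) ^ (-(1 / 2) : ℝ) := Real.rpow_pos_of_pos hn0 _
  have hεn0 : 0 < εn := by positivity
  have hmain := hsub ω hω εn hεn0 c6
  have hfin : C₃ * εn ^ δ = C₃ * C₂ ^ δ * (n : ℝ) ^ (-(δ / 2)) := by
    rw [hεn, Real.mul_rpow hC20.le hpow0.le, ← Real.rpow_mul hn0.le]
    rw [show (-(1 / 2) : ℝ) * δ = -(δ / 2) by ring]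
    ring
  rw [← hfin]
  refine (measure_mono ?_).trans hmain
  rintro x ⟨hx, hbad⟩
  rw [Set.mem_ofPred_eq]
  set u : ℂ := ω * Complex.exp (((x / n : ℝ) : ℂ) * Complex.I + n * h (x / n)) with hu
  set err : ℂ := ((x / n : ℝ) : ℂ) * Complex.I + n * h (x / n) - α * x with herr
  have hxn : |x / n| ≤ τ₀ := by
    rw [abs_div, abs_of_pos hn0, div_le_iff₀ hn0]
    have h1 : A * Real.log n < τ₀ * n := by
      rw [← mul_div_assoc, div_lt_iff₀ hn0] at c1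
      exact c1
    linarith
  have herr1 : ‖err‖ ≤ (|x| + C * x ^ 2) / n := by
    have h1 : err = ((x / n : ℝ) : ℂ) * Complex.I + n * (h (x / n) - α * ((x / n : ℝ) : ℂ)) := by
      rw [herr]
      have h2 : (n : ℂ) * (α * ((x / n : ℝ) : ℂ)) = α * x := by
        have : (n : ℂ) ≠ 0 := by exact_mod_cast hn0.ne'
        push_cast
        field_simp
      rw [mul_sub, h2]
      ring
    rw [h1]
    have h2 := hh (x / n) hxn
    calc ‖((x / n : ℝ) : ℂ) * Complex.I + n * (h (x / n) - α * ((x / n : ℝ) : ℂ))‖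
        ≤ ‖((x / n : ℝ) : ℂ) * Complex.I‖ + ‖(n : ℂ) * (h (x / n) - α * ((x / n : ℝ) : ℂ))‖ :=
          norm_add_le _ _
      _ ≤ |x| / n + n * (C * (x / n) ^ 2) := by
          apply add_le_add
          · rw [norm_mul, Complex.norm_I, mul_one, Complex.norm_real, Real.norm_eq_abs, abs_div,
              abs_of_pos hn0]
          · rw [norm_mul, Complex.norm_natCast]
            exact mul_le_mul_of_nonneg_left h2 hn0.le
      _ = (|x| + C * x ^ 2) / n := by field_simp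
  have herr2 : ‖err‖ ≤ 1 := by
    refine herr1.trans ?_
    rw [div_le_iff₀ hn0, one_mul]
    have h1 : A * Real.log n < 1 / 2 * n := by
      rw [← mul_div_assoc, div_lt_iff₀ hn0] at c2
      exact c2
    have h2 : C * A ^ 2 * Real.log n ^ 2 < 1 / 2 * n := by
      rw [← mul_div_assoc, div_lt_iff₀ hn0] at c3
      exact c3
    have h3 : x ^ 2 ≤ (A * Real.log n) ^ 2 := by
      rw [← sq_abs x]
      exact pow_le_pow_left₀ (abs_nonneg _) hx 2
    have h4 : C * x ^ 2 ≤ C * A ^ 2 * Real.log n ^ 2 := by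
      have := mul_le_mul_of_nonneg_left h3 hC.le
      calc C * x ^ 2 ≤ C * (A * Real.log n) ^ 2 := this
        _ = C * A ^ 2 * Real.log n ^ 2 := by ring
    linarith
  have hu1 : u = ω * Complex.exp (α * x) * Complex.exp err := by
    rw [hu, mul_assoc, ← Complex.exp_add, herr]
    congr 2
    ring
  have hnorm : ‖u‖ = Real.exp (a * x + err.re) := by
    rw [hu1, norm_mul, norm_mul, hω, one_mul, Complex.norm_exp, Complex.norm_exp, ← Real.exp_add,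
      Complex.re_mul_ofReal, ← ha]
  have hre : |err.re| ≤ 1 := (Complex.abs_re_le_norm _).trans herr2
  have hre' := abs_le.1 hre
  by_cases hxX : |x| ≤ X₀
  · refine ⟨hxX, ?_⟩
    set u₀ : ℂ := ω * Complex.exp (α * x) with hu₀
    have hax : |a * x| ≤ |a| * X₀ := by
      rw [abs_mul]; exact mul_le_mul_of_nonneg_left hxX (abs_nonneg _)
    have hax' := abs_le.1 hax
    have hun : ‖u‖ ≤ R := by
      rw [hnorm, hR, Real.exp_le_exp]
      linarith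
    have hu₀n : ‖u₀‖ ≤ R := by
      rw [hu₀, norm_mul, hω, one_mul, Complex.norm_exp, Complex.re_mul_ofReal, hR,
        Real.exp_le_exp, ← ha]
      linarith
    have hdist : ‖u - u₀‖ ≤ R * (2 * E) * (1 / n) := by
      have h1 : u - u₀ = u₀ * (Complex.exp err - 1) := by rw [hu1]; ring
      rw [h1, norm_mul]
      have h2 := Complex.norm_exp_sub_one_le herr2
      have h3 : ‖err‖ ≤ E / n := by
        refine herr1.trans ?_
        apply div_le_div_of_nonneg_right _ hn0.le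
        rw [hE]
        have h4 : x ^ 2 ≤ X₀ ^ 2 := by
          rw [← sq_abs x]
          exact pow_le_pow_left₀ (abs_nonneg _) hxX 2
        nlinarith
      calc ‖u₀‖ * ‖Complex.exp err - 1‖ ≤ R * (2 * (E / n)) := by
            apply mul_le_mul hu₀n (h2.trans (by linarith)) (norm_nonneg _) (Real.exp_pos _).le
        _ = R * (2 * E) * (1 / n) := by ring
    have hη0 : 0 ≤ K * (Real.log n / n) := by positivity
    have hGu := G_of_not_good (B := B) hη0 ((hPB u hun).trans (by linarith))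
      ((hQB u hun).trans (by linarith)) hbad
    have hGdiff : |G P Q u - G P Q u₀| ≤ 2 * B * (L₁ + L₂) * ‖u - u₀‖ := by
      have hone : ∀ T : Polynomial ℂ, ∀ b l : ℝ, 0 ≤ b → 0 ≤ l → ‖T.eval u‖ ≤ b → ‖T.eval u₀‖ ≤ b →
          ‖T.eval u - T.eval u₀‖ ≤ l * ‖u - u₀‖ →
          |‖T.eval u‖ ^ 2 - ‖T.eval u₀‖ ^ 2| ≤ 2 * b * l * ‖u - u₀‖ := by
        intro T b l hb hl h1 h2 h3
        have h4 : |‖T.eval u‖ - ‖T.eval u₀‖| ≤ l * ‖u - u₀‖ := (abs_norm_sub_norm_le _ _).trans h3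
        have h5 : |‖T.eval u‖ ^ 2 - ‖T.eval u₀‖ ^ 2| =
            |‖T.eval u‖ - ‖T.eval u₀‖| * (‖T.eval u‖ + ‖T.eval u₀‖) := by
          rw [show ‖T.eval u‖ ^ 2 - ‖T.eval u₀‖ ^ 2 =
            (‖T.eval u‖ - ‖T.eval u₀‖) * (‖T.eval u‖ + ‖T.eval u₀‖) by ring, abs_mul,
            abs_of_nonneg (by positivity : 0 ≤ ‖T.eval u‖ + ‖T.eval u₀‖)]
        rw [h5]
        calc |‖T.eval u‖ - ‖T.eval u₀‖| * (‖T.eval u‖ + ‖T.eval u₀‖)
            ≤ (l * ‖u - u₀‖) * (b + b) := by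
              apply mul_le_mul h4 (by linarith) (by positivity) (by positivity)
          _ = 2 * b * l * ‖u - u₀‖ := by ring
      have h1 := hone P B₁ L₁ hB₁ hL₁ (hPB u hun) (hPB u₀ hu₀n) (hPL u u₀ hun hu₀n)
      have h2 := hone Q B₂ L₂ hB₂ hL₂ (hQB u hun) (hQB u₀ hu₀n) (hQL u u₀ hun hu₀n)
      have h3 : |G P Q u - G P Q u₀| ≤ |‖P.eval u‖ ^ 2 - ‖P.eval u₀‖ ^ 2| +
          |‖Q.eval u‖ ^ 2 - ‖Q.eval u₀‖ ^ 2| := by
        unfold G
        rw [show ‖P.eval u‖ ^ 2 - ‖Q.eval u‖ ^ 2 - (‖P.eval u₀‖ ^ 2 - ‖Q.eval u₀‖ ^ 2) =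
          (‖P.eval u‖ ^ 2 - ‖P.eval u₀‖ ^ 2) - (‖Q.eval u‖ ^ 2 - ‖Q.eval u₀‖ ^ 2) by ring]
        exact abs_sub _ _
      have hnn := norm_nonneg (u - u₀)
      have h4 : 2 * B₁ * L₁ * ‖u - u₀‖ + 2 * B₂ * L₂ * ‖u - u₀‖ ≤
          2 * B * (L₁ + L₂) * ‖u - u₀‖ := by
        rw [← add_mul]
        apply mul_le_mul_of_nonneg_right _ hnn
        rw [hB]
        have e1 := mul_nonneg hB₁ hL₂
        have e2 := mul_nonneg hB₂ hL₁
        have e3 : 2 * (B₁ + B₂) * (L₁ + L₂) = 2 * B₁ * L₁ + 2 * B₂ * L₂ + 2 * (B₁ * L₂) +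
          2 * (B₂ * L₁) := by ring
        linarith
      linarith
    have hGu₀ : |G P Q u₀| ≤ |G P Q u| + |G P Q u - G P Q u₀| := by
      have := abs_sub_abs_le_abs_sub (G P Q u₀) (G P Q u)
      rw [abs_sub_comm (G P Q u₀) (G P Q u)] at this
      linarith
    obtain ⟨hl1, hl2⟩ := log_div_le hn1
    have h5 : |G P Q u| ≤ 2 * B ^ 2 * K * 2 * (n : ℝ) ^ (-(1 / 2) : ℝ) := by
      refine hGu.trans ?_
      have : 2 * B ^ 2 * (K * (Real.log n / n)) ≤ 2 * B ^ 2 * (K * (2 * (n : ℝ) ^ (-(1 / 2) : ℝ))) := by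
        gcongr
      linarith
    have h6 : |G P Q u - G P Q u₀| ≤ 2 * B * (L₁ + L₂) * (R * (2 * E)) * (n : ℝ) ^ (-(1 / 2) : ℝ) := by
      refine hGdiff.trans ?_
      calc 2 * B * (L₁ + L₂) * ‖u - u₀‖ ≤ 2 * B * (L₁ + L₂) * (R * (2 * E) * (1 / n)) := by gcongr
        _ ≤ 2 * B * (L₁ + L₂) * (R * (2 * E) * (n : ℝ) ^ (-(1 / 2) : ℝ)) := by
            have hR0 : 0 < R := Real.exp_pos _
            gcongr
        _ = _ := by ring
    have h7 : εn = 2 * B ^ 2 * K * 2 * (n : ℝ) ^ (-(1 / 2) : ℝ) +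
        2 * B * (L₁ + L₂) * (R * (2 * E)) * (n : ℝ) ^ (-(1 / 2) : ℝ) +
        (n : ℝ) ^ (-(1 / 2) : ℝ) := by
      rw [hεn, hC₂]; ring
    rw [h7]
    linarith
  · exfalso
    push Not at hxX
    apply hbad
    rcases le_or_gt (a * x) 0 with hs | hs
    · have h1 : a * x ≤ -(|a| * X₀) := by
        have : a * x = -(|a| * |x|) := by
          rw [← abs_mul, abs_of_nonpos hs, neg_neg]
        rw [this]
        have := mul_le_mul_of_nonneg_left hxX.le (abs_nonneg a)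
        linarith
      refine (hg₁ u ?_).mono c4.le
      rw [hnorm]
      refine le_trans (Real.exp_le_exp.2 ?_) hX1
      linarith
    · have h1 : |a| * X₀ ≤ a * x := by
        have : a * x = |a| * |x| := by
          rw [← abs_mul, abs_of_pos hs]
        rw [this]
        exact mul_le_mul_of_nonneg_left hxX.le (abs_nonneg a)
      refine (hg₂ u ?_).mono c5.le
      rw [hnorm]
      refine le_trans hX2 (Real.exp_le_exp.2 ?_)
      linarith

end Pool.Agent.TH433.MC
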