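import Pool.Agent.TH433.MC4

/-!
# The second image of a critical value: almost every rotation
-/

set_option autoImplicit false

open Set MeasureTheory Filter Topology

namespace Pool.Agent.TH433.MC

open Pool.Agent.H462R2.AP Pool.Agent.H762R2.Rt Pool.Agent.Helper114.Herman

/-- The `n`-th power of the rotated value. -/
noncomputable def th (n : ℕ) (v : ℂ) (t : ℝ) : ℂ := (Complex.exp (t * Complex.I) * v) ^ n

/-- Both the first and the second image of the rotated value are close to the unit circle. -/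
def Bad (P Q : Polynomial ℂ) (η : ℝ) (n : ℕ) (v : ℂ) (t : ℝ) : Prop :=
  ¬ Good η (P.eval (th n v t)) (Q.eval (th n v t)) ∧
    ¬ Good η
      (P.eval ((Complex.exp (t * Complex.I) * (P.eval (th n v t) / Q.eval (th n v t))) ^ n))
      (Q.eval ((Complex.exp (t * Complex.I) * (P.eval (th n v t) / Q.eval (th n v t))) ^ n))

theorem summable_pow {δ : ℝ} (hδ : 0 < δ) (C : ℝ) :
    Summable fun n : ℕ => C * (n : ℝ) ^ (-(1 + δ)) :=
  (Real.summable_nat_rpow.2 (by linarith)).mul_left C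

/-- Borel-Cantelli with a polynomial rate. -/
theorem ae_of_rate {S : ℕ → Set ℝ} {C δ : ℝ} (hδ : 0 < δ) {n₀ : ℕ}
    (h : ∀ n, n₀ ≤ n → volume (S n) ≤ ENNReal.ofReal (C * (n : ℝ) ^ (-(1 + δ)))) :
    ∀ᵐ t : ℝ, ∀ᶠ n : ℕ in atTop, t ∉ S n := by
  have h1 : ∑' n, volume (S (n + n₀)) ≠ ⊤ := by
    have hsum := (summable_nat_add_iff n₀).2 (summable_pow hδ C)
    have h2 : ∑' n, volume (S (n + n₀)) ≤
        ∑' n : ℕ, ENNReal.ofReal (C * ((n + n₀ : ℕ) : ℝ) ^ (-(1 + δ))) :=
      ENNReal.tsum_le_tsum fun n => h (n + n₀) (Nat.le_add_left _ _)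
    refine ne_top_of_le_ne_top ?_ h2
    exact hsum.tsum_ofReal_ne_top
  filter_upwards [ae_eventually_notMem h1] with t ht
  obtain ⟨N, hN⟩ := eventually_atTop.1 ht
  refine eventually_atTop.2 ⟨N + n₀, fun n hn => ?_⟩
  have := hN (n - n₀) (by omega)
  rwa [Nat.sub_add_cancel (by omega)] at this

theorem preimage_affine {Y : Set ℝ} {a b : ℝ} (ha : 0 < a) :
    volume {t : ℝ | a * t + b ∈ Y} = ENNReal.ofReal a⁻¹ * volume Y := by
  have h1 : {t : ℝ | a * t + b ∈ Y} = (fun t => a * t) ⁻¹' ((fun y => b + y) ⁻¹' Y) := by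
    ext t
    simp [add_comm]
  rw [h1, Real.volume_preimage_mul_left ha.ne', measure_preimage_add, abs_of_pos (inv_pos.2 ha)]

/-- The returns near one crossing point. -/
theorem count_returns {Y : Set ℝ} {n : ℕ} (hn : 1 ≤ n) {β z M : ℝ} (hβ : |β| ≤ 4) (hz : |z| ≤ 4)
    (hM : 0 ≤ M) (hY : ∀ x ∈ Y, |x| ≤ n) :
    volume {t : ℝ | |t| ≤ M ∧ ∃ k : ℤ, n * (n * (t + β) - z - 2 * Real.pi * k) ∈ Y} ≤
      ENNReal.ofReal ((2 * M + 30) * (n : ℝ)⁻¹) * volume Y := by
  have hn0 : (0 : ℝ) < n := by exact_mod_cast hn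
  have hn1 : (1 : ℝ) ≤ n := by exact_mod_cast hn
  have hpi := Real.pi_gt_three
  set N : ℕ := ⌈(M + 9) * n⌉₊ with hN
  have hN1 : (M + 9) * n ≤ N := Nat.le_ceil _
  have hN2 : (N : ℝ) < (M + 9) * n + 1 := Nat.ceil_lt_add_one (by positivity)
  have hsub : {t : ℝ | |t| ≤ M ∧ ∃ k : ℤ, n * (n * (t + β) - z - 2 * Real.pi * k) ∈ Y} ⊆
      ⋃ k ∈ Finset.Icc (-(N : ℤ)) N,
        {t : ℝ | ((n : ℝ) * n) * t + n * (n * β - z - 2 * Real.pi * k) ∈ Y} := by
    rintro t ⟨ht, k, hk⟩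
    rw [Set.mem_iUnion₂]
    have hk' := hY _ hk
    rw [abs_mul, abs_of_pos hn0] at hk'
    have h1 : |n * (t + β) - z - 2 * Real.pi * k| ≤ 1 := by
      by_contra hcon
      push Not at hcon
      nlinarith
    have ht' := abs_le.1 ht
    have hβ' := abs_le.1 hβ
    have hz' := abs_le.1 hz
    have h1' := abs_le.1 h1
    have h2 : |n * (t + β)| ≤ n * (M + 4) := by
      rw [abs_mul, abs_of_pos hn0]
      apply mul_le_mul_of_nonneg_left _ hn0.le
      rw [abs_le]; constructor <;> linarith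
    have h2' := abs_le.1 h2
    have h3 : |2 * Real.pi * (k : ℝ)| ≤ (M + 9) * n := by
      rw [abs_le]
      constructor <;> nlinarith
    have h4 : |(k : ℝ)| ≤ (M + 9) * n := by
      rw [abs_mul, abs_of_pos (by positivity : 0 < 2 * Real.pi)] at h3
      have := abs_nonneg (k : ℝ)
      nlinarith
    have h5 : |(k : ℝ)| ≤ N := h4.trans hN1
    have h6 := abs_le.1 h5
    refine ⟨k, ?_, ?_⟩
    · rw [Finset.mem_Icc]
      constructor
      · have : ((-(N : ℤ) : ℤ) : ℝ) ≤ k := by push_cast; exact h6.1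
        exact_mod_cast this
      · have : (k : ℝ) ≤ ((N : ℤ) : ℝ) := by push_cast; exact h6.2
        exact_mod_cast this
    · rw [Set.mem_ofPred_eq]
      convert hk using 1
      ring
  refine (measure_mono hsub).trans ((measure_biUnion_finset_le _ _).trans ?_)
  have hone : ∀ k : ℤ, volume {t : ℝ | ((n : ℝ) * n) * t + n * (n * β - z - 2 * Real.pi * k) ∈ Y} =
      ENNReal.ofReal ((n : ℝ) * n)⁻¹ * volume Y := fun k => preimage_affine (by positivity)
  simp only [hone]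
  rw [Finset.sum_const, nsmul_eq_mul, ← mul_assoc]
  apply mul_le_mul_left
  have hcard : ((Finset.Icc (-(N : ℤ)) N).card : ENNReal) = ENNReal.ofReal (2 * N + 1) := by
    rw [Int.card_Icc]
    have : ((N : ℤ) + 1 - (-(N : ℤ))).toNat = 2 * N + 1 := by omega
    rw [this, ← ENNReal.ofReal_natCast]
    push_cast
    rfl
  rw [hcard, ← ENNReal.ofReal_mul (by positivity)]
  apply ENNReal.ofReal_le_ofReal
  rw [mul_inv, ← mul_assoc]
  apply mul_le_mul_of_nonneg_right _ (by positivity)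
  rw [← div_eq_mul_inv, div_le_iff₀ hn0]
  nlinarith

end Pool.Agent.TH433.MC
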