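import Pool.Agent.TH433.MC5

/-!
# The second image of a critical value: almost every rotation, conclusion
-/

set_option autoImplicit false

open Set MeasureTheory Filter Topology

namespace Pool.Agent.TH433.MC

open Pool.Agent.H462R2.AP Pool.Agent.H762R2.Rt Pool.Agent.Helper114.Herman

theorem th_eq (n : ℕ) (β t : ℝ) :
    th n (Complex.exp (β * Complex.I)) t = Complex.exp ((n * (t + β) : ℝ) * Complex.I) := by
  unfold th
  rw [← Complex.exp_add, ← Complex.exp_nat_mul]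
  congr 1
  push_cast
  ring

theorem log_div_tendsto (c : ℝ) : Tendsto (fun n : ℕ => c * (Real.log n / n)) atTop (𝓝 0) := by
  have h1 := Real.tendsto_pow_log_div_mul_add_atTop 1 0 1 one_ne_zero
  simp only [pow_one, one_mul, add_zero] at h1
  have h2 := (h1.comp tendsto_natCast_atTop_atTop).const_mul c
  rw [mul_zero] at h2
  exact h2

theorem log_div_lt (c : ℝ) {d : ℝ} (hd : 0 < d) : ∀ᶠ n : ℕ in atTop, c * (Real.log n / n) < d :=
  (log_div_tendsto c).eventually_lt_const hd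

theorem ae_one_zero {P Q : Polynomial ℂ} (hc : IsCoprime P Q) {D : ℕ} (hP : P.natDegree ≤ D)
    (hQ : Q.natDegree ≤ D) (h0 : ‖P.coeff 0‖ ≠ ‖Q.coeff 0‖) (hDD : ‖P.coeff D‖ ≠ ‖Q.coeff D‖)
    (hs : ∀ σ, gc P Q σ = 0 → deriv (gc P Q) σ ≠ 0) {A K : ℝ} (hK : 0 < K)
    {z β M : ℝ} (hz : gc P Q z = 0) (hz4 : |z| ≤ 4) (hβ : |β| ≤ 4) (hM : 0 ≤ M) :
    ∀ᵐ t : ℝ, |t| ≤ M → ∀ᶠ n : ℕ in atTop, ∀ k : ℤ,
      |n * (n * (t + β) - z - 2 * Real.pi * k)| ≤ A * Real.log n →
      ¬ Bad P Q (K * (Real.log n / n)) n (Complex.exp (β * Complex.I)) t := by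
  obtain ⟨α, hα, h, C, τ₀, hC, hτ₀, hh⟩ := local_exp hc hz (hs z hz)
  obtain ⟨C', δ, hC', hδ, n₀, hmeas⟩ := local_measure hP hQ h0 hDD hα hC hτ₀
    (fun τ hτ => (hh τ hτ).2.2) (A := A) hK
  set e : ℂ := Complex.exp (z * Complex.I) with he
  set v : ℂ := Complex.exp (β * Complex.I) with hv
  set ρ : ℂ := P.eval e / Q.eval e with hρ
  have hen : ‖e‖ = 1 := Complex.norm_exp_ofReal_mul_I z
  have hvn : ‖v‖ = 1 := Complex.norm_exp_ofReal_mul_I β
  have hv0 : v ≠ 0 := Complex.exp_ne_zero _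
  have heq : ‖P.eval e‖ = ‖Q.eval e‖ := by
    have h1 : ‖P.eval e‖ ^ 2 - ‖Q.eval e‖ ^ 2 = 0 := hz
    exact (pow_left_inj₀ (norm_nonneg _) (norm_nonneg _) two_ne_zero).1 (by linarith)
  have hQe : Q.eval e ≠ 0 := by
    intro h
    rw [h, norm_zero, norm_eq_zero] at heq
    exact (coprime_eval hc e).elim (fun h' => h' heq) (fun h' => h' h)
  have hρn : ‖ρ‖ = 1 := by
    rw [hρ, norm_div, heq, div_self (norm_ne_zero_iff.2 hQe)]
  set ω : ℕ → ℂ := fun n => e * (v⁻¹) ^ n * ρ ^ n with hω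
  have hωn : ∀ n, ‖ω n‖ = 1 := by
    intro n
    rw [hω]
    simp only
    rw [norm_mul, norm_mul, norm_pow, norm_pow, norm_inv, hen, hvn, hρn]
    simp
  set Y : ℕ → Set ℝ := fun n => {x : ℝ | |x| ≤ A * Real.log n ∧ ¬ Good (K * (Real.log n / n))
        (P.eval (ω n * Complex.exp (((x / n : ℝ) : ℂ) * Complex.I + n * h (x / n))))
        (Q.eval (ω n * Complex.exp (((x / n : ℝ) : ℂ) * Complex.I + n * h (x / n))))} with hY
  set S : ℕ → Set ℝ := fun n => {t : ℝ | |t| ≤ M ∧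
    ∃ k : ℤ, n * (n * (t + β) - z - 2 * Real.pi * k) ∈ Y n} with hS
  obtain ⟨n₁, hn₁⟩ := eventually_atTop.1 ((log_div_lt A one_pos).and (eventually_ge_atTop 1))
  have hrate : ∀ n, max n₀ n₁ ≤ n → volume (S n) ≤
      ENNReal.ofReal (((2 * M + 30) * C') * (n : ℝ) ^ (-(1 + δ))) := by
    intro n hn
    obtain ⟨c1, hn1⟩ := hn₁ n ((le_max_right _ _).trans hn)
    have hn0 : (0 : ℝ) < n := by exact_mod_cast hn1
    have h1 := count_returns (Y := Y n) hn1 hβ hz4 hM (by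
      rintro x ⟨hx, _⟩
      rw [← mul_div_assoc, div_lt_iff₀ hn0] at c1
      linarith)
    refine h1.trans ((mul_le_mul_right (hmeas n ((le_max_left _ _).trans hn) (ω n) (hωn n)) _).trans
      (le_of_eq ?_))
    rw [← ENNReal.ofReal_mul (by positivity)]
    congr 1
    rw [neg_add, Real.rpow_add hn0, Real.rpow_neg_one]
    ring
  filter_upwards [ae_of_rate hδ hrate] with t ht htM
  filter_upwards [ht, log_div_lt A hτ₀, eventually_ge_atTop 1] with n hnS c2 hn1 k hk hbad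
  apply hnS
  have hn0 : (0 : ℝ) < n := by exact_mod_cast hn1
  refine ⟨htM, k, hk, ?_⟩
  set τ : ℝ := n * (t + β) - z - 2 * Real.pi * k with hτ
  have hxn : n * τ / n = τ := by field_simp
  rw [hxn]
  have hτ1 : |τ| ≤ τ₀ := by
    rw [abs_mul, abs_of_pos hn0] at hk
    have h1 : |τ| ≤ A * (Real.log n / n) := by
      rw [← mul_div_assoc, le_div_iff₀ hn0]
      linarith
    linarith
  obtain ⟨hb1, hb2⟩ := hbad
  have hth : th n v t = Complex.exp ((z + τ : ℝ) * Complex.I) := by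
    rw [hv, th_eq]
    rw [show (n * (t + β) : ℝ) = (z + τ) + 2 * Real.pi * k by rw [hτ]; ring]
    push_cast
    rw [add_mul ((z : ℂ) + τ), Complex.exp_add]
    rw [show 2 * (Real.pi : ℂ) * k * Complex.I = k * (2 * Real.pi * Complex.I) by ring,
      Complex.exp_int_mul_two_pi_mul_I, mul_one]
  obtain ⟨h1, h2, -⟩ := hh τ hτ1
  have hpow : (Complex.exp (t * Complex.I) * (P.eval (th n v t) / Q.eval (th n v t))) ^ n =
      ω n * Complex.exp ((τ : ℂ) * Complex.I + n * h τ) := by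
    rw [hth, h2, mul_pow, mul_pow, ← Complex.exp_nat_mul (h τ) n]
    have h3 : Complex.exp (t * Complex.I) ^ n = (v⁻¹) ^ n * (e * Complex.exp (τ * Complex.I)) := by
      have h4 : Complex.exp (t * Complex.I) ^ n * v ^ n = e * Complex.exp (τ * Complex.I) := by
        rw [← mul_pow]
        change th n v t = _
        rw [hth, he, ← Complex.exp_add]
        congr 1
        push_cast
        ring
      rw [← h4, inv_pow]
      field_simp
    rw [h3, hω, Complex.exp_add]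
    simp only
    ring
  rw [hpow] at hb2
  exact hb2

/-- For almost every rotation the first or the second image is off the circle for all large
exponents. -/
theorem ae_not_bad {P Q : Polynomial ℂ} (hc : IsCoprime P Q) {D : ℕ} (hP : P.natDegree ≤ D)
    (hQ : Q.natDegree ≤ D) (h0 : ‖P.coeff 0‖ ≠ ‖Q.coeff 0‖) (hDD : ‖P.coeff D‖ ≠ ‖Q.coeff D‖)
    (hs : ∀ σ, gc P Q σ = 0 → deriv (gc P Q) σ ≠ 0) {K : ℝ} (hK : 0 < K) {v : ℂ} (hv : ‖v‖ = 1) :
    ∀ᵐ t : ℝ, ∀ᶠ n : ℕ in atTop, ¬ Bad P Q (K * (Real.log n / n)) n v t := by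
  obtain ⟨B₁, L₁, hB₁, -, hPB, -⟩ := poly_bound P 1
  obtain ⟨B₂, L₂, hB₂, -, hQB, -⟩ := poly_bound Q 1
  set B : ℝ := B₁ + B₂ with hB
  have hB0 : 0 ≤ B := by positivity
  obtain ⟨c, hc0, hz⟩ := zeros_near (continuous_gc P Q) (gc_per_int P Q) hs
  set A : ℝ := 2 * B ^ 2 * K / c with hA
  set β : ℝ := Complex.arg v with hβ
  have hvβ : v = Complex.exp (β * Complex.I) := by
    have := Complex.norm_mul_exp_arg_mul_I v
    rw [hv, Complex.ofReal_one, one_mul] at this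
    exact this.symm
  have harg4 : ∀ w : ℂ, |Complex.arg w| ≤ 4 := by
    intro w
    have := Complex.abs_arg_le_pi w
    have := Real.pi_le_four
    linarith
  -- the crossing points
  have hne : ∃ u : ℂ, ‖u‖ = 1 ∧ ‖P.eval u‖ ≠ ‖Q.eval u‖ := by
    by_contra hcon
    push Not at hcon
    have h1 : gc P Q = fun _ => (0 : ℝ) := by
      funext σ
      unfold gc G
      rw [hcon _ (Complex.norm_exp_ofReal_mul_I σ), sub_self]
    have h2 := hs 0 (by rw [h1])
    rw [h1, deriv_const] at h2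
    exact h2 rfl
  have hfin : (eqSet P Q).Finite := eqSet_finite hne
  set Z : Set ℝ := Complex.arg '' eqSet P Q with hZ
  have hZfin : Z.Finite := hfin.image _
  have hZ0 : ∀ z ∈ Z, gc P Q z = 0 := by
    rintro _ ⟨w, ⟨hw1, hw2⟩, rfl⟩
    have h1 := Complex.norm_mul_exp_arg_mul_I w
    rw [hw1, Complex.ofReal_one, one_mul] at h1
    unfold gc G
    rw [h1, hw2, sub_self]
  have hM : ∀ M : ℕ, ∀ᵐ t : ℝ, |t| ≤ M → ∀ᶠ n : ℕ in atTop,
      ¬ Bad P Q (K * (Real.log n / n)) n v t := by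
    intro M
    have h1 : ∀ z ∈ Z, ∀ᵐ t : ℝ, |t| ≤ (M : ℝ) → ∀ᶠ n : ℕ in atTop, ∀ k : ℤ,
        |n * (n * (t + β) - z - 2 * Real.pi * k)| ≤ A * Real.log n →
        ¬ Bad P Q (K * (Real.log n / n)) n (Complex.exp (β * Complex.I)) t := by
      intro z hzZ
      refine ae_one_zero hc hP hQ h0 hDD hs hK (hZ0 z hzZ) ?_ (harg4 v) (Nat.cast_nonneg M)
      obtain ⟨w, -, rfl⟩ := hzZ
      exact harg4 w
    have h2 := (ae_ball_iff hZfin.countable).2 h1
    filter_upwards [h2] with t ht htM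
    have h3 : ∀ᶠ n : ℕ in atTop, ∀ z ∈ Z, ∀ k : ℤ,
        |n * (n * (t + β) - z - 2 * Real.pi * k)| ≤ A * Real.log n →
        ¬ Bad P Q (K * (Real.log n / n)) n (Complex.exp (β * Complex.I)) t :=
      (Filter.eventually_all_finite hZfin).2 fun z hzZ => ht z hzZ htM
    filter_upwards [h3, log_div_lt (2 * B ^ 2 * K) hc0, eventually_ge_atTop 1] with n hn c1 hn1 hbad
    have hn0 : (0 : ℝ) < n := by exact_mod_cast hn1
    have hn1' : (1 : ℝ) ≤ n := by exact_mod_cast hn1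
    have hlog0 : 0 ≤ Real.log n := Real.log_nonneg hn1'
    set σ : ℝ := n * (t + β) with hσ
    have hth : th n v t = Complex.exp (σ * Complex.I) := by
      rw [hvβ, th_eq]
    have hnorm : ‖th n v t‖ ≤ 1 := by
      rw [hth, Complex.norm_exp_ofReal_mul_I]
    have hg := G_of_not_good (B := B) (by positivity : 0 ≤ K * (Real.log n / n))
      ((hPB _ hnorm).trans (by linarith)) ((hQB _ hnorm).trans (by linarith)) hbad.1
    have hgσ : |gc P Q σ| ≤ 2 * B ^ 2 * K * (Real.log n / n) := by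
      unfold gc
      rw [← hth]
      linarith
    obtain ⟨σ₁, hσ₁, hdist⟩ := hz σ (hgσ.trans_lt c1)
    set e₁ : ℂ := Complex.exp (σ₁ * Complex.I) with he₁
    have he₁n : ‖e₁‖ = 1 := Complex.norm_exp_ofReal_mul_I σ₁
    have he₁E : e₁ ∈ eqSet P Q := by
      refine ⟨he₁n, ?_⟩
      have h1 : ‖P.eval e₁‖ ^ 2 - ‖Q.eval e₁‖ ^ 2 = 0 := hσ₁
      exact (pow_left_inj₀ (norm_nonneg _) (norm_nonneg _) two_ne_zero).1 (by linarith)
    have hexp : Complex.exp ((Complex.arg e₁ : ℝ) * Complex.I) = e₁ := by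
      have := Complex.norm_mul_exp_arg_mul_I e₁
      rwa [he₁n, Complex.ofReal_one, one_mul] at this
    rw [he₁, Complex.exp_eq_exp_iff_exists_int] at hexp
    obtain ⟨k, hk⟩ := hexp
    have hk' : σ₁ = Complex.arg e₁ + 2 * Real.pi * (-k : ℤ) := by
      have hI : Complex.I ≠ 0 := Complex.I_ne_zero
      have h5 : ((Complex.arg e₁ : ℝ) : ℂ) = σ₁ + k * (2 * Real.pi) := by
        apply mul_right_cancel₀ hI
        rw [hk]
        ring
      have h6 : Complex.arg e₁ = σ₁ + k * (2 * Real.pi) := by exact_mod_cast h5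
      rw [h6]
      push_cast
      ring
    refine hn (Complex.arg e₁) ⟨e₁, he₁E, rfl⟩ (-k) ?_ (hvβ ▸ hbad)
    have h7 : n * (t + β) - Complex.arg e₁ - 2 * Real.pi * ((-k : ℤ) : ℝ) = σ - σ₁ := by
      rw [hk', hσ]; ring
    rw [h7, abs_mul, abs_of_pos hn0]
    have h8 : |σ - σ₁| ≤ A * Real.log n / n := by
      refine hdist.trans ?_
      rw [div_le_iff₀ hc0]
      refine hgσ.trans (le_of_eq ?_)
      rw [hA]
      field_simp
    rw [le_div_iff₀ hn0] at h8
    linarith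
  have hall := ae_all_iff.2 hM
  filter_upwards [hall] with t ht
  obtain ⟨M, hM⟩ := exists_nat_ge |t|
  exact ht M hM

end Pool.Agent.TH433.MC
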