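import Pool.Agent.H462R2.AP3

/-!
# The maps `s P(z ^ n) / Q(z ^ n)`: the trap at logarithmic distance from the circle
-/

set_option autoImplicit false

open Set Filter Topology
open scoped OnePoint

namespace Pool.Agent.TH433.MC

open Pool.Agent.H462R2.AP Pool.Agent.H762R2.Rt Pool.Agent.Helper114.Herman
  Pool.Agent.Helper114.Konig

theorem cp_smul (D : ℕ) (s : ℂ) (P : Polynomial ℂ) (i : Bool) :
    cp D (Polynomial.C s * P) i = Polynomial.C s * cp D P i := by
  cases i
  · rw [cp_false, cp_false]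
  · simp only [cp, if_true, Polynomial.coeff_C_mul, Polynomial.C_mul, Finset.mul_sum]
    exact Finset.sum_congr rfl fun k _ => by ring

theorem t_le {K : ℝ} (hK : 20 ≤ K) {n : ℕ} (hn : 2 ≤ n) :
    (n : ℝ) ^ 2 * Real.exp (-(K * (Real.log n / n) / 2)) ^ (n - 1) ≤ 1 / (n : ℝ) ^ 3 := by
  have hn0 : (0 : ℝ) < n := by exact_mod_cast (by omega : 0 < n)
  have hn2 : (2 : ℝ) ≤ n := by exact_mod_cast hn
  have hlog0 : 0 ≤ Real.log n := Real.log_nonneg (by linarith)
  have h1 : Real.exp (-(K * (Real.log n / n) / 2)) ^ (n - 1) ≤ Real.exp (-(5 * Real.log n)) := by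
    rw [← Real.exp_nat_mul, Real.exp_le_exp]
    rw [Nat.cast_sub (by omega : 1 ≤ n), Nat.cast_one]
    have h2 : 5 * Real.log n ≤ (n - 1) * (20 * (Real.log n / n) / 2) := by
      have h3 : (n - 1) * (20 * (Real.log n / n) / 2) = 10 * Real.log n * ((n - 1) / n) := by
        field_simp
        ring
      have h4 : (1 : ℝ) / 2 ≤ (n - 1) / n := by
        rw [le_div_iff₀ hn0]; linarith
      rw [h3]
      nlinarith
    have h5 : ((n : ℝ) - 1) * (20 * (Real.log n / n) / 2) ≤ (n - 1) * (K * (Real.log n / n) / 2) := by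
      apply mul_le_mul_of_nonneg_left _ (by linarith)
      have : 0 ≤ Real.log n / n := by positivity
      nlinarith
    linarith
  have h6 : Real.exp (-(5 * Real.log n)) = 1 / (n : ℝ) ^ 5 := by
    rw [Real.exp_neg, show (5 : ℝ) * Real.log n = ((5 : ℕ) : ℝ) * Real.log n by norm_num,
      ← Real.log_pow, Real.exp_log (by positivity), one_div]
  calc (n : ℝ) ^ 2 * Real.exp (-(K * (Real.log n / n) / 2)) ^ (n - 1)
      ≤ (n : ℝ) ^ 2 * (1 / (n : ℝ) ^ 5) := by
        rw [← h6]; exact mul_le_mul_of_nonneg_left h1 (by positivity)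
    _ = 1 / (n : ℝ) ^ 3 := by
        field_simp

theorem eps_ge {K : ℝ} (hK : 20 ≤ K) : ∀ᶠ n : ℕ in atTop,
    1 / (n : ℝ) ≤ Real.exp (-(K * (Real.log n / n) / 2)) *
      (1 - Real.exp (-(K * (Real.log n / n) / 2))) := by
  have h1 : Tendsto (fun n : ℕ => K * (Real.log n / n)) atTop (𝓝 0) := by
    have h1 := Real.tendsto_pow_log_div_mul_add_atTop 1 0 1 one_ne_zero
    simp only [pow_one, one_mul, add_zero] at h1
    have h2 := (h1.comp tendsto_natCast_atTop_atTop).const_mul K
    rw [mul_zero] at h2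
    exact h2
  filter_upwards [h1.eventually_lt_const (by norm_num : (0 : ℝ) < 1), eventually_ge_atTop 3]
    with n hlt hn3
  have hn0 : (0 : ℝ) < n := by exact_mod_cast (by omega : 0 < n)
  have hn3' : (3 : ℝ) ≤ n := by exact_mod_cast hn3
  have hlog1 : 1 ≤ Real.log n := by
    rw [Real.le_log_iff_exp_le hn0]
    have := Real.exp_one_lt_d9
    linarith
  set x : ℝ := K * (Real.log n / n) / 2 with hx
  have hx0 : 10 / n ≤ x := by
    rw [hx, div_le_iff₀ hn0]
    have : K * (Real.log n / n) / 2 * n = K * Real.log n / 2 := by field_simp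
    rw [this]
    nlinarith
  have hx00 : 0 < x := lt_of_lt_of_le (by positivity) hx0
  have hx1 : x ≤ 1 / 2 := by rw [hx]; linarith
  have h2 : 1 / 2 ≤ Real.exp (-x) := by
    have := Real.add_one_le_exp (-x)
    linarith
  have h3 : x / 2 ≤ 1 - Real.exp (-x) := by
    have h4 : Real.exp (-x) ≤ 1 - x / 2 := by
      rw [Real.exp_neg, inv_le_comm₀ (Real.exp_pos _) (by linarith)]
      have h5 := Real.add_one_le_exp x
      refine le_trans ?_ h5
      rw [inv_le_comm₀ (by linarith) (by linarith)]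
      rw [inv_le_comm₀ (by linarith) (by linarith), inv_eq_one_div, div_le_iff₀ (by linarith)]
      nlinarith
    linarith
  calc 1 / (n : ℝ) ≤ 1 / 2 * ((10 / n) / 2) := by
        rw [div_le_iff₀ hn0]
        field_simp
        norm_num
    _ ≤ Real.exp (-x) * (1 - Real.exp (-x)) := by
        apply mul_le_mul h2 (le_trans (by linarith) h3) (by positivity) (by positivity)

/-- The trap. -/
theorem trap {P Q : Polynomial ℂ} (hc : IsCoprime P Q) {D : ℕ}
    (hD : D = max P.natDegree Q.natDegree) (hD1 : 0 < D) {K : ℝ} (hK : 20 ≤ K) :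
    ∃ n₀ : ℕ, ∀ n : ℕ, n₀ ≤ n → ∀ s : ℂ, ‖s‖ = 1 →
      (∀ i : Bool, Cond (Polynomial.C s * P) Q (K * (Real.log n / n)) n
        ((cp D (Polynomial.C s * P) i).eval 0) ((cp D Q i).eval 0)) →
      ∀ f : OnePoint ℂ → OnePoint ℂ,
        IsRat f (Polynomial.expand ℂ n (Polynomial.C s * P)) (Polynomial.expand ℂ n Q) →
        ∀ i x, ‖x‖ ≤ Real.exp (-(K * (Real.log n / n) / 2)) → Sinks f (ch i x) := by
  obtain ⟨μ, hμ, hi, hu⟩ := exists_mu hc hD hD1
  obtain ⟨L, hL0, hL⟩ := lip_all D P Q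
  set Cm : ℝ := L * 4 / μ + L * (3 * (8 * L / μ)) * 4 / μ + L * 2 / μ + 8 * L / μ +
    2 / μ * (2 * L) * 2 + 2 / μ * (2 * L) * (3 * (8 * L / μ)) * 2 + 1 with hCm
  have hCm0 : 0 < Cm := by positivity
  obtain ⟨N, hN⟩ := exists_nat_gt Cm
  obtain ⟨n₁, hn₁⟩ := eventually_atTop.1 ((eps_ge hK).and (eventually_ge_atTop (max 2 N)))
  refine ⟨n₁, fun n hn s hs hcen f hf => ?_⟩
  obtain ⟨heps, hn2⟩ := hn₁ n hn
  have hn2' : 2 ≤ n := (le_max_left _ _).trans hn2
  have hnN : N ≤ n := (le_max_right _ _).trans hn2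
  have hn1 : 1 ≤ n := by omega
  have hn0 : (0 : ℝ) < n := by exact_mod_cast (by omega : 0 < n)
  have hnn2 : (2 : ℝ) ≤ n := by exact_mod_cast hn2'
  have hCn : Cm ≤ n := hN.le.trans (by exact_mod_cast hnN)
  have hlog0 : 0 < Real.log n := Real.log_pos (by linarith)
  set η : ℝ := K * (Real.log n / n) with hη
  have hη0 : 0 < η := by positivity
  set r : ℝ := Real.exp (-(η / 2)) with hr
  have hr0 : 0 < r := Real.exp_pos _
  set t : ℝ := (n : ℝ) ^ 2 * r ^ (n - 1) with ht
  have ht0 : 0 ≤ t := by positivity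
  have htle : t ≤ 1 / (n : ℝ) ^ 3 := t_le hK hn2'
  set ε : ℝ := r * (1 - r) * μ / 4 with hεdef
  have hε1 : 1 / n * μ / 4 ≤ ε := by
    rw [hεdef]
    apply div_le_div_of_nonneg_right _ (by norm_num)
    exact mul_le_mul_of_nonneg_right heps hμ.le
  have hε0 : 0 < ε := lt_of_lt_of_le (by positivity) hε1
  have hε : 4 * ε ≤ Real.exp (-(η / 2)) * (1 - Real.exp (-(η / 2))) * μ := by
    rw [hεdef, ← hr]; linarith
  -- bounds: `a t ≤ b / n`, if `a ≤ Cm b`
  have hb : ∀ a b : ℝ, 0 ≤ b → a ≤ Cm * b → a * t ≤ b / n := by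
    intro a b hb hab
    rcases le_or_gt a 0 with h | h
    · exact (mul_nonpos_of_nonpos_of_nonneg h ht0).trans (by positivity)
    · calc a * t ≤ (Cm * b) * (1 / (n : ℝ) ^ 3) := mul_le_mul hab htle ht0 (by positivity)
        _ ≤ (n * b) * (1 / (n : ℝ) ^ 3) := by gcongr
        _ = b / (n * n) := by field_simp
        _ ≤ b / n := by
            apply div_le_div_of_nonneg_left hb hn0
            nlinarith
  have hb' : ∀ a b : ℝ, 0 ≤ b → a ≤ Cm * b → a * t ≤ b := by
    intro a b hb0 hab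
    refine (hb a b hb0 hab).trans (div_le_self hb0 (by linarith))
  have hnonneg1 : 0 ≤ L * 4 / μ := by positivity
  have hnonneg2 : 0 ≤ L * (3 * (8 * L / μ)) * 4 / μ := by positivity
  have hnonneg3 : 0 ≤ L * 2 / μ := by positivity
  have hnonneg4 : 0 ≤ 8 * L / μ := by positivity
  have hnonneg5 : 0 ≤ 2 / μ * (2 * L) * 2 := by positivity
  have hnonneg6 : 0 ≤ 2 / μ * (2 * L) * (3 * (8 * L / μ)) * 2 := by positivity
  have c1 : L * t ≤ ε := by
    refine (hb L (μ / 4) (by positivity) ?_).trans (le_trans (le_of_eq (by ring)) hε1)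
    have h1 : L = L * 4 / μ * (μ / 4) := by field_simp
    calc L = L * 4 / μ * (μ / 4) := h1
      _ ≤ Cm * (μ / 4) := by
        apply mul_le_mul_of_nonneg_right _ (by positivity)
        rw [hCm]; linarith
  have c4 : L * (3 * (8 * L / μ)) * t ≤ ε := by
    refine (hb (L * (3 * (8 * L / μ))) (μ / 4) (by positivity) ?_).trans
      (le_trans (le_of_eq (by ring)) hε1)
    have h1 : L * (3 * (8 * L / μ)) = L * (3 * (8 * L / μ)) * 4 / μ * (μ / 4) := by field_simp
    calc L * (3 * (8 * L / μ)) = L * (3 * (8 * L / μ)) * 4 / μ * (μ / 4) := h1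
      _ ≤ Cm * (μ / 4) := by
        apply mul_le_mul_of_nonneg_right _ (by positivity)
        rw [hCm]; linarith
  have c2 : L * t ≤ μ / 2 := by
    apply hb' L (μ / 2) (by positivity)
    have h1 : L = L * 2 / μ * (μ / 2) := by field_simp
    calc L = L * 2 / μ * (μ / 2) := h1
      _ ≤ Cm * (μ / 2) := by
        apply mul_le_mul_of_nonneg_right _ (by positivity)
        rw [hCm]; linarith
  have c3 : 8 * L / μ * t ≤ 1 := by
    apply hb' _ 1 zero_le_one
    rw [hCm]; linarith
  have c5 : 2 / μ * (2 * L) * t ≤ 1 / 2 := by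
    apply hb' _ (1 / 2) (by norm_num)
    rw [hCm]; linarith
  have c6 : 2 / μ * (2 * L) * (3 * (8 * L / μ)) * t ≤ 1 / 2 := by
    apply hb' _ (1 / 2) (by norm_num)
    rw [hCm]; linarith
  -- the constants for the rotated map
  have hevs : ∀ i y, (cp D (Polynomial.C s * P) i).eval y = s * (cp D P i).eval y := by
    intro i y
    rw [cp_smul, Polynomial.eval_mul, Polynomial.eval_C]
  have hLs : ∀ i : Bool, ∀ y z : ℂ, ‖y‖ ≤ 3 → ‖z‖ ≤ 3 →
      ‖(cp D (Polynomial.C s * P) i).eval y - (cp D (Polynomial.C s * P) i).eval z‖ ≤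
        L * ‖y - z‖ ∧
      ‖(cp D Q i).eval y - (cp D Q i).eval z‖ ≤ L * ‖y - z‖ := by
    intro i y z hy hz
    refine ⟨?_, (hL i y z hy hz).2⟩
    rw [hevs, hevs, ← mul_sub, norm_mul, hs, one_mul]
    exact (hL i y z hy hz).1
  have his : ∀ i, μ ≤ ‖(cp D (Polynomial.C s * P) i).eval 0‖ ∨ μ ≤ ‖(cp D Q i).eval 0‖ := by
    intro i
    rw [hevs, norm_mul, hs, one_mul]
    exact hi i
  have hus : ∀ u : ℂ, ‖u‖ = 1 → μ ≤ ‖(Polynomial.C s * P).eval u‖ ∨ μ ≤ ‖Q.eval u‖ := by
    intro u hu1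
    rw [Polynomial.eval_mul, Polynomial.eval_C, norm_mul, hs, one_mul]
    exact hu u hu1
  have hs0 : s ≠ 0 := by
    rintro rfl
    rw [norm_zero] at hs
    norm_num at hs
  have hDs : D = max (Polynomial.C s * P).natDegree Q.natDegree := by
    rw [Polynomial.natDegree_C_mul hs0, hD]
  have hfψ := map_ch hDs hD1 (by omega : 0 < n) hf
  have hstep : ∀ i, StepOK (Polynomial.C s * P) Q D r n i := fun i =>
    step_ok hη0 hμ hr hε hε0 hL0 hLs (his i) hus hn1 rfl c1 c2 c3 c4 c5 c6 (hcen i)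
  choose κ h hm hl hor using hstep
  have hconj : ∀ i, ∃ τ : ℕ, 0 < τ ∧ ∀ x : ℂ, ‖x‖ ≤ r → f^[τ] (ch i x) = ch (κ i) (h i x) := by
    intro i
    rcases hor i with h1 | h1
    · refine ⟨1, one_pos, fun x hx => ?_⟩
      rw [Function.iterate_one, hfψ, h1 x hx]
    · refine ⟨2, two_pos, fun x hx => ?_⟩
      obtain ⟨h2, h3⟩ := h1 x hx
      have h4 := hfψ false ((cp D (Polynomial.C s * P) i).eval (x ^ n) /
        (cp D Q i).eval (x ^ n))
      rw [cp_false, cp_false, h3, ch_false] at h4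
      rw [Function.iterate_succ_apply, Function.iterate_one, hfψ, pr_ne h2]
      exact h4
  choose τ hτ0 hτ using hconj
  intro i x hx
  exact two_charts' hf.cont hr0 hτ0 continuous_ch isOpenMap_ch hτ hm hl hx

/-- Points off the circle are attracted. -/
theorem good_sinks {f : OnePoint ℂ → OnePoint ℂ} {η : ℝ} (hη : 0 < η)
    (hS : ∀ i x, ‖x‖ ≤ Real.exp (-(η / 2)) → Sinks f (ch i x)) {p q : ℂ} (hpq : p ≠ 0 ∨ q ≠ 0)
    (hg : Good η p q) : Sinks f (pr p q) := by
  have hexp : Real.exp (-η) ≤ Real.exp (-(η / 2)) := by rw [Real.exp_le_exp]; linarith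
  rcases hg with hg | hg
  · have hq : q ≠ 0 := by
      rintro rfl
      rw [norm_zero, mul_zero] at hg
      exact hpq.elim (fun h => h (norm_le_zero_iff.1 hg)) (fun h => h rfl)
    have hq' : 0 < ‖q‖ := norm_pos_iff.2 hq
    have := hS false (p / q) (by
      rw [norm_div, div_le_iff₀ hq']
      exact hg.trans (mul_le_mul_of_nonneg_right hexp hq'.le))
    rw [ch_false] at this
    rw [pr_ne hq]
    exact this
  · have hp : p ≠ 0 := by
      rintro rfl
      rw [norm_zero, mul_zero] at hg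
      exact hpq.elim (fun h => h rfl) (fun h => h (norm_le_zero_iff.1 hg))
    have hp' : 0 < ‖p‖ := norm_pos_iff.2 hp
    have := hS true (q / p) (by
      rw [norm_div, div_le_iff₀ hp']
      exact hg.trans (mul_le_mul_of_nonneg_right hexp hp'.le))
    simp only [ch_true] at this
    rwa [← pr_ne hp, sinv_pr (Or.inr hp)] at this

/-- Hyperbolicity from the behaviour of the critical values. -/
theorem hyp_of_values {P Q : Polynomial ℂ} (hc : IsCoprime P Q) {D : ℕ}
    (hD : D = max P.natDegree Q.natDegree) (hD1 : 0 < D) {n : ℕ} (hn0 : 0 < n)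
    {f : OnePoint ℂ → OnePoint ℂ}
    (hf : IsRat f (Polynomial.expand ℂ n P) (Polynomial.expand ℂ n Q))
    (hS : ∀ i, Sinks f (ch i 0))
    (hv : ∀ y : ℂ, (wro P Q).eval y = 0 → Sinks f (pr (P.eval y) (Q.eval y))) :
    Hyp (Polynomial.expand ℂ n P) (Polynomial.expand ℂ n Q) := by
  have hcop : IsCoprime (Polynomial.expand ℂ n P) (Polynomial.expand ℂ n Q) := hc.map _
  refine ⟨hcop, f, hf.cont, hf.eval, ?_⟩
  have hfψ := map_ch hD hD1 hn0 hf
  intro c hnot
  induction c using OnePoint.rec with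
  | infty =>
    have e1 : ch true 0 = ∞ := by simp [ch, sinv_zero]
    rw [← e1]
    exact hS true
  | coe z =>
    by_cases hz : z = 0
    · subst hz
      have := hS false
      rwa [ch_false] at this
    have hfz : f (z : OnePoint ℂ) = pr (P.eval (z ^ n)) (Q.eval (z ^ n)) := by
      have h4 := hfψ false z
      rw [cp_false, cp_false, ch_false] at h4
      exact h4
    by_cases hq : Q.eval (z ^ n) = 0
    · apply sinks_of_image hf.cont
      rw [hfz, hq, pr_zero]
      have e1 : ch true 0 = ∞ := by simp [ch, sinv_zero]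
      rw [← e1]
      exact hS true
    by_cases hW : (wro P Q).eval (z ^ n) = 0
    · apply sinks_of_image hf.cont
      rw [hfz]
      exact hv _ hW
    · exfalso
      apply hnot
      set P' := Polynomial.expand ℂ n P with hP'
      set Q' := Polynomial.expand ℂ n Q with hQ'
      have hQ'z : Q'.eval z ≠ 0 := by rwa [hQ', Polynomial.expand_eval]
      have hder := (P'.hasStrictDerivAt z).fun_div (Q'.hasStrictDerivAt z) hQ'z
      have hne : (P'.derivative.eval z * Q'.eval z - P'.eval z * Q'.derivative.eval z) /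
          (Q'.eval z) ^ 2 ≠ 0 := by
        apply div_ne_zero _ (pow_ne_zero _ hQ'z)
        have e1 : P'.derivative.eval z * Q'.eval z - P'.eval z * Q'.derivative.eval z =
            (n * z ^ (n - 1)) * (wro P Q).eval (z ^ n) := by
          rw [hP', hQ', Polynomial.derivative_expand,
            Polynomial.derivative_expand, wro]
          simp only [Polynomial.eval_mul, Polynomial.expand_eval,
            Polynomial.eval_sub, Polynomial.eval_pow, Polynomial.eval_X, Polynomial.eval_natCast]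
          ring
        rw [e1]
        have hnc : (n : ℂ) ≠ 0 := by exact_mod_cast hn0.ne'
        exact mul_ne_zero (mul_ne_zero hnc (pow_ne_zero _ hz)) hW
      obtain ⟨U, hU, hinj⟩ := injOn_of_deriv hder hne
      have hUQ : {x : ℂ | Q'.eval x ≠ 0} ∈ 𝓝 z :=
        (isOpen_ne_fun Q'.continuous continuous_const).mem_nhds hQ'z
      refine ⟨(fun x : ℂ => (x : OnePoint ℂ)) '' (U ∩ {x : ℂ | Q'.eval x ≠ 0}), ?_, ?_⟩
      · exact (OnePoint.isOpenEmbedding_coe (X := ℂ)).isOpenMap.image_mem_nhds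
          (inter_mem hU hUQ)
      · rintro _ ⟨x, ⟨hx, hxQ⟩, rfl⟩ _ ⟨y, ⟨hy, hyQ⟩, rfl⟩ hxy
        simp only at hxy
        rw [hf.eval x hxQ, hf.eval y hyQ, OnePoint.coe_eq_coe] at hxy
        rw [hinj hx hy hxy]

end Pool.Agent.TH433.MC
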