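import Pool.Agent.TH433.MC6
import Pool.Agent.TH433.MC7
import Pool.Agent.TH433.APW2

/-!
# Hyperbolicity for almost every rotation and all large exponents
-/

set_option autoImplicit false

open Set Filter Topology MeasureTheory
open scoped OnePoint

namespace Pool.Agent.TH433.MC

open Pool.Agent.H462R2.AP Pool.Agent.H762R2.Rt Pool.Agent.Helper114.Herman
  Pool.Agent.Helper114.Konig Pool.Agent.TH433.APW

theorem good_smul {η : ℝ} {s p q : ℂ} (hs : ‖s‖ = 1) (h : Good η p q) : Good η (s * p) q := by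
  unfold Good at *
  rwa [norm_mul, hs, one_mul]

theorem good_of_zero {η : ℝ} {p q : ℂ} (hq : q = 0) : Good η p q := by
  right
  rw [hq, norm_zero]
  positivity

/-- Hyperbolicity of the rotated maps, when for no critical value on the circle both the first and
the second image are close to the circle. -/
theorem hyp_of_not_bad {P Q : Polynomial ℂ} (hc : IsCoprime P Q) {D : ℕ}
    (hD : D = max P.natDegree Q.natDegree) (hD1 : 1 ≤ D)
    (h0 : ‖P.coeff 0‖ ≠ ‖Q.coeff 0‖) (hDD : ‖P.coeff D‖ ≠ ‖Q.coeff D‖) :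
    ∃ n₁ : ℕ, ∀ n : ℕ, n₁ ≤ n → ∀ t : ℝ, (∀ y : ℂ, (wro P Q).eval y = 0 →
      ‖P.eval y‖ = ‖Q.eval y‖ → ¬ Bad P Q (20 * (Real.log n / n)) n (P.eval y / Q.eval y) t) →
      Hyp (Polynomial.C (Complex.exp (t * Complex.I)) * Polynomial.expand ℂ n P)
        (Polynomial.expand ℂ n Q) := by
  have hQ0 : Q ≠ 0 := by
    rintro rfl
    have h2 : IsUnit P := isCoprime_zero_right.1 hc
    have h3 : P.natDegree = 0 := Polynomial.natDegree_eq_zero_of_isUnit h2
    rw [h3] at hD
    simp at hD
    omega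
  have hw := wro_ne_zero hc (hD ▸ hD1)
  set W : Set ℂ := {y | (wro P Q).eval y = 0} with hW
  have hWfin : W.Finite := by
    refine (Multiset.toFinset (wro P Q).roots).finite_toSet.subset ?_
    intro y hy
    rw [Finset.mem_coe, Multiset.mem_toFinset, Polynomial.mem_roots hw]
    exact hy
  -- critical values off the circle and the centres
  obtain ⟨η₁, hη₁, hg₁⟩ := good_of_finite
    (M := (fun y => (P.eval y, Q.eval y)) '' {y ∈ W | ‖P.eval y‖ ≠ ‖Q.eval y‖})
    ((hWfin.subset fun x hx => hx.1).image _) (by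
      rintro _ ⟨y, hy, rfl⟩
      exact hy.2)
  obtain ⟨η₂, hη₂, hg₂⟩ := good_of_finite
    (M := {(P.coeff 0, Q.coeff 0), (P.coeff D, Q.coeff D)}) (by simp) (by
      rintro x (rfl | rfl)
      · exact h0
      · exact hDD)
  obtain ⟨n₀, htrap⟩ := trap hc hD (by omega : 0 < D) (le_refl (20 : ℝ))
  obtain ⟨n₁, hn₁⟩ := eventually_atTop.1 ((log_div_lt 20 hη₁).and ((log_div_lt 20 hη₂).and
    ((eventually_ge_atTop n₀).and (eventually_ge_atTop 2))))
  refine ⟨n₁, fun n hnge t hn => ?_⟩
  obtain ⟨c1, c2, hnn, hn2⟩ := hn₁ n hnge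
  set s : ℂ := Complex.exp (t * Complex.I) with hsdef
  have hsn : ‖s‖ = 1 := Complex.norm_exp_ofReal_mul_I t
  have hs0 : s ≠ 0 := Complex.exp_ne_zero _
  have hn0 : (0 : ℝ) < n := by exact_mod_cast (by omega : 0 < n)
  have hlog : 0 < Real.log n := Real.log_pos (by exact_mod_cast (by omega : 1 < n))
  set η : ℝ := 20 * (Real.log n / n) with hη
  have hη0 : 0 < η := by positivity
  have hcs : IsCoprime (Polynomial.C s * P) Q := by
    have h1 := coprime_family hc hs0 1
    rwa [Polynomial.expand_one, Polynomial.expand_one] at h1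
  have hDs : D = max (Polynomial.C s * P).natDegree Q.natDegree := by
    rw [Polynomial.natDegree_C_mul hs0, hD]
  have hcop : IsCoprime (Polynomial.expand ℂ n (Polynomial.C s * P)) (Polynomial.expand ℂ n Q) :=
    hcs.map _
  have hQe : Polynomial.expand ℂ n Q ≠ 0 := (Polynomial.expand_ne_zero (by omega)).2 hQ0
  obtain ⟨f, hf, -⟩ := exists_isRat hcop hQe
  have hS := htrap n hnn s hsn (by
    intro i
    left
    cases i
    · rw [cp_false, cp_false, Polynomial.eval_mul, Polynomial.eval_C,
        ← Polynomial.coeff_zero_eq_eval_zero, ← Polynomial.coeff_zero_eq_eval_zero]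
      exact good_smul hsn ((hg₂ (P.coeff 0, Q.coeff 0) (Or.inl rfl)).mono c2.le)
    · rw [eval_cp_true_zero, eval_cp_true_zero, Polynomial.coeff_C_mul]
      exact good_smul hsn ((hg₂ (P.coeff D, Q.coeff D) (Or.inr rfl)).mono c2.le)) f hf
  have hgood : ∀ p q : ℂ, (p ≠ 0 ∨ q ≠ 0) → Good η p q → Sinks f (pr p q) :=
    fun p q hpq hg => good_sinks hη0 hS hpq hg
  have hfψ := map_ch hDs (by omega : 0 < D) (by omega : 0 < n) hf
  have hfcoe : ∀ z : ℂ, f (z : OnePoint ℂ) = pr (s * P.eval (z ^ n)) (Q.eval (z ^ n)) := by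
    intro z
    have h4 := hfψ false z
    rw [cp_false, cp_false, ch_false, Polynomial.eval_mul, Polynomial.eval_C] at h4
    exact h4
  have hne : ∀ u : ℂ, s * P.eval u ≠ 0 ∨ Q.eval u ≠ 0 := by
    intro u
    rcases coprime_eval hc u with h | h
    · exact Or.inl (mul_ne_zero hs0 h)
    · exact Or.inr h
  have hval : ∀ y : ℂ, (wro (Polynomial.C s * P) Q).eval y = 0 →
      Sinks f (pr ((Polynomial.C s * P).eval y) (Q.eval y)) := by
    intro y hy
    rw [wro_smul, Polynomial.eval_mul, Polynomial.eval_C] at hy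
    have hyW : y ∈ W := (mul_eq_zero.1 hy).resolve_left hs0
    rw [Polynomial.eval_mul, Polynomial.eval_C]
    by_cases heq : ‖P.eval y‖ = ‖Q.eval y‖
    · have hQy : Q.eval y ≠ 0 := by
        intro h
        rw [h, norm_zero, norm_eq_zero] at heq
        exact (coprime_eval hc y).elim (fun h' => h' heq) (fun h' => h' h)
      have hb := hn y hyW heq
      rw [pr_ne hQy]
      set v : ℂ := P.eval y / Q.eval y with hv
      have e1 : s * P.eval y / Q.eval y = s * v := by rw [hv, mul_div_assoc]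
      rw [e1]
      apply sinks_of_image hf.cont
      rw [hfcoe]
      have e2 : (s * v) ^ n = th n v t := rfl
      rw [e2]
      by_cases hg : Good η (P.eval (th n v t)) (Q.eval (th n v t))
      · exact hgood _ _ (hne _) (good_smul hsn hg)
      · have hQth : Q.eval (th n v t) ≠ 0 := fun h => hg (good_of_zero h)
        have hg2 := not_not.1 (fun h => hb ⟨hg, h⟩)
        rw [pr_ne hQth, mul_div_assoc]
        apply sinks_of_image hf.cont
        rw [hfcoe]
        exact hgood _ _ (hne _) (good_smul hsn hg2)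
    · exact hgood _ _ (hne y) (good_smul hsn
        ((hg₁ (P.eval y, Q.eval y) ⟨y, ⟨hyW, heq⟩, rfl⟩).mono c1.le))
  have hfinal := hyp_of_values hcs hDs (by omega) (by omega : 0 < n) hf
    (fun i => hS i 0 (by simp [(Real.exp_pos _).le])) hval
  rw [map_mul, Polynomial.expand_C] at hfinal
  exact hfinal

end Pool.Agent.TH433.MC
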