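import Pool.Agent.TH206.Fro.Defs

set_option autoImplicit false

namespace Pool.Agent.TH433.NM

open Finset Pool.Agent.TH206.Fro
open scoped Pointwise

/-- The monomials of degree `e` in the variables after those of `a`. -/
noncomputable def HS (n e : ℕ) (a : Fin n →₀ ℕ) : Finset (Fin n →₀ ℕ) :=
  (Mon n e).filter (fun w => ∀ i j, a i ≠ 0 → w j ≠ 0 → i ≤ j)

/-- The monomials of degree `l` without divisors in `A`. -/
noncomputable def M0 (n l : ℕ) (A : Finset (Fin n →₀ ℕ)) : Finset (Fin n →₀ ℕ) :=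
  (Mon n l).filter (fun y => ∀ a ∈ A, ¬ a ≤ y)

lemma exists_lt {n k : ℕ} {a a' : Fin n →₀ ℕ} (ha : ∑ i, a i = k) (ha' : ∑ i, a' i = k)
    (hne : a ≠ a') : ∃ i, a i < a' i := by
  by_contra h
  push Not at h
  apply hne
  ext i
  exact ((Finset.sum_eq_sum_iff_of_le (fun i _ => h i)).mp (ha'.trans ha.symm) i
    (Finset.mem_univ i)).symm

lemma sum_HS_le (n k e : ℕ) : ∑ a ∈ Mon n k, (HS n e a).card ≤ (Mon n (k + e)).card := by
  rw [← Finset.card_sigma]
  refine Finset.card_le_card_of_injOn (fun p => p.1 + p.2) ?_ ?_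
  · rintro ⟨a, w⟩ h
    rw [Finset.mem_coe, Finset.mem_sigma] at h
    obtain ⟨h1, h2⟩ := h
    have h3 := (Finset.mem_filter.mp h2).1
    rw [mem_Mon] at h1 h3
    rw [Finset.mem_coe, mem_Mon]
    simp only [Finsupp.add_apply, Finset.sum_add_distrib]
    simp only at h1 h3
    rw [h1, h3]
  · rintro ⟨a, w⟩ h ⟨a', w'⟩ h' heq
    rw [Finset.mem_coe, Finset.mem_sigma] at h h'
    obtain ⟨h1, h2⟩ := h
    obtain ⟨h1', h2'⟩ := h'
    have h3 := (Finset.mem_filter.mp h2).2
    have h3' := (Finset.mem_filter.mp h2').2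
    rw [mem_Mon] at h1 h1'
    simp only at h1 h1' h3 h3' heq
    have haa : a = a' := by
      by_contra hne
      obtain ⟨i, hi⟩ := exists_lt h1 h1' hne
      obtain ⟨j, hj⟩ := exists_lt h1' h1 (Ne.symm hne)
      have ei := DFunLike.congr_fun heq i
      have ej := DFunLike.congr_fun heq j
      rw [Finsupp.add_apply, Finsupp.add_apply] at ei ej
      have g1 : j ≤ i := h3 j i (by omega) (by omega)
      have g2 : i ≤ j := h3' i j (by omega) (by omega)
      have g3 : i = j := le_antisymm g2 g1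
      subst g3
      omega
    subst haa
    have hww : w = w' := add_left_cancel heq
    subst hww
    rfl

end Pool.Agent.TH433.NM
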