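import Mathlib

set_option autoImplicit false

namespace Pool.Agent.TH433.NM

/-- conclusion of the counting: all numbers natural -/
lemma numer (n k d M m0 s s' : ℕ) (hn : 1 ≤ n) (hd : 3 * k + 2 ≤ d)
    (h1 : M * (k + d).choose (k + (k + 1)) ≤
      m0 * (k + d + n - 1).choose (d - (k + 1)) + s' * (k + d + n - 1).choose (k + (k + 1)))
    (h2 : m0 * (n + k - 1).choose k + s * (n + k - 1).choose k ≤
      s * (n + (k + (k + 1)) - 1).choose (k + (k + 1)))
    (hs : s' ≤ s) :
    M * (n + k - 1).choose k ≤ s * (n + (k + d) - 1).choose (k + d) := by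
  obtain ⟨r, rfl⟩ : ∃ r, n = r + 1 := ⟨n - 1, by omega⟩
  obtain ⟨A, hA⟩ : ∃ A, A = k + (k + 1) := ⟨_, rfl⟩
  obtain ⟨B, hB⟩ : ∃ B, B = d - (k + 1) := ⟨_, rfl⟩
  obtain ⟨T, hT⟩ : ∃ T, T = k + d := ⟨_, rfl⟩
  have hTAB : T = A + B := by omega
  have hAB : A ≤ B := by omega
  rw [← hA] at h1 h2
  rw [← hB, ← hT] at h1
  rw [← hT]
  have e1 : T + (r + 1) - 1 = T + r := by omega
  have e2 : r + 1 + A - 1 = r + A := by omega
  have e3 : r + 1 + T - 1 = T + r := by omega
  rw [e1] at h1
  rw [e2] at h2
  rw [e3]
  obtain ⟨Nk, hNk⟩ : ∃ Nk, Nk = (r + 1 + k - 1).choose k := ⟨_, rfl⟩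
  rw [← hNk] at h2 ⊢
  have i1 : (T + r).choose T * T.choose A = (T + r).choose B * (r + A).choose A := by
    have h := Nat.choose_mul (n := T + r) (k := T) (s := B) (by omega)
    have h3 : T.choose B = T.choose A := by
      rw [hTAB]
      exact (Nat.choose_symm_add).symm
    have h4 : T + r - B = r + A := by omega
    have h5 : T - B = A := by omega
    rw [h3, h4, h5] at h
    exact h
  have i2 : (T + r).choose T * T.choose A = (T + r).choose A * (r + B).choose B := by
    have h := Nat.choose_mul (n := T + r) (k := T) (s := A) (by omega)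
    have h4 : T + r - A = r + B := by omega
    have h5 : T - A = B := by omega
    rw [h4, h5] at h
    exact h
  have hP : 0 < T.choose A := Nat.choose_pos (by omega)
  have hQ : 0 < (r + A).choose A := Nat.choose_pos (by omega)
  have hQQ : (r + A).choose A ≤ (r + B).choose B := by
    have h3 : (r + A).choose A = (r + A).choose r := (Nat.choose_symm_add).symm
    have h4 : (r + B).choose B = (r + B).choose r := (Nat.choose_symm_add).symm
    rw [h3, h4]
    exact Nat.choose_le_choose r (by omega)
  have hYX : (T + r).choose A ≤ (T + r).choose B := by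
    refine Nat.le_of_mul_le_mul_right (c := (r + A).choose A) ?_ hQ
    rw [← i1, i2]
    exact Nat.mul_le_mul_left _ hQQ
  refine Nat.le_of_mul_le_mul_right (c := T.choose A) ?_ hP
  generalize (T + r).choose T = ND at *
  generalize T.choose A = P at *
  generalize (T + r).choose B = X at *
  generalize (T + r).choose A = Y at *
  generalize (r + A).choose A = Q at *
  calc M * Nk * P = (M * P) * Nk := by ring
    _ ≤ (m0 * X + s' * Y) * Nk := Nat.mul_le_mul_right _ h1
    _ ≤ (m0 * X + s * X) * Nk := by
        refine Nat.mul_le_mul_right _ (Nat.add_le_add_left ?_ _)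
        exact Nat.mul_le_mul hs hYX
    _ = (m0 * Nk + s * Nk) * X := by ring
    _ ≤ (s * Q) * X := Nat.mul_le_mul_right _ h2
    _ = s * (X * Q) := by ring
    _ = s * (ND * P) := by rw [i1]
    _ = s * ND * P := by ring

/-- the count in the last degree: for `N ≥ 2`, `3 m + 2 ≤ d ≤ 3 m + 4` -/
lemma count4 (N m d : ℕ) (hN : 2 ≤ N) (hd : d ≤ 3 * m + 4) :
    (d + m + N).choose N ≤ 4 ^ N * (m + N).choose N := by
  induction N, hN using Nat.le_induction with
  | base =>
    have h1 : (d + m + 2).choose 2 * 2 = (d + m + 2) * (d + m + 1) := by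
      have h := Nat.add_one_mul_choose_eq (d + m + 1) 1
      rw [Nat.choose_one_right] at h
      exact h.symm
    have h2 : (m + 2).choose 2 * 2 = (m + 2) * (m + 1) := by
      have h := Nat.add_one_mul_choose_eq (m + 1) 1
      rw [Nat.choose_one_right] at h
      exact h.symm
    refine Nat.le_of_mul_le_mul_right (c := 2) ?_ (by norm_num)
    rw [h1, mul_assoc, h2]
    nlinarith [Nat.mul_le_mul (show d + m + 2 ≤ 4 * m + 6 by omega)
      (show d + m + 1 ≤ 4 * m + 5 by omega)]
  | succ N hN ih =>
    have h1 : (d + m + (N + 1)).choose (N + 1) * (N + 1) = (d + m + N + 1) * (d + m + N).choose N :=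
      (Nat.add_one_mul_choose_eq (d + m + N) N).symm
    have h2 : (m + (N + 1)).choose (N + 1) * (N + 1) = (m + N + 1) * (m + N).choose N :=
      (Nat.add_one_mul_choose_eq (m + N) N).symm
    refine Nat.le_of_mul_le_mul_right (c := N + 1) ?_ (by omega)
    rw [h1, mul_assoc, h2]
    calc (d + m + N + 1) * (d + m + N).choose N
        ≤ (4 * (m + N + 1)) * (4 ^ N * (m + N).choose N) :=
          Nat.mul_le_mul (by omega) ih
      _ = _ := by ring

end Pool.Agent.TH433.NM
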