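import Mathlib

set_option autoImplicit false
set_option linter.unusedSectionVars false

namespace Pool.Agent.TH433

open Finset

variable {V : Type} [Fintype V] [DecidableEq V]

/-- `L` is the family of lines of a non-degenerate projective plane of order `q` on `V`. -/
structure IsPlane (L : Finset (Finset V)) (q : ℕ) : Prop where
  card : ∀ l ∈ L, l.card = q + 1
  line : ∀ p p' : V, p ≠ p' → ∃ l ∈ L, p ∈ l ∧ p' ∈ l
  uniq : ∀ l ∈ L, ∀ m ∈ L, ∀ p p' : V, p ≠ p' → p ∈ l → p' ∈ l → p ∈ m → p' ∈ m → l = m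
  meet : ∀ l ∈ L, ∀ m ∈ L, ∃ p, p ∈ l ∧ p ∈ m
  quad : ∃ F : Finset V, F.card = 4 ∧ ∀ l ∈ L, (F ∩ l).card ≤ 2

/-- lines through a point -/
def pencil (L : Finset (Finset V)) (p : V) : Finset (Finset V) := L.filter (fun l => p ∈ l)

/-- blocking set -/
def Blocks (L : Finset (Finset V)) (X : Finset V) : Prop := ∀ l ∈ L, (X ∩ l).Nonempty

namespace IsPlane

variable {L : Finset (Finset V)} {q : ℕ}

theorem mem_pencil {p : V} {l : Finset V} : l ∈ pencil L p ↔ l ∈ L ∧ p ∈ l := by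
  simp [pencil]

/-- three non collinear points -/
theorem exists_triangle (h : IsPlane L q) :
    ∃ a b c : V, a ≠ b ∧ a ≠ c ∧ b ≠ c ∧ ∀ l ∈ L, a ∈ l → b ∈ l → c ∈ l → False := by
  obtain ⟨F, hF, hl⟩ := h.quad
  obtain ⟨T, hTF, hT⟩ := Finset.exists_subset_card_eq (show 3 ≤ F.card by omega)
  obtain ⟨a, b, c, hab, hac, hbc, rfl⟩ := Finset.card_eq_three.1 hT
  refine ⟨a, b, c, hab, hac, hbc, fun l hlL ha hb hc => ?_⟩
  have h1 := hl l hlL
  have h2 : ({a, b, c} : Finset V) ⊆ F ∩ l := by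
    intro x hx
    rw [Finset.mem_inter]
    refine ⟨hTF hx, ?_⟩
    simp only [Finset.mem_insert, Finset.mem_singleton] at hx
    rcases hx with rfl | rfl | rfl <;> assumption
  have h3 := Finset.card_le_card h2
  omega

/-- there is a line missing any given point -/
theorem exists_line_not_mem (h : IsPlane L q) (p : V) : ∃ l ∈ L, p ∉ l := by
  obtain ⟨a, b, c, hab, hac, hbc, hT⟩ := h.exists_triangle
  by_contra hcon
  push Not at hcon
  obtain ⟨l1, h1, ha1, hb1⟩ := h.line a b hab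
  obtain ⟨l2, h2, ha2, hc2⟩ := h.line a c hac
  obtain ⟨l3, h3, hb3, hc3⟩ := h.line b c hbc
  have hp1 := hcon l1 h1
  have hp2 := hcon l2 h2
  have hp3 := hcon l3 h3
  by_cases hpa : p = a
  · subst hpa
    exact hT l3 h3 hp3 hb3 hc3
  · have := h.uniq l1 h1 l2 h2 p a hpa hp1 ha1 hp2 ha2
    subst this
    exact hT l1 h1 ha1 hb1 hc2

theorem card_pencil (h : IsPlane L q) (p : V) : (pencil L p).card = q + 1 := by
  obtain ⟨m, hm, hpm⟩ := h.exists_line_not_mem p
  rw [← h.card m hm]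
  symm
  have hex : ∀ x ∈ m, ∃ l ∈ L, p ∈ l ∧ x ∈ l := fun x hx =>
    h.line p x (fun e => hpm (e ▸ hx))
  choose! f hf using hex
  refine Finset.card_bij (fun x _ => f x) ?_ ?_ ?_
  · intro x hx
    rw [mem_pencil]
    exact ⟨(hf x hx).1, (hf x hx).2.1⟩
  · intro x hx y hy hxy
    by_contra hne
    have h1 := hf x hx
    have h2 := hf y hy
    have hxy' : f x = f y := hxy
    rw [← hxy'] at h2
    have := h.uniq (f x) h1.1 m hm x y hne h1.2.2 h2.2.2 hx hy
    exact hpm (this ▸ h1.2.1)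
  · intro l hl
    rw [mem_pencil] at hl
    obtain ⟨x, hxl, hxm⟩ := h.meet l hl.1 m hm
    refine ⟨x, hxm, ?_⟩
    have h1 := hf x hxm
    exact h.uniq (f x) h1.1 l hl.1 p x (fun e => hpm (e ▸ hxm)) h1.2.1 h1.2.2 hl.2 hxl

/-- a set missing `p` is partitioned by the lines through `p` -/
theorem sum_pencil (h : IsPlane L q) (p : V) (X : Finset V) (hp : p ∉ X) :
    ∑ l ∈ pencil L p, (X ∩ l).card = X.card := by
  rw [← Finset.card_biUnion]
  · congr 1
    ext x
    simp only [Finset.mem_biUnion, Finset.mem_inter]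
    constructor
    · rintro ⟨l, _, hx, _⟩; exact hx
    · intro hx
      obtain ⟨l, hl, hpl, hxl⟩ := h.line p x (fun e => hp (e ▸ hx))
      exact ⟨l, mem_pencil.2 ⟨hl, hpl⟩, hx, hxl⟩
  · intro l hl m hm hne
    rw [Finset.mem_coe, mem_pencil] at hl hm
    rw [Function.onFun, Finset.disjoint_left]
    intro x hx hx'
    rw [Finset.mem_inter] at hx hx'
    exact hne (h.uniq l hl.1 m hm.1 p x (fun e => hp (e ▸ hx.1)) hl.2 hx.2 hm.2 hx'.2)

theorem card_points (h : IsPlane L q) : Fintype.card V = q ^ 2 + q + 1 := by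
  obtain ⟨a, _⟩ := h.exists_triangle
  have h1 := h.sum_pencil a (Finset.univ.erase a) (by simp)
  have h2 : ∀ l ∈ pencil L a, ((Finset.univ.erase a) ∩ l).card = q := by
    intro l hl
    rw [mem_pencil] at hl
    have : (Finset.univ.erase a) ∩ l = l.erase a := by
      ext x; simp
    rw [this, Finset.card_erase_of_mem hl.2, h.card l hl.1]
    rfl
  rw [Finset.sum_congr rfl h2, Finset.sum_const, h.card_pencil, Finset.card_erase_of_mem
    (Finset.mem_univ a), Finset.card_univ, smul_eq_mul] at h1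
  have h3 : 0 < Fintype.card V := Fintype.card_pos_iff.2 ⟨a⟩
  have h4 : (q + 1) * q = q ^ 2 + q := by ring
  omega

/-- intersection of distinct lines has exactly one point -/
theorem inter_card (h : IsPlane L q) {l m : Finset V} (hl : l ∈ L) (hm : m ∈ L) (hne : l ≠ m) :
    (l ∩ m).card = 1 := by
  obtain ⟨p, hpl, hpm⟩ := h.meet l hl m hm
  rw [Finset.card_eq_one]
  refine ⟨p, ?_⟩
  ext x
  simp only [Finset.mem_inter, Finset.mem_singleton]
  constructor
  · rintro ⟨h1, h2⟩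
    by_contra hx
    exact hne (h.uniq l hl m hm x p hx h1 hpl h2 hpm)
  · rintro rfl; exact ⟨hpl, hpm⟩

theorem inter_card_pos (h : IsPlane L q) {l m : Finset V} (hl : l ∈ L) (hm : m ∈ L) :
    1 ≤ (l ∩ m).card := by
  obtain ⟨p, hpl, hpm⟩ := h.meet l hl m hm
  exact Finset.card_pos.2 ⟨p, Finset.mem_inter.2 ⟨hpl, hpm⟩⟩

/-! ### blocking sets -/

theorem blocks_line (h : IsPlane L q) {l : Finset V} (hl : l ∈ L) : Blocks L l := by
  intro m hm
  obtain ⟨p, hp1, hp2⟩ := h.meet l hl m hm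
  exact ⟨p, Finset.mem_inter.2 ⟨hp1, hp2⟩⟩

theorem blocks_card_add (h : IsPlane L q) {X : Finset V} (hX : Blocks L X) {w : V} (hw : w ∉ X)
    {l : Finset V} (hl : l ∈ L) (hwl : w ∈ l) : (X ∩ l).card + q ≤ X.card := by
  have h1 := h.sum_pencil w X hw
  have hmem : l ∈ pencil L w := mem_pencil.2 ⟨hl, hwl⟩
  rw [← Finset.add_sum_erase _ _ hmem] at h1
  have h2 : ∑ m ∈ (pencil L w).erase l, 1 ≤ ∑ m ∈ (pencil L w).erase l, (X ∩ m).card := by
    apply Finset.sum_le_sum
    intro m hm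
    have hmL := (mem_pencil.1 (Finset.mem_of_mem_erase hm)).1
    exact Finset.card_pos.2 (hX m hmL)
  rw [Finset.sum_const, Finset.card_erase_of_mem hmem, h.card_pencil, smul_eq_mul] at h2
  omega

theorem blocks_card_ge (h : IsPlane L q) {X : Finset V} (hX : Blocks L X)
    (hno : ∀ l ∈ L, ¬ l ⊆ X) (hq : 2 ≤ q) : q + 3 ≤ X.card := by
  -- a point outside
  obtain ⟨a, b, c, hab, -, -, -⟩ := h.exists_triangle
  obtain ⟨l0, hl0, -, -⟩ := h.line a b hab
  have key : ∀ l ∈ L, (X ∩ l).card + q ≤ X.card := by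
    intro l hl
    obtain ⟨w, hwl, hwX⟩ := Finset.not_subset.1 (hno l hl)
    exact h.blocks_card_add hX hwX hl hwl
  have h1 : q + 1 ≤ X.card := by
    have := key l0 hl0
    have h2 := Finset.card_pos.2 (hX l0 hl0)
    omega
  have h2 : q + 2 ≤ X.card := by
    obtain ⟨x, hx, y, hy, hxy⟩ := Finset.one_lt_card.1 (show 1 < X.card by omega)
    obtain ⟨l, hl, hxl, hyl⟩ := h.line x y hxy
    have h3 := key l hl
    have h4 : 1 < (X ∩ l).card := Finset.one_lt_card.2
      ⟨x, Finset.mem_inter.2 ⟨hx, hxl⟩, y, Finset.mem_inter.2 ⟨hy, hyl⟩, hxy⟩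
    omega
  by_contra hcon
  have h3 : X.card = q + 2 := by omega
  have hle : ∀ l ∈ L, (X ∩ l).card ≤ 2 := by
    intro l hl
    have := key l hl
    omega
  have h2' : ∀ x ∈ X, ∀ l ∈ L, x ∈ l → (X ∩ l).card = 2 := by
    intro x hx l hl hxl
    have h4 := h.sum_pencil x (X.erase x) (by simp)
    have h5 : ∀ m ∈ pencil L x, ((X.erase x) ∩ m).card ≤ 1 := by
      intro m hm
      rw [mem_pencil] at hm
      have : (X.erase x) ∩ m = (X ∩ m).erase x := by
        ext y; simp only [Finset.mem_inter, Finset.mem_erase]; tauto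
      rw [this, Finset.card_erase_of_mem (Finset.mem_inter.2 ⟨hx, hm.2⟩)]
      have := hle m hm.1
      omega
    rw [Finset.card_erase_of_mem hx, h3] at h4
    have h6 : ∑ m ∈ pencil L x, ((X.erase x) ∩ m).card = ∑ m ∈ pencil L x, 1 := by
      rw [h4, Finset.sum_const, h.card_pencil, smul_eq_mul]; omega
    have h7 := (Finset.sum_eq_sum_iff_of_le h5).1 h6 l (mem_pencil.2 ⟨hl, hxl⟩)
    have h8 : (X.erase x) ∩ l = (X ∩ l).erase x := by
      ext y; simp only [Finset.mem_inter, Finset.mem_erase]; tauto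
    have h9 : 0 < (X ∩ l).card := Finset.card_pos.2 (hX l hl)
    rw [h8, Finset.card_erase_of_mem (Finset.mem_inter.2 ⟨hx, hxl⟩)] at h7
    omega
  obtain ⟨w, _, hwX⟩ := Finset.not_subset.1 (hno l0 hl0)
  have h4 := h.sum_pencil w X hwX
  have h5 : ∀ m ∈ pencil L w, (X ∩ m).card = 2 := by
    intro m hm
    rw [mem_pencil] at hm
    obtain ⟨x, hx⟩ := hX m hm.1
    rw [Finset.mem_inter] at hx
    exact h2' x hx.1 m hm.1 hx.2
  rw [Finset.sum_congr rfl h5, Finset.sum_const, h.card_pencil, smul_eq_mul, h3] at h4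
  omega

end IsPlane

end Pool.Agent.TH433
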