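import Mathlib

set_option autoImplicit false

namespace Pool.Agent.TH433.TJ

open Finset

theorem sumPhi {k K : Type} [Field k] [Field K] [Algebra k K] (m : ℕ) (hm : (m : k) ≠ 0) (ζ : k)
    (hζ : IsPrimitiveRoot ζ m) (x : K) (hx : x ^ m ≠ 1) :
    ∑ z ∈ Polynomial.nthRootsFinset m (1 : k), (x + algebraMap k K z) / (x - algebraMap k K z) =
      m * ((x ^ m + 1) / (x ^ m - 1)) := by
  classical
  have hm0 : 0 < m := by
    rcases Nat.eq_zero_or_pos m with h | h
    · subst h
      simp at hm
    · exact h
  have hprod := Polynomial.X_pow_sub_one_eq_prod hm0 hζ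
  have hne : ∀ z ∈ Polynomial.nthRootsFinset m (1 : k), x - algebraMap k K z ≠ 0 := by
    intro z hz h
    apply hx
    rw [sub_eq_zero.mp h, ← map_pow, (Polynomial.mem_nthRootsFinset hm0 _).mp hz, map_one]
  have hx1 : x ^ m - 1 ≠ 0 := sub_ne_zero.mpr hx
  have he : ∏ z ∈ Polynomial.nthRootsFinset m (1 : k), (x - algebraMap k K z) = x ^ m - 1 := by
    have h := congrArg (Polynomial.aeval x) hprod
    simp only [map_prod, map_sub, map_pow, Polynomial.aeval_X, map_one, Polynomial.aeval_C] at h
    exact h.symm
  have hd : ∑ z ∈ Polynomial.nthRootsFinset m (1 : k), 1 / (x - algebraMap k K z) =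
      m * x ^ (m - 1) / (x ^ m - 1) := by
    have h := congrArg (fun p => Polynomial.aeval x (Polynomial.derivative p)) hprod
    simp only [Polynomial.derivative_prod_finset, map_sum, map_mul, map_prod, map_sub, map_pow,
      Polynomial.aeval_X, Polynomial.aeval_C, Polynomial.derivative_X_pow,
      Polynomial.derivative_one, Polynomial.derivative_X, Polynomial.derivative_C, sub_zero,
      map_one, mul_one, map_natCast] at h
    rw [eq_div_iff hx1, h, Finset.sum_mul]
    refine Finset.sum_congr rfl fun z hz => ?_
    rw [← he, ← Finset.mul_prod_erase _ _ hz, ← mul_assoc, one_div, inv_mul_cancel₀ (hne z hz),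
      one_mul]
  have hcard : (Polynomial.nthRootsFinset m (1 : k)).card = m := hζ.card_nthRootsFinset
  calc ∑ z ∈ Polynomial.nthRootsFinset m (1 : k), (x + algebraMap k K z) / (x - algebraMap k K z)
      = ∑ z ∈ Polynomial.nthRootsFinset m (1 : k), (2 * x * (1 / (x - algebraMap k K z)) - 1) := by
        refine Finset.sum_congr rfl fun z hz => ?_
        have := hne z hz
        field_simp
        ring
    _ = 2 * x * (m * x ^ (m - 1) / (x ^ m - 1)) - m := by
        rw [Finset.sum_sub_distrib, ← Finset.mul_sum, hd, Finset.sum_const, hcard, nsmul_one]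
    _ = _ := by
        have h1 : x ^ m = x * x ^ (m - 1) := by
          rw [← pow_succ', Nat.sub_add_cancel hm0]
        field_simp
        rw [h1]
        ring

end Pool.Agent.TH433.TJ
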