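import Mathlib

set_option autoImplicit false

namespace Pool.Agent.TH433.TJ

open Finset

theorem many_zeros {k : Type} [Field k] (h2 : (2 : k) ≠ 0) (E : PowerSeries k)
    (hE0 : PowerSeries.constantCoeff E = 1)
    (hE1 : PowerSeries.coeff 1 E = 1) (n : ℕ) (hn : 1 ≤ n) (Z : Finset k) (hZ : ∀ z ∈ Z, z ≠ 0 ∧ z ≠ 1)
    (hcard : n < Z.card) (P : k → PowerSeries k)
    (hP : ∀ z ∈ Z, (E - PowerSeries.C z) * P z = E + PowerSeries.C z)
    (h0 : ∀ z ∈ Z, PowerSeries.coeff n (P z) = 0) : False := by
  classical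
  obtain ⟨V, hV⟩ : (PowerSeries.X : PowerSeries k) ∣ (E - 1) := by
    rw [PowerSeries.X_dvd_iff]
    simp [hE0]
  have hV0 : PowerSeries.constantCoeff V = 1 := by
    have h := congrArg (PowerSeries.coeff 1) hV
    have h1 : PowerSeries.coeff 1 (PowerSeries.X * V) = PowerSeries.coeff 0 V :=
      PowerSeries.coeff_succ_X_mul 0 V
    rw [h1, map_sub, hE1] at h
    simpa [PowerSeries.coeff_one] using h.symm
  obtain ⟨W, hW⟩ : ∃ W, W = E - 1 := ⟨_, rfl⟩
  have hE : E = 1 + W := by rw [hW]; ring
  rw [← hW] at hV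
  have hWn : PowerSeries.coeff n (W ^ n) = 1 := by
    rw [hV, mul_pow]
    have h := PowerSeries.coeff_X_pow_mul (V ^ n) n 0
    rw [zero_add] at h
    rw [h]
    simp [hV0]
  obtain ⟨R, hR⟩ : ∃ R : Polynomial k, R = ∑ j ∈ range (n + 1),
      Polynomial.C ((-1) ^ j * PowerSeries.coeff n (W ^ j)) * Polynomial.X ^ j := ⟨_, rfl⟩
  have hRn : R.coeff n = (-1) ^ n := by
    rw [hR, Polynomial.finsetSum_coeff]
    simp only [Polynomial.coeff_C_mul, Polynomial.coeff_X_pow]
    rw [Finset.sum_eq_single n]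
    · simp [hWn]
    · intro b _ hb
      simp [Ne.symm hb]
    · intro h
      simp at h
  have hR0 : R ≠ 0 := by
    intro h
    rw [h, Polynomial.coeff_zero] at hRn
    exact pow_ne_zero n (neg_ne_zero.mpr one_ne_zero) hRn.symm
  have hdeg : R.natDegree ≤ n := by
    rw [hR]
    refine Polynomial.natDegree_sum_le_of_forall_le _ _ fun j hj => ?_
    refine (Polynomial.natDegree_C_mul_X_pow_le _ _).trans ?_
    have := Finset.mem_range.mp hj
    omega
  have hroot : ∀ z ∈ Z, R.eval (1 - z)⁻¹ = 0 := by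
    intro z hz
    obtain ⟨hz0, hz1⟩ := hZ z hz
    have h1z : (1 - z) ≠ 0 := sub_ne_zero.mpr (Ne.symm hz1)
    obtain ⟨s, hs⟩ : ∃ s : k, s = (1 - z)⁻¹ := ⟨_, rfl⟩
    have hs0 : s ≠ 0 := by rw [hs]; exact inv_ne_zero h1z
    have hsz : s * (1 - z) = 1 := by rw [hs]; exact inv_mul_cancel₀ h1z
    -- the truncated inverse
    have hgeo : (∑ j ∈ range (n + 1), (-(PowerSeries.C s * W)) ^ j) *
        (1 + PowerSeries.C s * W) = 1 - (-(PowerSeries.C s * W)) ^ (n + 1) := by
      have h := geom_sum_mul (-(PowerSeries.C s * W)) (n + 1)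
      linear_combination -h
    have hC : PowerSeries.C s * (1 - PowerSeries.C z) = 1 := by
      rw [← map_one (PowerSeries.C (R := k)), ← map_sub, ← map_mul, hsz, map_one]
    have h3 : PowerSeries.C s * (E - PowerSeries.C z) = 1 + PowerSeries.C s * W := by
      rw [hE]
      linear_combination hC
    have h4 : (E - PowerSeries.C z) * (P z - 1) = PowerSeries.C (2 * z) := by
      have h := hP z hz
      rw [map_mul, map_ofNat]
      linear_combination h
    have h5 : P z - 1 = PowerSeries.C (2 * z * s) *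
        (∑ j ∈ range (n + 1), (-(PowerSeries.C s * W)) ^ j) +
        (P z - 1) * (-(PowerSeries.C s * W)) ^ (n + 1) := by
      have h6 : (1 + PowerSeries.C s * W) * (P z - 1) = PowerSeries.C (2 * z * s) := by
        rw [← h3, map_mul (PowerSeries.C (R := k)) (2 * z) s]
        linear_combination PowerSeries.C s * h4
      have h7 : (∑ j ∈ range (n + 1), (-(PowerSeries.C s * W)) ^ j) *
          ((1 + PowerSeries.C s * W) * (P z - 1)) =
          (1 - (-(PowerSeries.C s * W)) ^ (n + 1)) * (P z - 1) := by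
        rw [← mul_assoc, hgeo]
      rw [h6] at h7
      linear_combination -h7
    have h8 : PowerSeries.coeff n ((P z - 1) * (-(PowerSeries.C s * W)) ^ (n + 1)) = 0 := by
      have h9 : (P z - 1) * (-(PowerSeries.C s * W)) ^ (n + 1) =
          PowerSeries.X ^ (n + 1) * ((P z - 1) * (-(PowerSeries.C s * V)) ^ (n + 1)) := by
        rw [hV]
        ring
      rw [h9, PowerSeries.coeff_X_pow_mul', if_neg (by omega)]
    have h10 := congrArg (PowerSeries.coeff n) h5
    rw [map_add, h8, add_zero, map_sub, h0 z hz, PowerSeries.coeff_one, if_neg (by omega),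
      sub_zero, PowerSeries.coeff_C_mul] at h10
    have h11 : PowerSeries.coeff n (∑ j ∈ range (n + 1), (-(PowerSeries.C s * W)) ^ j) = 0 := by
      have h12 : (2 * z * s : k) ≠ 0 := mul_ne_zero (mul_ne_zero h2 hz0) hs0
      exact (mul_eq_zero.mp h10.symm).resolve_left h12
    rw [map_sum] at h11
    rw [← hs, hR, Polynomial.eval_finsetSum, ← h11]
    refine Finset.sum_congr rfl fun j _ => ?_
    have h13 : (-(PowerSeries.C s * W)) ^ j = PowerSeries.C ((-1) ^ j * s ^ j) * W ^ j := by
      rw [map_mul, map_pow, map_pow, map_neg, map_one]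
      rw [neg_pow, mul_pow]
      ring
    rw [h13, PowerSeries.coeff_C_mul, Polynomial.eval_mul, Polynomial.eval_C, Polynomial.eval_pow,
      Polynomial.eval_X]
    ring
  have hinj : Set.InjOn (fun z : k => (1 - z)⁻¹) (Z : Set k) := by
    intro a _ b _ hab
    have h := inv_injective hab
    exact sub_right_injective h
  have hsub : Z.image (fun z : k => (1 - z)⁻¹) ⊆ R.roots.toFinset := by
    intro t ht
    obtain ⟨z, hz, rfl⟩ := Finset.mem_image.mp ht
    rw [Multiset.mem_toFinset, Polynomial.mem_roots hR0]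
    exact hroot z hz
  have hc := Finset.card_le_card hsub
  rw [Finset.card_image_of_injOn hinj] at hc
  have h14 := Multiset.toFinset_card_le R.roots
  have h15 := Polynomial.card_roots' R
  omega

end Pool.Agent.TH433.TJ
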