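import Pool.Agent.TH433.Cover

set_option autoImplicit false
set_option linter.unusedSectionVars false

namespace Pool.Agent.TH433

open Finset

section

variable {V : Type} [Fintype V] [DecidableEq V]

/-- A triangle with its three sides in a family of lines. -/
structure Tri (L : Finset (Finset V)) (a b c : V) (lab lac lbc : Finset V) : Prop where
  hab : lab ∈ L
  hac : lac ∈ L
  hbc : lbc ∈ L
  a_ab : a ∈ lab
  b_ab : b ∈ lab
  a_ac : a ∈ lac
  c_ac : c ∈ lac
  b_bc : b ∈ lbc
  c_bc : c ∈ lbc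
  nab : a ≠ b
  nac : a ≠ c
  nbc : b ≠ c
  ncol : ∀ l ∈ L, a ∈ l → b ∈ l → c ∈ l → False

theorem IsPlane.exists_tri {L : Finset (Finset V)} {q : ℕ} (h : IsPlane L q) :
    ∃ a b c lab lac lbc, Tri L a b c lab lac lbc := by
  obtain ⟨a, b, c, hab, hac, hbc, hT⟩ := h.exists_triangle
  obtain ⟨l1, h1, ha1, hb1⟩ := h.line a b hab
  obtain ⟨l2, h2, ha2, hc2⟩ := h.line a c hac
  obtain ⟨l3, h3, hb3, hc3⟩ := h.line b c hbc
  exact ⟨a, b, c, l1, l2, l3, h1, h2, h3, ha1, hb1, ha2, hc2, hb3, hc3, hab, hac, hbc, hT⟩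

variable {L : Finset (Finset V)} {q : ℕ} {a b c : V} {lab lac lbc : Finset V}

theorem Tri.c_ab (t : Tri L a b c lab lac lbc) : c ∉ lab := fun h =>
  t.ncol lab t.hab t.a_ab t.b_ab h

theorem Tri.b_ac (t : Tri L a b c lab lac lbc) : b ∉ lac := fun h =>
  t.ncol lac t.hac t.a_ac h t.c_ac

theorem Tri.a_bc (t : Tri L a b c lab lac lbc) : a ∉ lbc := fun h =>
  t.ncol lbc t.hbc h t.b_bc t.c_bc

/-- a line through `x` missing three given points -/
theorem IsPlane.exists_avoid (h : IsPlane L q) (hq : 3 ≤ q) {x a b c : V} (ha : x ≠ a)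
    (hb : x ≠ b) (hc : x ≠ c) : ∃ l ∈ L, x ∈ l ∧ a ∉ l ∧ b ∉ l ∧ c ∉ l := by
  by_contra hcon
  push Not at hcon
  obtain ⟨la, h1, h1x, h1a⟩ := h.line x a ha
  obtain ⟨lb, h2, h2x, h2b⟩ := h.line x b hb
  obtain ⟨lc, h3, h3x, h3c⟩ := h.line x c hc
  have hsub : pencil L x ⊆ {la, lb, lc} := by
    intro l hl
    rw [IsPlane.mem_pencil] at hl
    simp only [Finset.mem_insert, Finset.mem_singleton]
    by_cases h4 : a ∈ l
    · exact Or.inl (h.uniq l hl.1 la h1 x a ha hl.2 h4 h1x h1a)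
    · by_cases h5 : b ∈ l
      · exact Or.inr (Or.inl (h.uniq l hl.1 lb h2 x b hb hl.2 h5 h2x h2b))
      · exact Or.inr (Or.inr (h.uniq l hl.1 lc h3 x c hc hl.2 (hcon l hl.1 hl.2 h4 h5) h3x h3c))
  have := Finset.card_le_card hsub
  rw [h.card_pencil] at this
  have := Finset.card_le_three (a := la) (b := lb) (c := lc)
  omega

/-- lines missing the triangle -/
def L1 (L : Finset (Finset V)) (a b c : V) : Finset (Finset V) :=
  L.filter (fun l => a ∉ l ∧ b ∉ l ∧ c ∉ l)

/-- lines meeting the triangle, other than `ab` and `ac` -/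
def L2 (L : Finset (Finset V)) (a b c : V) (lab lac : Finset V) : Finset (Finset V) :=
  L.filter (fun l => (a ∈ l ∨ b ∈ l ∨ c ∈ l) ∧ l ≠ lab ∧ l ≠ lac)

theorem mem_L1 {l : Finset V} : l ∈ L1 L a b c ↔ l ∈ L ∧ a ∉ l ∧ b ∉ l ∧ c ∉ l := by
  simp [L1]

theorem mem_L2 {l : Finset V} :
    l ∈ L2 L a b c lab lac ↔ l ∈ L ∧ (a ∈ l ∨ b ∈ l ∨ c ∈ l) ∧ l ≠ lab ∧ l ≠ lac := by
  simp [L2]

/-- number of lines of a family through a point -/
def deg (A : Finset (Finset V)) (x : V) : ℤ := ((A.filter (fun l => x ∈ l)).card : ℤ)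

theorem sum_deg (A : Finset (Finset V)) (X : Finset V) :
    ∑ x ∈ X, deg A x = ∑ l ∈ A, ((X ∩ l).card : ℤ) := by
  unfold deg
  simp only [Finset.card_filter, Nat.cast_sum]
  rw [Finset.sum_comm]
  apply Finset.sum_congr rfl
  intro l _
  rw [← Nat.cast_sum, ← Finset.card_filter, Finset.filter_mem_eq_inter]

/-- the weight `V` -/
def wV (L : Finset (Finset V)) (a b c : V) (lab lac : Finset V) (x : V) : ℤ :=
  (Fintype.card V : ℤ) * deg (L1 L a b c) x + (if x ∈ lab then 1 else 0) +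
    (if x ∈ lac then 1 else 0) - 1

/-- the weight `W` -/
def wW (L : Finset (Finset V)) (a b c : V) (lab lac : Finset V) (x : V) : ℤ :=
  (Fintype.card V : ℤ) * deg (L2 L a b c lab lac) x - 1

theorem sum_wV (X : Finset V) :
    ∑ x ∈ X, wV L a b c lab lac x = (Fintype.card V : ℤ) * ∑ l ∈ L1 L a b c, ((X ∩ l).card : ℤ) +
      (X ∩ lab).card + (X ∩ lac).card - X.card := by
  unfold wV
  rw [Finset.sum_sub_distrib, Finset.sum_add_distrib, Finset.sum_add_distrib, ← Finset.mul_sum,
    sum_deg, Finset.sum_boole, Finset.sum_boole, Finset.filter_mem_eq_inter,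
    Finset.filter_mem_eq_inter]
  simp

theorem sum_wW (X : Finset V) :
    ∑ x ∈ X, wW L a b c lab lac x =
      (Fintype.card V : ℤ) * ∑ l ∈ L2 L a b c lab lac, ((X ∩ l).card : ℤ) - X.card := by
  unfold wW
  rw [Finset.sum_sub_distrib, ← Finset.mul_sum, sum_deg]
  simp

/-- `D_V` -/
def dV (L : Finset (Finset V)) (q : ℕ) (a b c : V) : ℤ :=
  (Fintype.card V : ℤ) * (L1 L a b c).card - (q - 1)

/-- `D_W` -/
def dW (L : Finset (Finset V)) (q : ℕ) (a b c : V) (lab lac : Finset V) : ℤ :=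
  (Fintype.card V : ℤ) * (L2 L a b c lab lac).card - (q + 1)

theorem deg_nonneg (A : Finset (Finset V)) (x : V) : 0 ≤ deg A x := by unfold deg; positivity

theorem deg_pos {A : Finset (Finset V)} {x : V} {l : Finset V} (hl : l ∈ A) (hx : x ∈ l) :
    1 ≤ deg A x := by
  unfold deg
  have : 0 < (A.filter (fun l => x ∈ l)).card := Finset.card_pos.2 ⟨l, Finset.mem_filter.2 ⟨hl, hx⟩⟩
  exact_mod_cast this

theorem wV_nonneg (h : IsPlane L q) (hq : 3 ≤ q) (t : Tri L a b c lab lac lbc) (x : V) :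
    0 ≤ wV L a b c lab lac x := by
  unfold wV
  have h0 := deg_nonneg (L1 L a b c) x
  have hN : (1 : ℤ) ≤ Fintype.card V := by
    have : 0 < Fintype.card V := Fintype.card_pos_iff.2 ⟨x⟩
    exact_mod_cast this
  by_cases h1 : x ∈ lab
  · rw [if_pos h1]
    have : 0 ≤ (Fintype.card V : ℤ) * deg (L1 L a b c) x := by positivity
    split_ifs <;> linarith
  · by_cases h2 : x ∈ lac
    · rw [if_pos h2]
      have : 0 ≤ (Fintype.card V : ℤ) * deg (L1 L a b c) x := by positivity
      split_ifs <;> linarith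
    · rw [if_neg h1, if_neg h2]
      obtain ⟨l, hl, hxl, hal, hbl, hcl⟩ := h.exists_avoid hq (x := x) (a := a) (b := b) (c := c)
        (fun e => h1 (e ▸ t.a_ab)) (fun e => h1 (e ▸ t.b_ab)) (fun e => h2 (e ▸ t.c_ac))
      have h3 : 1 ≤ deg (L1 L a b c) x := deg_pos (mem_L1.2 ⟨hl, hal, hbl, hcl⟩) hxl
      nlinarith

theorem exists_L2 (h : IsPlane L q) (hq : 2 ≤ q) (t : Tri L a b c lab lac lbc) (x : V) :
    ∃ l ∈ L2 L a b c lab lac, x ∈ l := by
  by_cases h1 : x ∈ lab
  · by_cases h2 : x = a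
    · subst h2
      -- a third line through `a`
      have h3 : 2 < (pencil L x).card := by rw [h.card_pencil]; omega
      have h4 : ({lab, lac} : Finset (Finset V)).card ≤ 2 := Finset.card_le_two
      obtain ⟨l, hl, hl'⟩ := Finset.exists_mem_notMem_of_card_lt_card (lt_of_le_of_lt h4 h3)
      rw [IsPlane.mem_pencil] at hl
      simp only [Finset.mem_insert, Finset.mem_singleton, not_or] at hl'
      exact ⟨l, mem_L2.2 ⟨hl.1, Or.inl hl.2, hl'.1, hl'.2⟩, hl.2⟩
    · obtain ⟨l, hl, hcl, hxl⟩ := h.line c x (fun e => t.c_ab (e ▸ h1))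
      refine ⟨l, mem_L2.2 ⟨hl, Or.inr (Or.inr hcl), ?_, ?_⟩, hxl⟩
      · rintro rfl; exact t.c_ab hcl
      · rintro rfl
        have := h.uniq l t.hac lab t.hab x a h2 hxl t.a_ac h1 t.a_ab
        exact t.c_ab (this ▸ t.c_ac)
  · obtain ⟨l, hl, hbl, hxl⟩ := h.line b x (fun e => h1 (e ▸ t.b_ab))
    refine ⟨l, mem_L2.2 ⟨hl, Or.inr (Or.inl hbl), ?_, ?_⟩, hxl⟩
    · rintro rfl; exact h1 hxl
    · rintro rfl; exact t.b_ac hbl

theorem wW_pos (h : IsPlane L q) (hq : 2 ≤ q) (t : Tri L a b c lab lac lbc) (x : V) :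
    0 < wW L a b c lab lac x := by
  unfold wW
  obtain ⟨l, hl, hx⟩ := exists_L2 h hq t x
  have h1 : 1 ≤ deg (L2 L a b c lab lac) x := deg_pos hl hx
  have h2 : (2 : ℤ) ≤ Fintype.card V := by
    have : 2 ≤ Fintype.card V := by rw [h.card_points]; nlinarith
    exact_mod_cast this
  nlinarith

theorem card_le_sum {A : Finset (Finset V)} {X : Finset V} (hX : ∀ l ∈ A, (X ∩ l).Nonempty) :
    (A.card : ℤ) ≤ ∑ l ∈ A, ((X ∩ l).card : ℤ) := by
  have h1 : ∑ l ∈ A, (1 : ℤ) ≤ ∑ l ∈ A, ((X ∩ l).card : ℤ) := by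
    apply Finset.sum_le_sum
    intro l hl
    have := Finset.card_pos.2 (hX l hl)
    exact_mod_cast this
  simpa using h1

theorem card_lt_sum {A : Finset (Finset V)} {X : Finset V} (hX : ∀ l ∈ A, (X ∩ l).Nonempty)
    {m : Finset V} (hm : m ∈ A) (hm2 : 2 ≤ (X ∩ m).card) :
    (A.card : ℤ) + 1 ≤ ∑ l ∈ A, ((X ∩ l).card : ℤ) := by
  rw [← Finset.add_sum_erase _ _ hm]
  have h1 := card_le_sum (A := A.erase m) (X := X) (fun l hl => hX l (Finset.mem_of_mem_erase hl))
  rw [Finset.card_erase_of_mem hm] at h1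
  have h2 : 0 < A.card := Finset.card_pos.2 ⟨m, hm⟩
  have h3 : ((A.card - 1 : ℕ) : ℤ) = (A.card : ℤ) - 1 := by
    rw [Nat.cast_sub h2]; simp
  rw [h3] at h1
  have h4 : (2 : ℤ) ≤ ((X ∩ m).card : ℤ) := by exact_mod_cast hm2
  linarith

/-- sets all of whose intersections with lines missing the triangle are small have few points -/
theorem few_points (h : IsPlane L q) (hq : 3 ≤ q) (t : Tri L a b c lab lac lbc) {X : Finset V}
    (hX : Blocks L X) (hno : ∀ l ∈ L, ¬ l ⊆ X) (h1 : ∀ l ∈ L1 L a b c, (X ∩ l).card ≤ 1) :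
    (X \ {a, b, c}).card ≤ 4 := by
  by_contra hcon
  push Not at hcon
  set X' := X \ {a, b, c} with hX'
  have hvert : ∀ u ∈ X', ∀ v ∈ X', u ≠ v → ∀ l ∈ L, u ∈ l → v ∈ l → (a ∈ l ∨ b ∈ l ∨ c ∈ l) := by
    intro u hu v hv huv l hl hul hvl
    by_contra hcon2
    push Not at hcon2
    have h2 := h1 l (mem_L1.2 ⟨hl, hcon2⟩)
    have hu' := (Finset.mem_sdiff.1 hu).1
    have hv' := (Finset.mem_sdiff.1 hv).1
    have h3 : 1 < (X ∩ l).card := Finset.one_lt_card.2
      ⟨u, Finset.mem_inter.2 ⟨hu', hul⟩, v, Finset.mem_inter.2 ⟨hv', hvl⟩, huv⟩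
    omega
  have hnv : ∀ u ∈ X', u ≠ a ∧ u ≠ b ∧ u ≠ c := by
    intro u hu
    have := (Finset.mem_sdiff.1 hu).2
    simpa using this
  -- a line through a vertex with at least three points of `X'`
  have hg : ∃ g ∈ L, ∃ v ∈ ({a, b, c} : Finset V), v ∈ g ∧ 3 ≤ (X' ∩ g).card := by
    obtain ⟨u, hu⟩ := Finset.card_pos.1 (show 0 < X'.card by omega)
    obtain ⟨hua, hub, huc⟩ := hnv u hu
    obtain ⟨la, hla, h1u, h1a⟩ := h.line u a hua
    obtain ⟨lb, hlb, h2u, h2b⟩ := h.line u b hub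
    obtain ⟨lc, hlc, h3u, h3c⟩ := h.line u c huc
    have hsub : X'.erase u ⊆ ((X' ∩ la).erase u) ∪ (((X' ∩ lb).erase u) ∪ ((X' ∩ lc).erase u)) := by
      intro y hy
      rw [Finset.mem_erase] at hy
      obtain ⟨l, hl, hul, hyl⟩ := h.line u y hy.1.symm
      simp only [Finset.mem_union, Finset.mem_erase, Finset.mem_inter]
      rcases hvert u hu y hy.2 hy.1.symm l hl hul hyl with h4 | h4 | h4
      · have := h.uniq l hl la hla u a hua hul h4 h1u h1a
        subst this
        exact Or.inl ⟨hy.1, hy.2, hyl⟩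
      · have := h.uniq l hl lb hlb u b hub hul h4 h2u h2b
        subst this
        exact Or.inr (Or.inl ⟨hy.1, hy.2, hyl⟩)
      · have := h.uniq l hl lc hlc u c huc hul h4 h3u h3c
        subst this
        exact Or.inr (Or.inr ⟨hy.1, hy.2, hyl⟩)
    have h5 := Finset.card_le_card hsub
    have h6 := Finset.card_union_le ((X' ∩ la).erase u) (((X' ∩ lb).erase u) ∪ ((X' ∩ lc).erase u))
    have h7 := Finset.card_union_le ((X' ∩ lb).erase u) ((X' ∩ lc).erase u)
    rw [Finset.card_erase_of_mem hu] at h5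
    rw [Finset.card_erase_of_mem (Finset.mem_inter.2 ⟨hu, h1u⟩)] at h6
    rw [Finset.card_erase_of_mem (Finset.mem_inter.2 ⟨hu, h2u⟩),
      Finset.card_erase_of_mem (Finset.mem_inter.2 ⟨hu, h3u⟩)] at h7
    by_cases c1 : 3 ≤ (X' ∩ la).card
    · exact ⟨la, hla, a, by simp, h1a, c1⟩
    · by_cases c2 : 3 ≤ (X' ∩ lb).card
      · exact ⟨lb, hlb, b, by simp, h2b, c2⟩
      · refine ⟨lc, hlc, c, by simp, h3c, ?_⟩
        omega
  obtain ⟨g, hgL, v0, hv0, hv0g, hg3⟩ := hg
  -- all of `X'` lies on `g`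
  have hall : X' ⊆ g := by
    intro u hu
    by_contra hug
    obtain ⟨y1, y2, y3, hy1, hy2, hy3, h12, h13, h23⟩ := Finset.two_lt_card_iff.1
      (show 2 < (X' ∩ g).card by omega)
    rw [Finset.mem_inter] at hy1 hy2 hy3
    have hne : ∀ y ∈ g, u ≠ y := fun y hy e => hug (e ▸ hy)
    have hv : ∀ y, y ∈ X' → y ∈ g → ∃ s ∈ ({a, b, c} : Finset V), s ∉ g ∧
        ∃ l ∈ L, u ∈ l ∧ y ∈ l ∧ s ∈ l := by
      intro y hyX hyg
      obtain ⟨l, hl, hul, hyl⟩ := h.line u y (hne y hyg)
      have h2 := hvert u hu y hyX (hne y hyg) l hl hul hyl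
      have h3 : ∃ s ∈ ({a, b, c} : Finset V), s ∈ l := by
        rcases h2 with h2 | h2 | h2
        · exact ⟨a, by simp, h2⟩
        · exact ⟨b, by simp, h2⟩
        · exact ⟨c, by simp, h2⟩
      obtain ⟨s, hs, hsl⟩ := h3
      refine ⟨s, hs, ?_, l, hl, hul, hyl, hsl⟩
      intro hsg
      have hys : y ≠ s := by
        rintro rfl
        obtain ⟨e1, e2, e3⟩ := hnv y hyX
        simp only [Finset.mem_insert, Finset.mem_singleton] at hs
        tauto
      have := h.uniq l hl g hgL y s hys hyl hsl hyg hsg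
      exact hug (this ▸ hul)
    have hinj : ∀ y y' s, y ∈ g → y' ∈ g → s ∈ ({a, b, c} : Finset V) →
        (∃ l ∈ L, u ∈ l ∧ y ∈ l ∧ s ∈ l) → (∃ l ∈ L, u ∈ l ∧ y' ∈ l ∧ s ∈ l) → y = y' := by
      rintro y y' s hyg hyg' hs ⟨l, hl, hul, hyl, hsl⟩ ⟨l', hl', hul', hyl', hsl'⟩
      have hus : u ≠ s := by
        rintro rfl
        obtain ⟨e1, e2, e3⟩ := hnv u hu
        simp only [Finset.mem_insert, Finset.mem_singleton] at hs
        tauto
      have hll := h.uniq l hl l' hl' u s hus hul hsl hul' hsl'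
      subst hll
      by_contra hyy
      have := h.uniq l hl g hgL y y' hyy hyl hyl' hyg hyg'
      exact hug (this ▸ hul)
    obtain ⟨s1, hs1, hs1g, hl1⟩ := hv y1 hy1.1 hy1.2
    obtain ⟨s2, hs2, hs2g, hl2⟩ := hv y2 hy2.1 hy2.2
    obtain ⟨s3, hs3, hs3g, hl3⟩ := hv y3 hy3.1 hy3.2
    have d12 : s1 ≠ s2 := by
      rintro rfl; exact h12 (hinj y1 y2 s1 hy1.2 hy2.2 hs1 hl1 hl2)
    have d13 : s1 ≠ s3 := by
      rintro rfl; exact h13 (hinj y1 y3 s1 hy1.2 hy3.2 hs1 hl1 hl3)
    have d23 : s2 ≠ s3 := by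
      rintro rfl; exact h23 (hinj y2 y3 s2 hy2.2 hy3.2 hs2 hl2 hl3)
    have d01 : v0 ≠ s1 := fun e => hs1g (e ▸ hv0g)
    have d02 : v0 ≠ s2 := fun e => hs2g (e ▸ hv0g)
    have d03 : v0 ≠ s3 := fun e => hs3g (e ▸ hv0g)
    have hsub : ({v0, s1, s2, s3} : Finset V) ⊆ {a, b, c} := by
      intro x hx
      simp only [Finset.mem_insert, Finset.mem_singleton] at hx
      rcases hx with rfl | rfl | rfl | rfl <;> assumption
    have h4 := Finset.card_le_card hsub
    have h5 : ({v0, s1, s2, s3} : Finset V).card = 4 := by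
      rw [Finset.card_insert_of_notMem, Finset.card_insert_of_notMem,
        Finset.card_insert_of_notMem, Finset.card_singleton]
      · simpa using d23
      · simp [d12, d13]
      · simp [d01, d02, d03]
    have h6 : ({a, b, c} : Finset V).card ≤ 3 := Finset.card_le_three
    omega
  -- conclusion
  obtain ⟨w, hwg, hwX⟩ := Finset.not_subset.1 (hno g hgL)
  have h2 := h.blocks_card_add hX hwX hgL hwg
  have h3 : X ⊆ (X ∩ g) ∪ (({a, b, c} : Finset V).erase v0) := by
    intro x hx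
    by_cases hxg : x ∈ g
    · exact Finset.mem_union_left _ (Finset.mem_inter.2 ⟨hx, hxg⟩)
    · apply Finset.mem_union_right
      rw [Finset.mem_erase]
      refine ⟨fun e => hxg (e ▸ hv0g), ?_⟩
      by_contra hxv
      exact hxg (hall (Finset.mem_sdiff.2 ⟨hx, hxv⟩))
  have h4 := Finset.card_le_card h3
  have h5 := Finset.card_union_le (X ∩ g) (({a, b, c} : Finset V).erase v0)
  rw [Finset.card_erase_of_mem hv0] at h5
  have h6 : ({a, b, c} : Finset V).card ≤ 3 := Finset.card_le_three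
  omega

theorem dV_le (h : IsPlane L q) (hq : 4 ≤ q) (t : Tri L a b c lab lac lbc) {X : Finset V}
    (hX : Blocks L X) : dV L q a b c ≤ ∑ x ∈ X, wV L a b c lab lac x := by
  have hX1 : ∀ l ∈ L1 L a b c, (X ∩ l).Nonempty := fun l hl => hX l (mem_L1.1 hl).1
  by_cases hline : ∃ l ∈ L, l ⊆ X
  · obtain ⟨l, hl, hlX⟩ := hline
    have h1 : ∑ x ∈ l, wV L a b c lab lac x ≤ ∑ x ∈ X, wV L a b c lab lac x :=
      Finset.sum_le_sum_of_subset_of_nonneg hlX (fun x _ _ => wV_nonneg h (by omega) t x)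
    refine le_trans ?_ h1
    rw [sum_wV]
    have h2 := card_le_sum (A := L1 L a b c) (X := l)
      (fun m hm => h.blocks_line hl m (mem_L1.1 hm).1)
    have h3 : (1 : ℤ) ≤ ((l ∩ lab).card : ℤ) := by exact_mod_cast h.inter_card_pos hl t.hab
    have h4 : (1 : ℤ) ≤ ((l ∩ lac).card : ℤ) := by exact_mod_cast h.inter_card_pos hl t.hac
    have h5 : (l.card : ℤ) = q + 1 := by rw [h.card l hl]; push_cast; ring
    unfold dV
    have h6 : (0 : ℤ) ≤ Fintype.card V := by positivity
    have h7 := mul_le_mul_of_nonneg_left h2 h6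
    linarith
  · push Not at hline
    have hc := h.blocks_card_ge hX hline (by omega)
    rw [sum_wV]
    unfold dV
    have h3 : 0 < (X ∩ lab).card := Finset.card_pos.2 (hX lab t.hab)
    have h4 : 0 < (X ∩ lac).card := Finset.card_pos.2 (hX lac t.hac)
    by_cases hbig : ∃ m ∈ L1 L a b c, 2 ≤ (X ∩ m).card
    · obtain ⟨m, hm, hm2⟩ := hbig
      have h2 := card_lt_sum hX1 hm hm2
      have h6 : (0 : ℤ) ≤ Fintype.card V := by positivity
      have h7 := mul_le_mul_of_nonneg_left h2 h6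
      have h8 : (X.card : ℤ) ≤ Fintype.card V := by exact_mod_cast Finset.card_le_univ X
      have h9 : (4 : ℤ) ≤ q := by exact_mod_cast hq
      have h10 : (0 : ℤ) < ((X ∩ lab).card : ℤ) := by exact_mod_cast h3
      have h11 : (0 : ℤ) < ((X ∩ lac).card : ℤ) := by exact_mod_cast h4
      nlinarith
    · push Not at hbig
      have hfew := few_points h (by omega) t hX hline (fun l hl => by have := hbig l hl; omega)
      have h5 : X.card ≤ (X \ {a, b, c}).card + (X ∩ {a, b, c}).card := by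
        rw [Finset.card_sdiff_add_card_inter]
      have h6 : ({a, b, c} : Finset V).card = 3 := Finset.card_eq_three.2
        ⟨a, b, c, t.nab, t.nac, t.nbc, rfl⟩
      have h7 : (X ∩ {a, b, c}).card ≤ 3 := by
        rw [← h6]; exact Finset.card_le_card Finset.inter_subset_right
      have hq4 : q = 4 := by omega
      have hX7 : X.card = 7 := by omega
      have h8 : (X ∩ {a, b, c}).card = 3 := by omega
      have h9 : X ∩ {a, b, c} = {a, b, c} :=
        Finset.eq_of_subset_of_card_le Finset.inter_subset_right (by omega)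
      have h10 : ({a, b, c} : Finset V) ⊆ X := by
        rw [← h9]; exact Finset.inter_subset_left
      have haX : a ∈ X := h10 (by simp)
      have hbX : b ∈ X := h10 (by simp)
      have hcX : c ∈ X := h10 (by simp)
      have h11 : 1 < (X ∩ lab).card := Finset.one_lt_card.2
        ⟨a, Finset.mem_inter.2 ⟨haX, t.a_ab⟩, b, Finset.mem_inter.2 ⟨hbX, t.b_ab⟩, t.nab⟩
      have h12 : 1 < (X ∩ lac).card := Finset.one_lt_card.2
        ⟨a, Finset.mem_inter.2 ⟨haX, t.a_ac⟩, c, Finset.mem_inter.2 ⟨hcX, t.c_ac⟩, t.nac⟩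
      have h13 := card_le_sum hX1
      have h14 : (0 : ℤ) ≤ Fintype.card V := by positivity
      have h15 := mul_le_mul_of_nonneg_left h13 h14
      have h16 : (2 : ℤ) ≤ ((X ∩ lab).card : ℤ) := by exact_mod_cast h11
      have h17 : (2 : ℤ) ≤ ((X ∩ lac).card : ℤ) := by exact_mod_cast h12
      rw [hX7, hq4]
      push_cast
      linarith

theorem dW_le (h : IsPlane L q) (hq : 3 ≤ q) (t : Tri L a b c lab lac lbc) {X : Finset V}
    (hX : Blocks L X) : dW L q a b c lab lac ≤ ∑ x ∈ X, wW L a b c lab lac x := by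
  have hX1 : ∀ l ∈ L2 L a b c lab lac, (X ∩ l).Nonempty := fun l hl => hX l (mem_L2.1 hl).1
  by_cases hline : ∃ l ∈ L, l ⊆ X
  · obtain ⟨l, hl, hlX⟩ := hline
    have h1 : ∑ x ∈ l, wW L a b c lab lac x ≤ ∑ x ∈ X, wW L a b c lab lac x :=
      Finset.sum_le_sum_of_subset_of_nonneg hlX (fun x _ _ => (wW_pos h (by omega) t x).le)
    refine le_trans ?_ h1
    rw [sum_wW]
    have h2 := card_le_sum (A := L2 L a b c lab lac) (X := l)
      (fun m hm => h.blocks_line hl m (mem_L2.1 hm).1)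
    have h5 : (l.card : ℤ) = q + 1 := by rw [h.card l hl]; push_cast; ring
    unfold dW
    have h6 : (0 : ℤ) ≤ Fintype.card V := by positivity
    have h7 := mul_le_mul_of_nonneg_left h2 h6
    linarith
  · push Not at hline
    have hc := h.blocks_card_ge hX hline (by omega)
    rw [sum_wW]
    unfold dW
    by_cases hbig : ∃ m ∈ L2 L a b c lab lac, 2 ≤ (X ∩ m).card
    · obtain ⟨m, hm, hm2⟩ := hbig
      have h2 := card_lt_sum hX1 hm hm2
      have h6 : (0 : ℤ) ≤ Fintype.card V := by positivity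
      have h7 := mul_le_mul_of_nonneg_left h2 h6
      have h8 : (X.card : ℤ) ≤ Fintype.card V := by exact_mod_cast Finset.card_le_univ X
      have h9 : (3 : ℤ) ≤ q := by exact_mod_cast hq
      nlinarith
    · exfalso
      push Not at hbig
      have hone : ∀ l ∈ L2 L a b c lab lac, (X ∩ l).card = 1 := by
        intro l hl
        have h1 := hbig l hl
        have h2 := Finset.card_pos.2 (hX1 l hl)
        omega
      have htwo : ∀ l ∈ L2 L a b c lab lac, ∀ x ∈ X, ∀ y ∈ X, x ∈ l → y ∈ l → x = y := by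
        intro l hl x hx y hy hxl hyl
        by_contra hxy
        have h1 : 1 < (X ∩ l).card := Finset.one_lt_card.2
          ⟨x, Finset.mem_inter.2 ⟨hx, hxl⟩, y, Finset.mem_inter.2 ⟨hy, hyl⟩, hxy⟩
        have := hone l hl
        omega
      have notsub : ∀ l ∈ L, ¬ X ⊆ l := by
        intro l hl hXl
        obtain ⟨w, hwl, hwX⟩ := Finset.not_subset.1 (hline l hl)
        have h1 := h.blocks_card_add hX hwX hl hwl
        rw [Finset.inter_eq_left.2 hXl] at h1
        omega
      have hbX : b ∉ X := by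
        intro hb
        apply notsub lab t.hab
        intro u hu
        by_contra hul
        have hbu : b ≠ u := fun e => hul (e ▸ t.b_ab)
        obtain ⟨l, hl, hbl, hul'⟩ := h.line b u hbu
        apply hbu
        refine htwo l (mem_L2.2 ⟨hl, Or.inr (Or.inl hbl), ?_, ?_⟩) b hb u hu hbl hul'
        · rintro rfl; exact hul hul'
        · rintro rfl; exact t.b_ac hbl
      have hcX : c ∉ X := by
        intro hc'
        apply notsub lac t.hac
        intro u hu
        by_contra hul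
        have hcu : c ≠ u := fun e => hul (e ▸ t.c_ac)
        obtain ⟨l, hl, hcl, hul'⟩ := h.line c u hcu
        apply hcu
        refine htwo l (mem_L2.2 ⟨hl, Or.inr (Or.inr hcl), ?_, ?_⟩) c hc' u hu hcl hul'
        · rintro rfl; exact t.c_ab hcl
        · rintro rfl; exact hul hul'
      have haX : a ∉ X := by
        intro ha
        obtain ⟨u, hu⟩ := hX lbc t.hbc
        rw [Finset.mem_inter] at hu
        have hau : a ≠ u := fun e => t.a_bc (e ▸ hu.2)
        have hub : u ≠ b := fun e => hbX (e ▸ hu.1)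
        have huc : u ≠ c := fun e => hcX (e ▸ hu.1)
        obtain ⟨l, hl, hal, hul⟩ := h.line a u hau
        apply hau
        refine htwo l (mem_L2.2 ⟨hl, Or.inl hal, ?_, ?_⟩) a ha u hu.1 hal hul
        · rintro rfl
          have := h.uniq l t.hab lbc t.hbc u b hub hul t.b_ab hu.2 t.b_bc
          exact t.a_bc (this ▸ hal)
        · rintro rfl
          have := h.uniq l t.hac lbc t.hbc u c huc hul t.c_ac hu.2 t.c_bc
          exact t.a_bc (this ▸ hal)
      -- counting through `b`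
      have hB : X.card = (X ∩ lab).card + q := by
        have h1 := h.sum_pencil b X hbX
        have hm : lab ∈ pencil L b := IsPlane.mem_pencil.2 ⟨t.hab, t.b_ab⟩
        rw [← Finset.add_sum_erase _ _ hm] at h1
        have h2 : ∀ l ∈ (pencil L b).erase lab, (X ∩ l).card = 1 := by
          intro l hl
          rw [Finset.mem_erase, IsPlane.mem_pencil] at hl
          apply hone
          refine mem_L2.2 ⟨hl.2.1, Or.inr (Or.inl hl.2.2), hl.1, ?_⟩
          rintro rfl; exact t.b_ac hl.2.2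
        rw [Finset.sum_congr rfl h2, Finset.sum_const, Finset.card_erase_of_mem hm,
          h.card_pencil, smul_eq_mul] at h1
        omega
      have hC : X.card = (X ∩ lac).card + q := by
        have h1 := h.sum_pencil c X hcX
        have hm : lac ∈ pencil L c := IsPlane.mem_pencil.2 ⟨t.hac, t.c_ac⟩
        rw [← Finset.add_sum_erase _ _ hm] at h1
        have h2 : ∀ l ∈ (pencil L c).erase lac, (X ∩ l).card = 1 := by
          intro l hl
          rw [Finset.mem_erase, IsPlane.mem_pencil] at hl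
          apply hone
          refine mem_L2.2 ⟨hl.2.1, Or.inr (Or.inr hl.2.2), ?_, hl.1⟩
          rintro rfl; exact t.c_ab hl.2.2
        rw [Finset.sum_congr rfl h2, Finset.sum_const, Finset.card_erase_of_mem hm,
          h.card_pencil, smul_eq_mul] at h1
        omega
      have hA : X.card = (X ∩ lab).card + (X ∩ lac).card + (q - 1) := by
        have h1 := h.sum_pencil a X haX
        have hm : lab ∈ pencil L a := IsPlane.mem_pencil.2 ⟨t.hab, t.a_ab⟩
        have hne : lac ≠ lab := fun e => t.c_ab (e ▸ t.c_ac)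
        have hm' : lac ∈ (pencil L a).erase lab :=
          Finset.mem_erase.2 ⟨hne, IsPlane.mem_pencil.2 ⟨t.hac, t.a_ac⟩⟩
        rw [← Finset.add_sum_erase _ _ hm, ← Finset.add_sum_erase _ _ hm'] at h1
        have h2 : ∀ l ∈ ((pencil L a).erase lab).erase lac, (X ∩ l).card = 1 := by
          intro l hl
          rw [Finset.mem_erase, Finset.mem_erase, IsPlane.mem_pencil] at hl
          apply hone
          exact mem_L2.2 ⟨hl.2.2.1, Or.inl hl.2.2.2, hl.2.1, hl.1⟩
        rw [Finset.sum_congr rfl h2, Finset.sum_const, Finset.card_erase_of_mem hm',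
          Finset.card_erase_of_mem hm, h.card_pencil, smul_eq_mul] at h1
        omega
      omega

/-- the dot product of the two weights -/
theorem dot (h : IsPlane L q) (hq : 1 ≤ q) (t : Tri L a b c lab lac lbc) :
    ∑ x, wV L a b c lab lac x * wW L a b c lab lac x =
      dV L q a b c * dW L q a b c lab lac - q := by
  have hcard : (Fintype.card V : ℤ) = q ^ 2 + q + 1 := by
    rw [h.card_points]; push_cast; ring
  -- expand `wW`
  have h1 : ∑ x, wV L a b c lab lac x * wW L a b c lab lac x =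
      (Fintype.card V : ℤ) * ∑ l ∈ L2 L a b c lab lac, ∑ x ∈ l, wV L a b c lab lac x -
        ∑ x, wV L a b c lab lac x := by
    have h2 : ∑ l ∈ L2 L a b c lab lac, ∑ x ∈ l, wV L a b c lab lac x =
        ∑ x, wV L a b c lab lac x * deg (L2 L a b c lab lac) x := by
      have h3 : ∀ l ∈ L2 L a b c lab lac, ∑ x ∈ l, wV L a b c lab lac x =
          ∑ x, if x ∈ l then wV L a b c lab lac x else 0 := by
        intro l _
        rw [← Finset.sum_filter]
        apply Finset.sum_congr _ (fun _ _ => rfl)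
        ext x; simp
      rw [Finset.sum_congr rfl h3, Finset.sum_comm]
      apply Finset.sum_congr rfl
      intro x _
      unfold deg
      rw [← Finset.sum_filter, Finset.sum_const, nsmul_eq_mul, mul_comm]
    rw [h2, Finset.mul_sum, ← Finset.sum_sub_distrib]
    apply Finset.sum_congr rfl
    intro x _
    unfold wW
    ring
  -- lines in `L2`
  have hL2 : ∀ l ∈ L2 L a b c lab lac, ∑ x ∈ l, wV L a b c lab lac x = dV L q a b c := by
    intro l hl
    rw [mem_L2] at hl
    rw [sum_wV, h.inter_card hl.1 t.hab hl.2.2.1, h.inter_card hl.1 t.hac hl.2.2.2, h.card l hl.1]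
    have h4 : ∀ m ∈ L1 L a b c, ((l ∩ m).card : ℤ) = 1 := by
      intro m hm
      rw [mem_L1] at hm
      rw [h.inter_card hl.1 hm.1]
      · simp
      · rintro rfl
        tauto
    rw [Finset.sum_congr rfl h4]
    unfold dV
    simp
    ring
  have huniv : ∑ x, wV L a b c lab lac x =
      (Fintype.card V : ℤ) * ((q + 1) * (L1 L a b c).card) + 2 * (q + 1) - Fintype.card V := by
    rw [sum_wV]
    have h5 : ∀ m ∈ L1 L a b c, (((Finset.univ : Finset V) ∩ m).card : ℤ) = q + 1 := by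
      intro m hm
      rw [mem_L1] at hm
      rw [Finset.univ_inter, h.card m hm.1]
      push_cast; ring
    rw [Finset.sum_congr rfl h5, Finset.univ_inter, Finset.univ_inter, h.card _ t.hab,
      h.card _ t.hac, Finset.card_univ]
    simp
    ring
  rw [h1, Finset.sum_congr rfl hL2, huniv, Finset.sum_const, nsmul_eq_mul]
  unfold dW
  have h6 : dV L q a b c = (Fintype.card V : ℤ) * (L1 L a b c).card - (q - 1) := rfl
  rw [h6, hcard]
  ring

theorem dV_pos (h : IsPlane L q) (hq : 3 ≤ q) (t : Tri L a b c lab lac lbc) :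
    0 < dV L q a b c := by
  have hx : ∃ x, x ≠ a ∧ x ≠ b ∧ x ≠ c := by
    have h1 : ({a, b, c} : Finset V).card < (Finset.univ : Finset V).card := by
      have h2 : ({a, b, c} : Finset V).card ≤ 3 := Finset.card_le_three
      rw [Finset.card_univ, h.card_points]
      nlinarith
    obtain ⟨x, _, hx⟩ := Finset.exists_mem_notMem_of_card_lt_card h1
    exact ⟨x, by simpa using hx⟩
  obtain ⟨x, hxa, hxb, hxc⟩ := hx
  obtain ⟨l, hl, -, hal, hbl, hcl⟩ := h.exists_avoid hq hxa hxb hxc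
  have h1 : 0 < (L1 L a b c).card := Finset.card_pos.2 ⟨l, mem_L1.2 ⟨hl, hal, hbl, hcl⟩⟩
  unfold dV
  have h2 : (1 : ℤ) ≤ ((L1 L a b c).card : ℤ) := by exact_mod_cast h1
  have h3 : (Fintype.card V : ℤ) = q ^ 2 + q + 1 := by
    rw [h.card_points]; push_cast; ring
  rw [h3]
  have h4 : (3 : ℤ) ≤ q := by exact_mod_cast hq
  nlinarith

end

/-- The case of order at least four. -/
theorem no_large {n : ℕ} {C L : Finset (Finset (Fin n))} {q : ℕ} (hP : IsPlane L q) (hq : 4 ≤ q)
    (hLC : L ⊆ C) (hmin : ∀ S ∈ C, q + 1 ≤ S.card) (hC : MinorsIdeal C) : False := by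
  obtain ⟨a, b, c, lab, lac, lbc, t⟩ := hP.exists_tri
  have hblk : ∀ S ∈ C, Blocks L S := fun S hS l hl =>
    line_meets hP (by omega) hLC hmin hC hS hl
  have key := minor_bound hC ∅ {b} (by simp) (by simp)
    (wV L a b c lab lac) (wW L a b c lab lac) (dV L q a b c) (dW L q a b c lab lac)
    (dV_pos hP (by omega) t) (wV_nonneg hP (by omega) t)
    (fun i hi => by
      have hib : i = b := by simpa using hi
      subst hib
      unfold wV deg
      have h1 : (L1 L a i c).filter (fun l => i ∈ l) = ∅ := by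
        rw [Finset.filter_eq_empty_iff]
        intro l hl
        exact (mem_L1.1 hl).2.2.1
      rw [h1, if_pos t.b_ab, if_neg t.b_ac]
      simp)
    (fun S hS _ => dV_le hP hq t (hblk S hS))
    (wW_pos hP (by omega) t)
    (fun X _ hX => dW_le hP (by omega) t
      (fun l hl => hX l (hLC hl) (by simp)))
  rw [dot hP (by omega) t] at key
  have : (4 : ℤ) ≤ q := by exact_mod_cast hq
  linarith

end Pool.Agent.TH433
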